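import Mathlib

namespace H658PD

open MvPolynomial

section Theta

variable {σ R : Type*} [CommRing R]

/-- Scaling hom: the variable `s` goes to `t ^ (w s) * s`. -/
noncomputable def th (w : σ → ℕ) :
    MvPolynomial σ R →ₐ[R] Polynomial (MvPolynomial σ R) :=
  aeval (fun s => Polynomial.C (X s) * Polynomial.X ^ (w s))

theorem th_X (w : σ → ℕ) (s : σ) :
    th w (X s : MvPolynomial σ R) = Polynomial.C (X s) * Polynomial.X ^ (w s) := by
  simp [th]

theorem th_C (w : σ → ℕ) (a : R) :
    th w (C a : MvPolynomial σ R) = Polynomial.C (C a) := by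
  rw [th, aeval_C]; rfl

theorem th_monomial (w : σ → ℕ) (e : σ →₀ ℕ) (a : R) :
    th w (monomial e a) = Polynomial.monomial (Finsupp.weight w e) (monomial e a) := by
  classical
  rw [th, aeval_monomial, Finsupp.prod]
  have h1 : ∀ s ∈ e.support, (Polynomial.C (X s : MvPolynomial σ R) * Polynomial.X ^ (w s)) ^ (e s)
      = Polynomial.C ((X s : MvPolynomial σ R) ^ (e s)) * Polynomial.X ^ (w s * e s) := by
    intro s _
    rw [mul_pow, ← pow_mul, map_pow]
  rw [Finset.prod_congr rfl h1, Finset.prod_mul_distrib, Finset.prod_pow_eq_pow_sum,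
    ← map_prod, ← Polynomial.C_mul_X_pow_eq_monomial]
  have h2 : (Finsupp.weight w) e = ∑ s ∈ e.support, w s * e s := by
    rw [Finsupp.weight_apply, Finsupp.sum]
    exact Finset.sum_congr rfl (fun s _ => by rw [smul_eq_mul, mul_comm])
  rw [h2, ← mul_assoc]
  congr 1
  rw [show (algebraMap R (Polynomial (MvPolynomial σ R)) a) = Polynomial.C (C a) from rfl,
    ← map_mul, monomial_eq]
  rfl

/-- Induction principle: additive statements follow from monomials. -/
theorem add_ind {P : MvPolynomial σ R → Prop} (f : MvPolynomial σ R)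
    (h1 : ∀ e a, P (monomial e a)) (h2 : ∀ f g, P f → P g → P (f + g)) : P f :=
  MvPolynomial.induction_on' f h1 (fun p q hp hq => h2 p q hp hq)

theorem eval_one_th (w : σ → ℕ) (f : MvPolynomial σ R) : (th w f).eval 1 = f := by
  induction f using add_ind with
  | h1 e a => rw [th_monomial, Polynomial.eval_monomial]; simp
  | h2 f g hf hg => rw [map_add, Polynomial.eval_add, hf, hg]

theorem th_coeff_monomial (w : σ → ℕ) (e : σ →₀ ℕ) (a : R) (m : ℕ) :
    (th w (monomial e a)).coeff m = if Finsupp.weight w e = m then monomial e a else 0 := by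
  rw [th_monomial, Polynomial.coeff_monomial]

theorem th_coeff_coeff (w : σ → ℕ) (f : MvPolynomial σ R) (m : ℕ) :
    th w ((th w f).coeff m) = Polynomial.monomial m ((th w f).coeff m) := by
  induction f using add_ind with
  | h1 e a =>
    rw [th_coeff_monomial]
    split_ifs with h
    · rw [th_monomial, h]
    · simp
  | h2 f g hf hg => rw [map_add, Polynomial.coeff_add, map_add, hf, hg, map_add]

theorem th_ne_zero (w : σ → ℕ) {f : MvPolynomial σ R} (hf : f ≠ 0) : th w f ≠ 0 := by
  intro h
  apply hf
  rw [← eval_one_th w f, h, Polynomial.eval_zero]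

theorem th_pderiv (w : σ → ℕ) (f : MvPolynomial σ R) (s : σ) (m : ℕ) :
    (th w (pderiv s f)).coeff m = pderiv s ((th w f).coeff (m + w s)) := by
  classical
  induction f using add_ind with
  | h1 e a =>
    rw [pderiv_monomial, th_coeff_monomial, th_coeff_monomial]
    by_cases hs : e s = 0
    · rw [hs]
      simp only [Nat.cast_zero, mul_zero, monomial_zero, ite_self]
      split_ifs
      · rw [pderiv_monomial, hs]; simp
      · simp
    · have he : e = (e - Finsupp.single s 1) + Finsupp.single s 1 := by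
        ext u
        by_cases hu : u = s
        · subst hu; simp; omega
        · simp [Ne.symm hu]
      have hw : Finsupp.weight w e = Finsupp.weight w (e - Finsupp.single s 1) + w s := by
        conv_lhs => rw [he]
        rw [map_add, Finsupp.weight_single]
        simp
      by_cases hm : Finsupp.weight w (e - Finsupp.single s 1) = m
      · rw [if_pos hm, if_pos (by rw [hw, hm]), pderiv_monomial]
      · rw [if_neg hm, if_neg (by rw [hw]; omega), map_zero]
  | h2 f g hf hg => 
    rw [map_add, map_add, Polynomial.coeff_add, hf, hg, map_add, Polynomial.coeff_add, map_add]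

/-- `f` has weight at most `m`, and its component of weight `m` is `c`. -/
def Tp (w : σ → ℕ) (f : MvPolynomial σ R) (m : ℕ) (c : MvPolynomial σ R) : Prop :=
  (th w f).natDegree ≤ m ∧ (th w f).coeff m = c

namespace Tp

variable {w : σ → ℕ} {f g c e : MvPolynomial σ R} {m n : ℕ}

theorem add (h : Tp w f m c) (h' : Tp w g m e) : Tp w (f + g) m (c + e) := by
  refine ⟨?_, ?_⟩
  · rw [map_add]; exact Polynomial.natDegree_add_le_of_degree_le h.1 h'.1
  · rw [map_add, Polynomial.coeff_add, h.2, h'.2]

theorem neg (h : Tp w f m c) : Tp w (-f) m (-c) := by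
  refine ⟨?_, ?_⟩
  · rw [map_neg, Polynomial.natDegree_neg]; exact h.1
  · rw [map_neg, Polynomial.coeff_neg, h.2]

theorem sub (h : Tp w f m c) (h' : Tp w g m e) : Tp w (f - g) m (c - e) := by
  rw [sub_eq_add_neg, sub_eq_add_neg]; exact h.add h'.neg

theorem zero : Tp w (0 : MvPolynomial σ R) m 0 := by
  refine ⟨?_, ?_⟩ <;> simp

theorem mul (h : Tp w f m c) (h' : Tp w g n e) : Tp w (f * g) (m + n) (c * e) := by
  refine ⟨?_, ?_⟩
  · rw [map_mul]; exact Polynomial.natDegree_mul_le_of_le h.1 h'.1
  · rw [map_mul, Polynomial.coeff_mul_add_eq_of_natDegree_le h.1 h'.1, h.2, h'.2]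

theorem lt (h : Tp w f m c) (hmn : m < n) : Tp w f n 0 := by
  refine ⟨h.1.trans hmn.le, ?_⟩
  exact Polynomial.coeff_eq_zero_of_natDegree_lt (h.1.trans_lt hmn)

theorem congr (h : Tp w f m c) (hmn : m = n) (hc : c = e) : Tp w f n e := by
  subst hmn; subst hc; exact h

theorem self (w : σ → ℕ) (f : MvPolynomial σ R) (m : ℕ) (h : (th w f).natDegree ≤ m) :
    Tp w f m ((th w f).coeff m) := ⟨h, rfl⟩

theorem const (a : R) : Tp w (C a : MvPolynomial σ R) 0 (C a) := by
  refine ⟨?_, ?_⟩
  · rw [th_C]; simp
  · rw [th_C]; simp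

theorem var (s : σ) : Tp w (X s : MvPolynomial σ R) (w s) (X s) := by
  refine ⟨?_, ?_⟩
  · rw [th_X]
    exact Polynomial.natDegree_C_mul_X_pow_le _ _
  · rw [th_X, Polynomial.coeff_C_mul_X_pow, if_pos rfl]

theorem idem (h : Tp w f m c) : Tp w c m c := by
  have h2 := th_coeff_coeff w f m
  rw [h.2] at h2
  refine ⟨?_, ?_⟩
  · rw [h2]; exact Polynomial.natDegree_monomial_le _
  · rw [h2, Polynomial.coeff_monomial, if_pos rfl]

theorem sub_top (h : Tp w f (m + 1) c) : (th w (f - c)).natDegree ≤ m := by
  have h1 := h.sub h.idem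
  rw [sub_self] at h1
  exact Polynomial.natDegree_le_iff_coeff_eq_zero.2 (fun N hN => by
    rcases Nat.lt_or_ge (m + 1) N with h2 | h2
    · exact Polynomial.coeff_eq_zero_of_natDegree_lt (h1.1.trans_lt h2)
    · have : N = m + 1 := by omega
      rw [this]; exact h1.2)

theorem zero_eq (h : Tp w f 0 c) : c = f := by
  have h1 : th w f = Polynomial.C c := by
    rw [Polynomial.eq_C_of_natDegree_le_zero h.1, h.2]
  have h2 := eval_one_th w f
  rw [h1, Polynomial.eval_C] at h2
  exact h2

theorem pderiv_in (s : σ) (hs : w s = 1) (h : Tp w f (m + 1) c) :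
    Tp w (pderiv s f) m (pderiv s c) := by
  refine ⟨?_, ?_⟩
  · rw [Polynomial.natDegree_le_iff_coeff_eq_zero]
    intro N hN
    rw [th_pderiv, hs, Polynomial.coeff_eq_zero_of_natDegree_lt (lt_of_le_of_lt h.1 (by omega)),
      map_zero]
  · rw [th_pderiv, hs, h.2]

theorem pderiv_out (s : σ) (hs : w s = 0) (h : Tp w f m c) :
    Tp w (pderiv s f) m (pderiv s c) := by
  refine ⟨?_, ?_⟩
  · rw [Polynomial.natDegree_le_iff_coeff_eq_zero]
    intro N hN
    rw [th_pderiv, hs, add_zero, Polynomial.coeff_eq_zero_of_natDegree_lt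
      (lt_of_le_of_lt h.1 hN), map_zero]
  · rw [th_pderiv, hs, add_zero, h.2]

theorem pderiv_zero (s : σ) (hs : w s = 1) (h : Tp w f 0 c) : pderiv s f = 0 := by
  have h1 : th w f = Polynomial.C c := by
    rw [Polynomial.eq_C_of_natDegree_le_zero h.1, h.2]
  have h2 : th w (pderiv s f) = 0 := by
    ext1 N
    rw [th_pderiv, hs, h1, Polynomial.coeff_C_succ, map_zero, Polynomial.coeff_zero]
  rw [← eval_one_th w (pderiv s f), h2, Polynomial.eval_zero]

end Tp

/-- Two-term top component bookkeeping for polynomials in one variable. -/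
theorem pow_top {S : Type*} [CommRing S] {p : Polynomial S} {q : ℕ} (h : p.natDegree ≤ q) (n : ℕ) :
    (p ^ n).natDegree ≤ q * n ∧ (p ^ n).coeff (q * n) = (p.coeff q) ^ n := by
  induction n with
  | zero => simp
  | succ n ih =>
    rw [pow_succ, pow_succ, mul_add, mul_one]
    exact ⟨Polynomial.natDegree_mul_le_of_le ih.1 h, by
      rw [Polynomial.coeff_mul_add_eq_of_natDegree_le ih.1 h, ih.2]⟩

theorem prod_top {S ι : Type*} [CommRing S] (s : Finset ι) {p : ι → Polynomial S}
    {q : ι → ℕ} (h : ∀ i ∈ s, (p i).natDegree ≤ q i) :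
    (∏ i ∈ s, p i).natDegree ≤ ∑ i ∈ s, q i ∧
      (∏ i ∈ s, p i).coeff (∑ i ∈ s, q i) = ∏ i ∈ s, (p i).coeff (q i) := by
  classical
  induction s using Finset.induction_on with
  | empty => simp
  | insert a s ha ih =>
    have h1 := h a (Finset.mem_insert_self _ _)
    have h2 := ih (fun i hi => h i (Finset.mem_insert_of_mem hi))
    rw [Finset.prod_insert ha, Finset.sum_insert ha, Finset.prod_insert ha]
    exact ⟨Polynomial.natDegree_mul_le_of_le h1 h2.1, by
      rw [Polynomial.coeff_mul_add_eq_of_natDegree_le h1 h2.1, h2.2]⟩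

/-- Top component of a substitution into a homogeneous polynomial. -/
theorem Tp.aeval {τ k : Type*} [CommRing k] [Algebra k R] {w : σ → ℕ}
    {Y c : τ → MvPolynomial σ R} {q : ℕ} (h : ∀ a, Tp w (Y a) q (c a))
    {F : MvPolynomial τ k} {n : ℕ} (hF : F.IsHomogeneous n) :
    Tp w (aeval Y F) (q * n) (aeval c F) := by
  classical
  have key : ∀ e ∈ F.support, Tp w (MvPolynomial.aeval Y (monomial e (coeff e F))) (q * n)
      (MvPolynomial.aeval c (monomial e (coeff e F))) := by
    intro e he
    have hdeg : ∑ i ∈ e.support, e i = n := by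
      have := hF (mem_support_iff.1 he)
      rw [Finsupp.weight_apply, Finsupp.sum] at this
      rw [← this]
      exact Finset.sum_congr rfl (fun i _ => by simp)
    rw [aeval_monomial, aeval_monomial]
    have h2 : ∀ i ∈ e.support, ((th w (Y i)) ^ (e i)).natDegree ≤ q * e i :=
      fun i _ => (pow_top (h i).1 (e i)).1
    have h3 := prod_top e.support h2
    have h4 : ∏ i ∈ e.support, ((th w (Y i)) ^ (e i)).coeff (q * e i) =
        ∏ i ∈ e.support, (c i) ^ (e i) :=
      Finset.prod_congr rfl (fun i _ => by rw [(pow_top (h i).1 (e i)).2, (h i).2])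
    rw [h4, ← Finset.mul_sum, hdeg] at h3
    have h5 : Tp w (e.prod fun i k => Y i ^ k) (q * n) (e.prod fun i k => c i ^ k) := by
      refine ⟨?_, ?_⟩
      · rw [Finsupp.prod, map_prod]; simp only [map_pow]; exact h3.1
      · rw [Finsupp.prod, map_prod]; simp only [map_pow]; exact h3.2
    have h6 : Tp w (algebraMap k (MvPolynomial σ R) (coeff e F)) 0
        (algebraMap k (MvPolynomial σ R) (coeff e F)) := by
      rw [IsScalarTower.algebraMap_apply k R (MvPolynomial σ R), algebraMap_eq]
      exact Tp.const _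
    exact (h6.mul h5).congr (zero_add _) rfl
  have hsum : ∀ s : Finset (τ →₀ ℕ), s ⊆ F.support →
      Tp w (∑ e ∈ s, MvPolynomial.aeval Y (monomial e (coeff e F))) (q * n)
        (∑ e ∈ s, MvPolynomial.aeval c (monomial e (coeff e F))) := by
    intro s
    induction s using Finset.induction_on with
    | empty => intro _; simpa using Tp.zero
    | insert a s ha ih =>
      intro hs
      rw [Finset.sum_insert ha, Finset.sum_insert ha]
      exact (key a (hs (Finset.mem_insert_self _ _))).add
        (ih (fun x hx => hs (Finset.mem_insert_of_mem hx)))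
  have := hsum F.support (Finset.Subset.refl _)
  rw [← map_sum, ← map_sum, support_sum_monomial_coeff] at this
  exact this

/-- Compatibility of scaling with hom of variables and coefficients. -/
theorem th_comp_hom {k τ S : Type*} [CommRing k] [CommRing S] [Algebra k R] [Algebra k S]
    (w : σ → ℕ) (w' : τ → ℕ)
    (φ : MvPolynomial σ R →ₐ[k] MvPolynomial τ S)
    (hC : ∀ r : R, th w' (φ (C r)) = Polynomial.C (φ (C r)))
    (h : ∀ s, th w' (φ (X s)) = Polynomial.C (φ (X s)) * Polynomial.X ^ (w s))
    (f : MvPolynomial σ R) :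
    th w' (φ f) = Polynomial.map (φ : MvPolynomial σ R →+* MvPolynomial τ S) (th w f) := by
  induction f using MvPolynomial.induction_on with
  | C a => rw [hC, th_C, Polynomial.map_C]; rfl
  | add p q hp hq => rw [map_add, map_add, hp, hq, map_add, Polynomial.map_add]
  | mul_X p s hp =>
    rw [map_mul, map_mul, hp, h, map_mul, Polynomial.map_mul, th_X, Polynomial.map_mul,
      Polynomial.map_C, Polynomial.map_pow, Polynomial.map_X]
    rfl

end Theta

end H658PD
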