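import Pool.Agent.H658.PD.Height
import Pool.Agent.H658.PD.Theta

namespace H658PD

open MvPolynomial

section Lam

variable {σ k D : Type*} [Field k] [CommRing D] [Algebra k D]

/-- Apply a linear functional to all coefficients. -/
noncomputable def lam (l : D →ₗ[k] k) (f : MvPolynomial σ D) : MvPolynomial σ k :=
  ∑ e ∈ f.support, monomial e (l (coeff e f))

theorem coeff_lam (l : D →ₗ[k] k) (f : MvPolynomial σ D) (e : σ →₀ ℕ) :
    coeff e (lam l f) = l (coeff e f) := by
  classical
  rw [lam, coeff_sum]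
  simp only [coeff_monomial]
  rw [Finset.sum_ite_eq' f.support e (fun x => l (coeff x f))]
  split_ifs with h
  · rfl
  · rw [notMem_support_iff] at h; rw [h, map_zero]

theorem lam_add (l : D →ₗ[k] k) (f g : MvPolynomial σ D) :
    lam l (f + g) = lam l f + lam l g := by
  ext e; rw [coeff_lam, coeff_add, coeff_add, coeff_lam, coeff_lam, map_add]

theorem lam_zero (l : D →ₗ[k] k) : lam l (0 : MvPolynomial σ D) = 0 := by
  ext e; rw [coeff_lam, coeff_zero, coeff_zero, map_zero]

theorem lam_sub (l : D →ₗ[k] k) (f g : MvPolynomial σ D) :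
    lam l (f - g) = lam l f - lam l g := by
  ext e; rw [coeff_lam, coeff_sub, coeff_sub, coeff_lam, coeff_lam, map_sub]

theorem lam_mul_map (l : D →ₗ[k] k) (g : MvPolynomial σ k) (f : MvPolynomial σ D) :
    lam l (map (algebraMap k D) g * f) = g * lam l f := by
  classical
  ext e
  rw [coeff_lam, coeff_mul, coeff_mul, map_sum]
  refine Finset.sum_congr rfl (fun x _ => ?_)
  rw [coeff_map, coeff_lam, ← Algebra.smul_def, map_smul, smul_eq_mul]

theorem lam_C (l : D →ₗ[k] k) (r : D) : lam l (C r : MvPolynomial σ D) = C (l r) := by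
  classical
  ext e
  rw [coeff_lam, coeff_C, coeff_C]
  split_ifs <;> simp

theorem lam_map (l : D →ₗ[k] k) (hl : l 1 = 1) (g : MvPolynomial σ k) :
    lam l (map (algebraMap k D) g) = g := by
  have := lam_mul_map l g 1
  rw [mul_one] at this
  rw [this, ← C_1, lam_C, hl, C_1, mul_one]

theorem exists_fun_one [Nontrivial D] : ∃ l : D →ₗ[k] k, l 1 = 1 := by
  obtain ⟨l, hl⟩ := Module.Projective.exists_dual_ne_zero k (one_ne_zero : (1 : D) ≠ 0)
  refine ⟨(l 1)⁻¹ • l, ?_⟩
  rw [LinearMap.smul_apply, smul_eq_mul, inv_mul_cancel₀ hl]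

theorem exists_fun_ne {V : Type*} [AddCommGroup V] [Module k V] {v : V} (hv : v ≠ 0) :
    ∃ l : V →ₗ[k] k, l v ≠ 0 :=
  Module.Projective.exists_dual_ne_zero k hv

end Lam

section IS

variable {k : Type*} [Field k]

/-- The Jacobian ideal. -/
noncomputable def jac (Ω : MvPolynomial (Fin 3) k) : Ideal (MvPolynomial (Fin 3) k) :=
  Ideal.span (Set.range fun a => pderiv a Ω)

theorem th_homog {σ R : Type*} [CommRing R] {F : MvPolynomial σ R} {n : ℕ}
    (hF : F.IsHomogeneous n) : th (fun _ => 1) F = Polynomial.monomial n F := by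
  have h : Tp (fun _ => 1) (aeval (X : σ → MvPolynomial σ R) F) (1 * n)
      (aeval (X : σ → MvPolynomial σ R) F) :=
    Tp.aeval (w := fun _ : σ => 1) (Y := X) (c := X) (q := 1) (fun a => Tp.var a) hF
  rw [aeval_X_left_apply, one_mul] at h
  have := th_coeff_coeff (fun _ => 1) F n
  rw [h.2] at this
  exact this

theorem homog_pderiv {Ω : MvPolynomial (Fin 3) k} {d : ℕ} (h : Ω.IsHomogeneous d) (a : Fin 3) :
    (pderiv a Ω).IsHomogeneous (d - 1) := h.pderiv

theorem span_coeff {σ R : Type*} [CommRing R] {S : Set (MvPolynomial σ R)} (w : σ → ℕ)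
    (hS : ∀ g ∈ S, ∀ m, (th w g).coeff m ∈ Ideal.span S)
    {f : MvPolynomial σ R} (hf : f ∈ Ideal.span S) (m : ℕ) :
    (th w f).coeff m ∈ Ideal.span S := by
  revert m
  refine Submodule.span_induction (p := fun f _ => ∀ m, (th w f).coeff m ∈ Ideal.span S)
    ?_ ?_ ?_ ?_ hf
  · intro g hg m; exact hS g hg m
  · intro m; rw [map_zero, Polynomial.coeff_zero]; exact Ideal.zero_mem _
  · intro x y _ _ hx hy m
    rw [map_add, Polynomial.coeff_add]; exact Ideal.add_mem _ (hx m) (hy m)
  · intro a x _ hx m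
    rw [smul_eq_mul, map_mul, Polynomial.coeff_mul]
    exact Ideal.sum_mem _ (fun p _ => Ideal.mul_mem_left _ _ (hx _))

theorem jac_pow {Ω : MvPolynomial (Fin 3) k} {d : ℕ} (h : Ω.IsHomogeneous d)
    (his : Module.Finite k (MvPolynomial (Fin 3) k ⧸ jac Ω)) :
    ∃ m : ℕ, ∀ a, (X a : MvPolynomial (Fin 3) k) ^ m ∈ jac Ω := by
  have hone : ∀ a, ∃ m : ℕ, (X a : MvPolynomial (Fin 3) k) ^ m ∈ jac Ω := by
    intro a
    have hint : IsIntegral k (Ideal.Quotient.mk (jac Ω) (X a)) :=
      Algebra.IsIntegral.isIntegral _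
    obtain ⟨p, hp, hp0⟩ := hint
    refine ⟨p.natDegree, ?_⟩
    have h1 : Polynomial.aeval (X a : MvPolynomial (Fin 3) k) p ∈ jac Ω := by
      rw [← Ideal.Quotient.eq_zero_iff_mem]
      have : (Ideal.Quotient.mk (jac Ω)) (Polynomial.aeval (X a) p) =
          Polynomial.aeval (Ideal.Quotient.mkₐ k (jac Ω) (X a)) p := by
        rw [Polynomial.aeval_algHom_apply]; rfl
      rw [this]
      exact hp0
    have h2 : ∀ g ∈ Set.range (fun b => pderiv b Ω), ∀ m,
        (th (fun _ : Fin 3 => 1) g).coeff m ∈ Ideal.span (Set.range fun b => pderiv b Ω) := by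
      rintro _ ⟨b, rfl⟩ m
      rw [th_homog (homog_pderiv h b), Polynomial.coeff_monomial]
      split_ifs
      · exact Ideal.subset_span ⟨b, rfl⟩
      · exact Ideal.zero_mem _
    have h3 := span_coeff (fun _ => 1) h2 h1 p.natDegree
    have h4 : (th (fun _ => 1) (Polynomial.aeval (X a : MvPolynomial (Fin 3) k) p)).coeff
        p.natDegree = X a ^ p.natDegree := by
      rw [Polynomial.aeval_eq_sum_range, map_sum, Polynomial.finsetSum_coeff]
      rw [Finset.sum_eq_single p.natDegree]
      · rw [map_smul, map_pow, th_X, pow_one, mul_pow, ← map_pow, Polynomial.coeff_smul,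
          Polynomial.coeff_C_mul_X_pow, if_pos rfl, hp.coeff_natDegree, one_smul]
      · intro b _ hb
        rw [map_smul, map_pow, th_X, pow_one, mul_pow, ← map_pow, Polynomial.coeff_smul,
          Polynomial.coeff_C_mul_X_pow, if_neg (Ne.symm hb), smul_zero]
      · intro hn
        exact absurd (Finset.mem_range.2 (Nat.lt_succ_self _)) hn
    rw [h4] at h3
    exact h3
  choose m hm using hone
  refine ⟨m 0 + m 1 + m 2, fun a => ?_⟩
  have hle : m a ≤ m 0 + m 1 + m 2 := by
    fin_cases a <;> simp <;> omega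
  exact Ideal.pow_mem_of_pow_mem _ (hm a) hle |> fun h => h

/-- The data used throughout: homogeneous of degree `d`, with powers of the variables in the
Jacobian ideal. -/
structure IsPot (Ω : MvPolynomial (Fin 3) k) (d : ℕ) : Prop where
  hom : Ω.IsHomogeneous d
  two : 4 ≤ d
  pow : ∃ m : ℕ, ∀ a, (X a : MvPolynomial (Fin 3) k) ^ m ∈ jac Ω

theorem IsPot.pow_mem {Ω : MvPolynomial (Fin 3) k} {d : ℕ} (h : IsPot Ω d)
    {A : Type*} [CommRing A] [Algebra k A] (p : Ideal A) [hp : p.IsPrime] (Y : Fin 3 → A)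
    (hY : ∀ c, aeval Y (pderiv c Ω) ∈ p) (a : Fin 3) : Y a ∈ p := by
  obtain ⟨m, hm⟩ := h.pow
  have h1 : jac Ω ≤ p.comap (aeval Y : MvPolynomial (Fin 3) k →ₐ[k] A) := by
    rw [jac, Ideal.span_le]
    rintro _ ⟨c, rfl⟩
    exact hY c
  have h2 := h1 (hm a)
  rw [Ideal.mem_comap, map_pow, aeval_X] at h2
  exact hp.mem_of_pow_mem m h2

theorem IsPot.no_two {Ω : MvPolynomial (Fin 3) k} {d : ℕ} (h : IsPot Ω d)
    {K : Type*} [Field K] [Algebra k K] (f g : MvPolynomial (Fin 3) K)
    (hf : constantCoeff f = 0) (hg : constantCoeff g = 0)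
    (hc : ∀ c, map (algebraMap k K) (pderiv c Ω) ∈ Ideal.span {f, g}) : False := by
  obtain ⟨m, hm⟩ := h.pow
  refine H658PD.no_two f g hf hg m (fun a => ?_)
  have h1 : jac Ω ≤ (Ideal.span {f, g}).comap (map (algebraMap k K)) := by
    rw [jac, Ideal.span_le]
    rintro _ ⟨c, rfl⟩
    exact hc c
  have h2 := h1 (hm a)
  rwa [Ideal.mem_comap, map_pow, map_X] at h2

theorem eval_zero_th {σ R : Type*} [CommRing R] (f : MvPolynomial σ R) :
    (th (fun _ => 1) f).eval 0 = C (constantCoeff f) := by
  induction f using MvPolynomial.induction_on with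
  | C a => rw [th_C, Polynomial.eval_C, constantCoeff_C]
  | add p q hp hq => rw [map_add, Polynomial.eval_add, hp, hq, map_add, map_add]
  | mul_X p s hp => rw [map_mul, Polynomial.eval_mul, th_X, map_mul, constantCoeff_X]; simp

theorem constantCoeff_of_pos {σ R : Type*} [CommRing R] {f : MvPolynomial σ R} {n : ℕ}
    (hn : n ≠ 0) (h : th (fun _ => 1) f = Polynomial.monomial n f) : constantCoeff f = 0 := by
  have := eval_zero_th f
  rw [h, Polynomial.eval_monomial, zero_pow hn, mul_zero] at this
  exact C_injective σ R (by rw [← this, map_zero])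

theorem homog_map {Ω : MvPolynomial (Fin 3) k} {d : ℕ} (h : Ω.IsHomogeneous d)
    {D : Type*} [CommRing D] [Algebra k D] : (map (algebraMap k D) Ω).IsHomogeneous d :=
  h.map _

theorem IsPot.ne_zero {Ω : MvPolynomial (Fin 3) k} {d : ℕ} (h : IsPot Ω d) : Ω ≠ 0 := by
  rintro rfl
  refine h.no_two (K := k) 0 0 (by simp) (by simp) (fun c => ?_)
  simp

theorem IsPot.irred {Ω : MvPolynomial (Fin 3) k} {d : ℕ} (h : IsPot Ω d)
    {K : Type*} [Field K] [Algebra k K] (ξ : K) :
    Irreducible (map (algebraMap k K) Ω - C ξ) := by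
  classical
  set ΩK : MvPolynomial (Fin 3) K := map (algebraMap k K) Ω with hΩK
  have hd := h.two
  have hΩ0 : ΩK ≠ 0 := by
    rw [hΩK]
    intro h0
    exact h.ne_zero (map_injective _ (algebraMap k K).injective (by rw [h0, map_zero]))
  have hhom : ΩK.IsHomogeneous d := homog_map h.hom
  have hth : th (fun _ => 1) (ΩK - C ξ) = Polynomial.monomial d ΩK - Polynomial.C (C ξ) := by
    rw [map_sub, th_homog hhom, th_C]
  have hdeg : (th (fun _ => 1) (ΩK - C ξ)).natDegree = d := by
    rw [hth, Polynomial.natDegree_sub_C, Polynomial.natDegree_monomial, if_neg hΩ0]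
  have hlead : (th (fun _ => 1) (ΩK - C ξ)).leadingCoeff = ΩK := by
    rw [Polynomial.leadingCoeff, hdeg, hth, Polynomial.coeff_sub, Polynomial.coeff_monomial,
      if_pos rfl, Polynomial.coeff_C, if_neg (by omega), sub_zero]
  have hne : ΩK - C ξ ≠ 0 := by
    intro h0
    rw [h0, map_zero, Polynomial.natDegree_zero] at hdeg
    omega
  have hunit : ∀ f g : MvPolynomial (Fin 3) K, ΩK - C ξ = f * g →
      (th (fun _ => 1) f).natDegree = 0 → IsUnit f := by
    intro f g hfg hf0
    have hf : f ≠ 0 := by rintro rfl; exact hne (by rw [hfg, zero_mul])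
    have h1 : f = C (constantCoeff f) := by
      rw [← eval_zero_th f, Polynomial.eq_C_of_natDegree_eq_zero hf0, Polynomial.eval_C]
      have h2 := eval_one_th (fun _ => 1) f
      rw [Polynomial.eq_C_of_natDegree_eq_zero hf0, Polynomial.eval_C] at h2
      exact h2.symm
    rw [h1]
    refine IsUnit.map C (isUnit_iff_ne_zero.2 ?_)
    intro h0
    rw [h0, map_zero] at h1
    exact hf h1
  refine ⟨?_, ?_⟩
  · intro hu
    obtain ⟨g, hg⟩ := hu.exists_right_inv
    have h1 : (th (fun _ => 1) (ΩK - C ξ)) * th (fun _ => 1) g = 1 := by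
      rw [← map_mul, hg, map_one]
    have h2 := congrArg Polynomial.natDegree h1
    have hg0 : th (fun _ => 1) g ≠ 0 := by
      intro h0; rw [h0, mul_zero] at h1; exact zero_ne_one h1
    rw [Polynomial.natDegree_mul (th_ne_zero _ hne) hg0, Polynomial.natDegree_one, hdeg] at h2
    omega
  · intro f g hfg
    have hf : f ≠ 0 := by rintro rfl; exact hne (by rw [hfg, zero_mul])
    have hg : g ≠ 0 := by rintro rfl; exact hne (by rw [hfg, mul_zero])
    by_contra hcon
    push Not at hcon
    have he : (th (fun _ => 1) f).natDegree ≠ 0 := fun h0 => hcon.1 (hunit f g hfg h0)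
    have he' : (th (fun _ => 1) g).natDegree ≠ 0 :=
      fun h0 => hcon.2 (hunit g f (by rw [hfg, mul_comm]) h0)
    set F := (th (fun _ => 1) f).leadingCoeff with hF
    set G := (th (fun _ => 1) g).leadingCoeff with hG
    have hFG : ΩK = F * G := by
      rw [← hlead, hfg, map_mul, Polynomial.leadingCoeff_mul]
    have hF0 : constantCoeff F = 0 := constantCoeff_of_pos he (th_coeff_coeff _ f _)
    have hG0 : constantCoeff G = 0 := constantCoeff_of_pos he' (th_coeff_coeff _ g _)
    refine h.no_two F G hF0 hG0 (fun c => ?_)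
    rw [← pderiv_map, ← hΩK, hFG, Derivation.leibniz, smul_eq_mul, smul_eq_mul]
    refine Ideal.add_mem _ (Ideal.mul_mem_right _ _ (Ideal.subset_span (by simp)))
      (Ideal.mul_mem_right _ _ (Ideal.subset_span (by simp)))

end IS

section PrimeD

variable {k D : Type*} [Field k] [CommRing D] [IsDomain D] [Algebra k D]

theorem descend {Ω : MvPolynomial (Fin 3) k} {d : ℕ} (h : IsPot Ω d) (ξ : k)
    {f : MvPolynomial (Fin 3) D}
    {g : MvPolynomial (Fin 3) (FractionRing D)}
    (hfg : map (algebraMap D (FractionRing D)) f =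
      map (algebraMap k (FractionRing D)) (Ω - C ξ) * g) :
    ∃ g' : MvPolynomial (Fin 3) D, f = map (algebraMap k D) (Ω - C ξ) * g' := by
  classical
  have hinj : Function.Injective (algebraMap D (FractionRing D)) :=
    IsFractionRing.injective D (FractionRing D)
  have hne : Ω - C ξ ≠ 0 := by
    have := (h.irred (K := k) ξ).ne_zero
    simpa [MvPolynomial.map_id] using this
  -- the coefficients of g are in D
  have hcoef : ∀ e, coeff e g ∈ LinearMap.range (Algebra.linearMap D (FractionRing D)
      |>.restrictScalars k) := by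
    intro e
    by_contra hcon
    set W : Submodule k (FractionRing D) := LinearMap.range (Algebra.linearMap D (FractionRing D)
      |>.restrictScalars k) with hW
    have hq : W.mkQ (coeff e g) ≠ 0 := by
      intro h0
      rw [Submodule.mkQ_apply, Submodule.Quotient.mk_eq_zero] at h0
      exact hcon h0
    obtain ⟨l, hl⟩ := exists_fun_ne (k := k) hq
    have h1 : lam (l.comp W.mkQ) (map (algebraMap D (FractionRing D)) f) = 0 := by
      ext e'
      rw [coeff_lam, coeff_map, coeff_zero, LinearMap.comp_apply]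
      have : W.mkQ (algebraMap D (FractionRing D) (coeff e' f)) = 0 := by
        rw [Submodule.mkQ_apply, Submodule.Quotient.mk_eq_zero]
        exact ⟨coeff e' f, rfl⟩
      rw [this, map_zero]
    rw [hfg, lam_mul_map] at h1
    rcases mul_eq_zero.1 h1 with h2 | h2
    · exact hne h2
    · have := congrArg (coeff e) h2
      rw [coeff_lam, coeff_zero] at this
      exact hl this
  have hg : g ∈ Set.range (map (σ := Fin 3) (algebraMap D (FractionRing D))) := by
    rw [mem_range_map_iff_coeffs_subset]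
    intro c hc
    obtain ⟨e, -, rfl⟩ := (mem_coeffs_iff).1 hc
    obtain ⟨y, hy⟩ := hcoef e
    exact ⟨y, hy⟩
  obtain ⟨g', rfl⟩ := hg
  refine ⟨g', map_injective _ hinj ?_⟩
  rw [hfg, map_mul, map_map, ← IsScalarTower.algebraMap_eq]

theorem IsPot.prime {Ω : MvPolynomial (Fin 3) k} {d : ℕ} (h : IsPot Ω d) (ξ : k) :
    (Ideal.span {(map (algebraMap k D) (Ω - C ξ) : MvPolynomial (Fin 3) D)}).IsPrime := by
  have hpr : Prime (map (algebraMap k (FractionRing D)) (Ω - C ξ) :
      MvPolynomial (Fin 3) (FractionRing D)) := by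
    rw [map_sub, map_C]
    exact (h.irred (K := FractionRing D) _).prime
  have key : ∀ f : MvPolynomial (Fin 3) D,
      f ∈ Ideal.span {(map (algebraMap k D) (Ω - C ξ) : MvPolynomial (Fin 3) D)} ↔
      map (algebraMap D (FractionRing D)) f ∈
        Ideal.span {(map (algebraMap k (FractionRing D)) (Ω - C ξ) :
          MvPolynomial (Fin 3) (FractionRing D))} := by
    intro f
    rw [Ideal.mem_span_singleton, Ideal.mem_span_singleton]
    constructor
    · rintro ⟨g, rfl⟩
      refine ⟨map (algebraMap D (FractionRing D)) g, ?_⟩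
      rw [map_mul, map_map, ← IsScalarTower.algebraMap_eq]
    · rintro ⟨g, hg⟩
      obtain ⟨g', hg'⟩ := descend h ξ hg
      exact ⟨g', hg'⟩
  have heq : Ideal.span {(map (algebraMap k D) (Ω - C ξ) : MvPolynomial (Fin 3) D)} =
      (Ideal.span {(map (algebraMap k (FractionRing D)) (Ω - C ξ) :
          MvPolynomial (Fin 3) (FractionRing D))}).comap
        (map (algebraMap D (FractionRing D))) := by
    ext f; rw [Ideal.mem_comap]; exact key f
  rw [heq]
  have := (Ideal.span_singleton_prime hpr.ne_zero).2 hpr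
  exact Ideal.comap_isPrime _ _

/-- Top components of multiples of `Ω - ξ`. -/
theorem IsPot.top_mem {Ω : MvPolynomial (Fin 3) k} {d : ℕ} (h : IsPot Ω d) (ξ : k)
    {G : MvPolynomial (Fin 3) D}
    (hG : G ∈ Ideal.span {(map (algebraMap k D) (Ω - C ξ) : MvPolynomial (Fin 3) D)})
    {m : ℕ} {c : MvPolynomial (Fin 3) D} (ht : Tp (fun _ => 1) G m c) :
    c ∈ Ideal.span {(map (algebraMap k D) Ω : MvPolynomial (Fin 3) D)} ∧
      (m < d → G = 0) := by
  classical
  obtain ⟨g, rfl⟩ := Ideal.mem_span_singleton'.1 hG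
  have hd := h.two
  by_cases hg : g = 0
  · subst hg
    rw [zero_mul] at ht ⊢
    refine ⟨?_, fun _ => rfl⟩
    rw [← ht.2, map_zero, Polynomial.coeff_zero]; exact Ideal.zero_mem _
  set ΩD : MvPolynomial (Fin 3) D := map (algebraMap k D) Ω with hΩD
  have hΩ0 : ΩD ≠ 0 := by
    rw [hΩD]
    intro h0
    exact h.ne_zero (map_injective _ (algebraMap k D).injective (by rw [h0, map_zero]))
  have hhom : ΩD.IsHomogeneous d := homog_map h.hom
  have hth : th (fun _ => 1) (map (algebraMap k D) (Ω - C ξ)) =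
      Polynomial.monomial d ΩD - Polynomial.C (C (algebraMap k D ξ)) := by
    rw [map_sub, map_C, map_sub, ← hΩD, th_homog hhom, th_C]
  have hdeg : (th (fun _ => 1) (map (algebraMap k D) (Ω - C ξ))).natDegree = d := by
    rw [hth, Polynomial.natDegree_sub_C, Polynomial.natDegree_monomial, if_neg hΩ0]
  have hlead : (th (fun _ => 1) (map (algebraMap k D) (Ω - C ξ))).leadingCoeff = ΩD := by
    rw [Polynomial.leadingCoeff, hdeg, hth, Polynomial.coeff_sub, Polynomial.coeff_monomial,
      if_pos rfl, Polynomial.coeff_C, if_neg (by omega), sub_zero]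
  have hne : (map (algebraMap k D) (Ω - C ξ)) ≠ 0 := by
    intro h0
    rw [h0, map_zero, Polynomial.natDegree_zero] at hdeg
    omega
  have hN : (th (fun _ => 1) (g * map (algebraMap k D) (Ω - C ξ))).natDegree =
      (th (fun _ => 1) g).natDegree + d := by
    rw [map_mul, Polynomial.natDegree_mul (th_ne_zero _ hg) (th_ne_zero _ hne), hdeg]
  have hL : (th (fun _ => 1) (g * map (algebraMap k D) (Ω - C ξ))).leadingCoeff =
      (th (fun _ => 1) g).leadingCoeff * ΩD := by
    rw [map_mul, Polynomial.leadingCoeff_mul, hlead]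
  have hle : (th (fun _ => 1) g).natDegree + d ≤ m := by rw [← hN]; exact ht.1
  refine ⟨?_, fun hmd => ?_⟩
  · rcases hle.eq_or_lt with heq | hlt
    · rw [← ht.2, ← heq, ← hN]
      change Polynomial.leadingCoeff _ ∈ _
      rw [hL]
      exact Ideal.mul_mem_left _ _ (Ideal.mem_span_singleton_self _)
    · rw [← ht.2, Polynomial.coeff_eq_zero_of_natDegree_lt (by rw [hN]; exact hlt)]
      exact Ideal.zero_mem _
  · omega

/-- The partial derivatives are linearly independent over any domain. -/
theorem IsPot.indep {Ω : MvPolynomial (Fin 3) k} {d : ℕ} (h : IsPot Ω d)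
    (r : Fin 3 → D) (hr : ∑ c, C (r c) * map (algebraMap k D) (pderiv c Ω) = 0) : r = 0 := by
  classical
  by_contra hne
  obtain ⟨c0, hc0⟩ : ∃ c, r c ≠ 0 := by
    by_contra hcon; push Not at hcon; exact hne (funext hcon)
  obtain ⟨l, hl⟩ := exists_fun_ne (k := k) hc0
  have hd := h.two
  have h1 : ∑ c, C (l (r c)) * pderiv c Ω = 0 := by
    have h2 := congrArg (lam l) hr
    rw [lam_zero] at h2
    rw [← h2, Fin.sum_univ_three, Fin.sum_univ_three, lam_add, lam_add]
    simp only [mul_comm (C (r _)) _, lam_mul_map, lam_C]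
    ring
  have hcc : ∀ c, constantCoeff (pderiv c Ω) = 0 := fun c =>
    constantCoeff_of_pos (n := d - 1) (by omega) (th_homog (homog_pderiv h.hom c))
  -- the partial number `c0` is a combination of the two others
  have hcomb : ∀ a b : Fin 3, a ≠ c0 → b ≠ c0 → a ≠ b → False := by
    intro a b ha hb hab
    have huniv : (Finset.univ : Finset (Fin 3)) = {c0, a, b} := by
      revert ha hb hab; revert c0 a b; 
      intro c0 hc0 hl a b ha hb hab
      clear hc0 hl
      revert c0 a b; decide
    have h3 : C (l (r c0)) * pderiv c0 Ω = -(C (l (r a)) * pderiv a Ω + C (l (r b)) * pderiv b Ω) := by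
      rw [huniv, Finset.sum_insert (by simp [Ne.symm ha, Ne.symm hb]),
        Finset.sum_insert (by simp [hab]), Finset.sum_singleton] at h1
      linear_combination h1
    have hmem : ∀ c, pderiv c Ω ∈ Ideal.span {pderiv a Ω, pderiv b Ω} := by
      intro c
      have hc : c ∈ ({c0, a, b} : Finset (Fin 3)) := by rw [← huniv]; exact Finset.mem_univ _
      simp only [Finset.mem_insert, Finset.mem_singleton] at hc
      rcases hc with rfl | rfl | rfl
      · have h4 : pderiv c Ω = C (l (r c))⁻¹ * (C (l (r c)) * pderiv c Ω) := by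
          rw [← mul_assoc, ← C_mul, inv_mul_cancel₀ hl, C_1, one_mul]
        rw [h4, h3]
        refine Ideal.mul_mem_left _ _ (neg_mem (Ideal.add_mem _ ?_ ?_))
        · exact Ideal.mul_mem_left _ _ (Ideal.subset_span (by simp))
        · exact Ideal.mul_mem_left _ _ (Ideal.subset_span (by simp))
      · exact Ideal.subset_span (by simp)
      · exact Ideal.subset_span (by simp)
    refine h.no_two (K := k) (pderiv a Ω) (pderiv b Ω) (hcc a) (hcc b) (fun c => ?_)
    simpa [MvPolynomial.map_id] using hmem c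
  have : ∃ a b : Fin 3, a ≠ c0 ∧ b ≠ c0 ∧ a ≠ b := by
    clear hcomb hl hc0; revert c0; decide
  obtain ⟨a, b, ha, hb, hab⟩ := this
  exact hcomb a b ha hb hab

end PrimeD

end H658PD
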