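import Pool.Agent.H658.PD.Alg1

namespace H658PD

open MvPolynomial

section Blocks

variable {k : Type*} [Field k] {n : ℕ}

/-- A polynomial in three variables, written in the variables of block `j`. -/
noncomputable def emb (j : Fin n) :
    MvPolynomial (Fin 3) k →ₐ[k] MvPolynomial (Fin n × Fin 3) k :=
  rename (fun a => (j, a))

theorem emb_X (j : Fin n) (a : Fin 3) : emb j (X a : MvPolynomial (Fin 3) k) = X (j, a) := by
  rw [emb, rename_X]

theorem emb_C (j : Fin n) (r : k) : emb j (C r : MvPolynomial (Fin 3) k) = C r := by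
  rw [emb, rename_C]

theorem emb_eq_aeval (j : Fin n) (f : MvPolynomial (Fin 3) k) :
    emb j f = aeval (fun a => (X (j, a) : MvPolynomial (Fin n × Fin 3) k)) f := by
  have : (emb j : MvPolynomial (Fin 3) k →ₐ[k] MvPolynomial (Fin n × Fin 3) k) =
      aeval (fun a => (X (j, a) : MvPolynomial (Fin n × Fin 3) k)) :=
    algHom_ext (fun a => by rw [emb_X, aeval_X])
  rw [this]

variable (Ω : Fin n → MvPolynomial (Fin 3) k) (ξ : Fin n → k)

/-- The ideal generated by the relations of the blocks in `S`. -/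
noncomputable def IS (S : Finset (Fin n)) : Ideal (MvPolynomial (Fin n × Fin 3) k) :=
  Ideal.span ((fun l => emb l (Ω l - C (ξ l))) '' (S : Set (Fin n)))

/-- The ideal of all relations, with the constant of block `j` replaced by `x`. -/
noncomputable def IJ (j : Fin n) (x : k) : Ideal (MvPolynomial (Fin n × Fin 3) k) :=
  IS Ω ξ (Finset.univ.erase j) ⊔ Ideal.span {emb j (Ω j - C x)}

theorem IS_insert (S : Finset (Fin n)) (j : Fin n) :
    IS Ω ξ (insert j S) = IS Ω ξ S ⊔ Ideal.span {emb j (Ω j - C (ξ j))} := by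
  rw [IS, IS, Finset.coe_insert, Set.image_insert_eq, Ideal.span_insert, sup_comm]

theorem IJ_self (j : Fin n) : IJ Ω ξ j (ξ j) = IS Ω ξ Finset.univ := by
  rw [IJ, ← IS_insert, Finset.insert_erase (Finset.mem_univ j)]

/-- Splitting off block `j` as a polynomial ring over the quotient by `q`. -/
noncomputable def tau (q : Ideal (MvPolynomial (Fin n × Fin 3) k)) (j : Fin n) :
    MvPolynomial (Fin n × Fin 3) k →ₐ[k]
      MvPolynomial (Fin 3) (MvPolynomial (Fin n × Fin 3) k ⧸ q) :=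
  aeval (fun p => if p.1 = j then X p.2 else C (Ideal.Quotient.mk q (X p)))

variable (q : Ideal (MvPolynomial (Fin n × Fin 3) k)) (j : Fin n)

theorem tau_X_self (a : Fin 3) : tau q j (X (j, a)) = X a := by
  rw [tau, aeval_X]; simp

theorem tau_X_ne {l : Fin n} (h : l ≠ j) (a : Fin 3) :
    tau q j (X (l, a)) = C (Ideal.Quotient.mk q (X (l, a))) := by
  rw [tau, aeval_X]; simp [h]

theorem tau_C (r : k) : tau q j (C r) = C (algebraMap k _ r) := by
  rw [tau, aeval_C]; rfl

theorem tau_emb_self (f : MvPolynomial (Fin 3) k) :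
    tau q j (emb j f) = map (algebraMap k _) f := by
  induction f using MvPolynomial.induction_on with
  | C a => rw [emb_C, tau_C, map_C]
  | add p q hp hq => rw [map_add, map_add, hp, hq, map_add]
  | mul_X p s hp => rw [map_mul, map_mul, hp, emb_X, tau_X_self, map_mul, map_X]

theorem tau_emb_ne {l : Fin n} (h : l ≠ j) (f : MvPolynomial (Fin 3) k) :
    tau q j (emb l f) = C (Ideal.Quotient.mk q (emb l f)) := by
  induction f using MvPolynomial.induction_on with
  | C a => rw [emb_C, tau_C]; rfl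
  | add p q hp hq => rw [map_add, map_add, hp, hq, map_add, map_add]
  | mul_X p s hp => rw [map_mul, map_mul, hp, emb_X, tau_X_ne _ _ h, map_mul, map_mul]

theorem ev_tau (f : MvPolynomial (Fin n × Fin 3) k) :
    eval (fun a => Ideal.Quotient.mk q (X (j, a))) (tau q j f) = Ideal.Quotient.mk q f := by
  induction f using MvPolynomial.induction_on with
  | C a => rw [tau_C, eval_C]; rfl
  | add p q hp hq => rw [map_add, map_add, hp, hq, map_add]
  | mul_X p s hp =>
    rw [map_mul, map_mul, hp, map_mul]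
    congr 1
    obtain ⟨l, a⟩ := s
    by_cases h : l = j
    · subst h; rw [tau_X_self, eval_X]
    · rw [tau_X_ne _ _ h, eval_C]

theorem tau_ker {S : Finset (Fin n)} (hj : j ∉ S) (f : MvPolynomial (Fin n × Fin 3) k) :
    tau (IS Ω ξ S) j f = 0 ↔ f ∈ IS Ω ξ S := by
  constructor
  · intro h
    have := ev_tau (IS Ω ξ S) j f
    rw [h, map_zero] at this
    exact Ideal.Quotient.eq_zero_iff_mem.1 this.symm
  · intro h
    have h1 : IS Ω ξ S ≤ RingHom.ker (tau (IS Ω ξ S) j) := by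
      conv_lhs => rw [IS]
      rw [Ideal.span_le]
      rintro _ ⟨l, hl, rfl⟩
      have hlj : l ≠ j := by rintro rfl; exact hj hl
      change tau (IS Ω ξ S) j (emb l (Ω l - C (ξ l))) = 0
      rw [tau_emb_ne _ _ hlj, Ideal.Quotient.eq_zero_iff_mem.2, C_0]
      exact Ideal.subset_span ⟨l, hl, rfl⟩
    exact h1 h

theorem mem_sup_iff {S : Finset (Fin n)} (hj : j ∉ S) (x : k)
    (f : MvPolynomial (Fin n × Fin 3) k) :
    f ∈ IS Ω ξ S ⊔ Ideal.span {emb j (Ω j - C x)} ↔
      tau (IS Ω ξ S) j f ∈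
        Ideal.span {(map (algebraMap k (MvPolynomial (Fin n × Fin 3) k ⧸ IS Ω ξ S))
          (Ω j - C x) : MvPolynomial (Fin 3) _)} := by
  constructor
  · intro h
    obtain ⟨a, ha, b, hb, rfl⟩ := Submodule.mem_sup.1 h
    obtain ⟨g, rfl⟩ := Ideal.mem_span_singleton'.1 hb
    rw [map_add, (tau_ker Ω ξ j hj a).2 ha, zero_add, map_mul, tau_emb_self]
    exact Ideal.mul_mem_left _ _ (Ideal.mem_span_singleton_self _)
  · intro h
    obtain ⟨g, hg⟩ := Ideal.mem_span_singleton'.1 h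
    obtain ⟨g', hg'⟩ := Ideal.Quotient.mk_surjective
      (eval (fun a => Ideal.Quotient.mk (IS Ω ξ S) (X (j, a))) g)
    have h1 := ev_tau (IS Ω ξ S) j f
    have h2 := ev_tau (IS Ω ξ S) j (emb j (Ω j - C x))
    rw [tau_emb_self] at h2
    rw [← hg, map_mul, h2, ← hg', ← map_mul, eq_comm, Ideal.Quotient.mk_eq_mk_iff_sub_mem] at h1
    have h3 : f = (f - g' * emb j (Ω j - C x)) + g' * emb j (Ω j - C x) := by ring
    rw [h3]
    exact Submodule.add_mem_sup h1 (Ideal.mul_mem_left _ _ (Ideal.mem_span_singleton_self _))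

variable {Ω} {d : Fin n → ℕ}

theorem prime_sup (hΩ : ∀ l, IsPot (Ω l) (d l)) {S : Finset (Fin n)} (hj : j ∉ S) (x : k)
    (hS : (IS Ω ξ S).IsPrime) :
    (IS Ω ξ S ⊔ Ideal.span {emb j (Ω j - C x)}).IsPrime := by
  have hdom : IsDomain (MvPolynomial (Fin n × Fin 3) k ⧸ IS Ω ξ S) :=
    Ideal.Quotient.isDomain _
  have heq : IS Ω ξ S ⊔ Ideal.span {emb j (Ω j - C x)} =
      (Ideal.span {(map (algebraMap k (MvPolynomial (Fin n × Fin 3) k ⧸ IS Ω ξ S))
          (Ω j - C x) : MvPolynomial (Fin 3) _)}).comap (tau (IS Ω ξ S) j) := by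
    ext f
    rw [Ideal.mem_comap]
    exact mem_sup_iff Ω ξ j hj x f
  rw [heq]
  have := (hΩ j).prime (D := MvPolynomial (Fin n × Fin 3) k ⧸ IS Ω ξ S) x
  exact Ideal.comap_isPrime _ _

theorem prime_IS (hΩ : ∀ l, IsPot (Ω l) (d l)) (S : Finset (Fin n)) : (IS Ω ξ S).IsPrime := by
  classical
  induction S using Finset.induction_on with
  | empty =>
    have : IS Ω ξ ∅ = ⊥ := by rw [IS]; simp
    rw [this]
    exact Ideal.isPrime_bot
  | insert j S hj ih =>
    rw [IS_insert]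
    exact prime_sup ξ j hΩ hj (ξ j) ih

theorem prime_IJ (hΩ : ∀ l, IsPot (Ω l) (d l)) (x : k) : (IJ Ω ξ j x).IsPrime :=
  prime_sup ξ j hΩ (Finset.notMem_erase _ _) x (prime_IS ξ hΩ _)

/-- The weight counting the variables of block `j`. -/
def wt (j : Fin n) : Fin n × Fin 3 → ℕ := fun p => if p.1 = j then 1 else 0

theorem wt_self (a : Fin 3) : wt j (j, a) = 1 := by simp [wt]

theorem wt_ne {l : Fin n} (h : l ≠ j) (a : Fin 3) : wt j (l, a) = 0 := by simp [wt, h]

theorem th_tau (f : MvPolynomial (Fin n × Fin 3) k) :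
    th (fun _ => 1) (tau q j f) = Polynomial.map
      ((tau q j : _ →ₐ[k] _) : MvPolynomial (Fin n × Fin 3) k →+*
        MvPolynomial (Fin 3) (MvPolynomial (Fin n × Fin 3) k ⧸ q)) (th (wt j) f) := by
  refine th_comp_hom (wt j) (fun _ => 1) (tau q j) ?_ ?_ f
  · intro r; rw [tau_C, th_C]
  · rintro ⟨l, a⟩
    by_cases h : l = j
    · subst h; rw [tau_X_self, th_X, wt_self]
    · rw [tau_X_ne _ _ h, th_C, wt_ne _ h, pow_zero, mul_one]

theorem Tp.tau {f c : MvPolynomial (Fin n × Fin 3) k} {m : ℕ} (h : Tp (wt j) f m c) :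
    Tp (fun _ => 1) (tau q j f) m (tau q j c) := by
  refine ⟨?_, ?_⟩
  · rw [th_tau]
    exact Polynomial.natDegree_map_le.trans h.1
  · rw [th_tau, Polynomial.coeff_map, h.2]; rfl

theorem Tp.emb_self {F : MvPolynomial (Fin 3) k} {m : ℕ} (h : F.IsHomogeneous m) :
    Tp (wt j) (emb j F) m (emb j F) := by
  rw [emb_eq_aeval]
  have := Tp.aeval (w := wt j) (Y := fun a => (X (j, a) : MvPolynomial (Fin n × Fin 3) k))
    (c := fun a => X (j, a)) (q := 1) (fun a => (Tp.var (w := wt j) (j, a)).congr (wt_self j a) rfl) h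
  rwa [one_mul] at this

theorem th_emb_self {F : MvPolynomial (Fin 3) k} {m : ℕ} (h : F.IsHomogeneous m) :
    th (wt j) (emb j F) = Polynomial.monomial m (emb j F) := by
  have h1 := (Tp.emb_self j h).2
  have h2 := th_coeff_coeff (wt j) (emb j F) m
  rwa [h1] at h2

theorem th_emb_ne {l : Fin n} (h : l ≠ j) (F : MvPolynomial (Fin 3) k) :
    th (wt j) (emb l F) = Polynomial.C (emb l F) := by
  induction F using MvPolynomial.induction_on with
  | C a => rw [emb_C, th_C]
  | add p q hp hq => rw [map_add, map_add, hp, hq, map_add]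
  | mul_X p s hp =>
    rw [map_mul, map_mul, hp, emb_X, th_X, wt_ne _ h, pow_zero, mul_one, map_mul]

theorem IS_coeff {S : Finset (Fin n)} (hj : j ∉ S) {f : MvPolynomial (Fin n × Fin 3) k}
    (hf : f ∈ IS Ω ξ S) (m : ℕ) : (th (wt j) f).coeff m ∈ IS Ω ξ S := by
  rw [IS] at hf ⊢
  refine span_coeff (wt j) ?_ hf m
  rintro _ ⟨l, hl, rfl⟩ m
  have hlj : l ≠ j := by rintro rfl; exact hj hl
  simp only
  rw [th_emb_ne _ hlj, Polynomial.coeff_C]
  split_ifs
  · exact Ideal.subset_span ⟨l, hl, rfl⟩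
  · exact Ideal.zero_mem _

/-- Lemma T: leading components of elements of the ideal. -/
theorem top_IJ (hΩ : ∀ l, IsPot (Ω l) (d l)) {x : k} {G c : MvPolynomial (Fin n × Fin 3) k}
    (hG : G ∈ IJ Ω ξ j x) {m : ℕ} (ht : Tp (wt j) G m c) : c ∈ IJ Ω ξ j 0 := by
  have := prime_IS ξ hΩ (Finset.univ.erase j)
  have hdom : IsDomain (MvPolynomial (Fin n × Fin 3) k ⧸ IS Ω ξ (Finset.univ.erase j)) :=
    Ideal.Quotient.isDomain _
  have h1 := (mem_sup_iff Ω ξ j (Finset.notMem_erase _ _) x G).1 hG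
  have h2 := ((hΩ j).top_mem x h1 (ht.tau (IS Ω ξ (Finset.univ.erase j)) j)).1
  refine (mem_sup_iff Ω ξ j (Finset.notMem_erase _ _) 0 c).2 ?_
  rwa [C_0, sub_zero]

/-- Lemma S: elements of the ideal of small degree in block `j`. -/
theorem low_IJ (hΩ : ∀ l, IsPot (Ω l) (d l)) {x : k} {G : MvPolynomial (Fin n × Fin 3) k}
    (hG : G ∈ IJ Ω ξ j x) {m : ℕ} (ht : (th (wt j) G).natDegree ≤ m) (hm : m < d j) :
    G ∈ IS Ω ξ (Finset.univ.erase j) := by
  have := prime_IS ξ hΩ (Finset.univ.erase j)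
  have hdom : IsDomain (MvPolynomial (Fin n × Fin 3) k ⧸ IS Ω ξ (Finset.univ.erase j)) :=
    Ideal.Quotient.isDomain _
  have h1 := (mem_sup_iff Ω ξ j (Finset.notMem_erase _ _) x G).1 hG
  have h2 := ((hΩ j).top_mem x h1
    ((Tp.self (wt j) G m ht).tau (IS Ω ξ (Finset.univ.erase j)) j)).2 hm
  exact (tau_ker Ω ξ j (Finset.notMem_erase _ _) G).1 h2

/-- Lemma R: reduction of the degree in block `j`. -/
theorem reduce_IJ (hΩ : ∀ l, IsPot (Ω l) (d l)) {f c : MvPolynomial (Fin n × Fin 3) k} {m : ℕ}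
    (ht : Tp (wt j) f (m + 1) c) (hc : c ∈ IJ Ω ξ j 0) :
    ∃ f', f - f' ∈ IS Ω ξ Finset.univ ∧ (th (wt j) f').natDegree ≤ m := by
  obtain ⟨a, ha, b, hb, hab⟩ := Submodule.mem_sup.1 hc
  obtain ⟨h, rfl⟩ := Ideal.mem_span_singleton'.1 hb
  rw [C_0, sub_zero] at hab
  have hd := (hΩ j).two
  set a' := (th (wt j) a).coeff (m + 1) with ha'
  have ha'q : a' ∈ IS Ω ξ (Finset.univ.erase j) := IS_coeff ξ j (Finset.notMem_erase _ _) ha _
  obtain ⟨h', hh', hdeg⟩ : ∃ h', (th (wt j) (h * emb j (Ω j))).coeff (m + 1) =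
      h' * emb j (Ω j) ∧ (th (wt j) h').natDegree ≤ m := by
    rw [map_mul, th_emb_self j (hΩ j).hom, ← Polynomial.C_mul_X_pow_eq_monomial, ← mul_assoc,
      Polynomial.coeff_mul_X_pow']
    split_ifs with hle
    · rw [Polynomial.coeff_mul_C]
      refine ⟨_, rfl, ?_⟩
      rw [th_coeff_coeff]
      exact (Polynomial.natDegree_monomial_le _).trans (by omega)
    · exact ⟨0, by rw [zero_mul], by simp⟩
  have hc2 : c = a' + h' * emb j (Ω j) := by
    rw [← ht.idem.2, ← hab, map_add, Polynomial.coeff_add, hh']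
  refine ⟨(f - c) + h' * C (ξ j), ?_, ?_⟩
  · have h1 : f - ((f - c) + h' * C (ξ j)) = a' + h' * emb j (Ω j - C (ξ j)) := by
      rw [map_sub, emb_C, hc2]; ring
    rw [h1, ← IJ_self Ω ξ j]
    exact Submodule.add_mem_sup ha'q (Ideal.mul_mem_left _ _ (Ideal.mem_span_singleton_self _))
  · have h2 : (th (wt j) (h' * C (ξ j))).natDegree ≤ m := by
      rw [map_mul, th_C]
      exact (Polynomial.natDegree_mul_C_le _ _).trans hdeg
    rw [map_add]
    exact Polynomial.natDegree_add_le_of_degree_le ht.sub_top h2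

end Blocks

end H658PD
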