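import Pool.Agent.H658.PD.Blocks

namespace H658PD

open MvPolynomial

section Bracket

variable {k : Type*} [Field k] {n : ℕ}

/-- The three by three determinant with rows `u`, `v`, `w`, written out. -/
def D3 {R : Type*} [CommRing R] (u v w : Fin 3 → R) : R :=
  u 0 * (v 1 * w 2 - v 2 * w 1) - u 1 * (v 0 * w 2 - v 2 * w 0) + u 2 * (v 0 * w 1 - v 1 * w 0)

theorem Tp.D3 {σ R : Type*} [CommRing R] {w : σ → ℕ} {u v z u' v' z' : Fin 3 → MvPolynomial σ R}
    {p q r : ℕ} (hu : ∀ a, Tp w (u a) p (u' a)) (hv : ∀ a, Tp w (v a) q (v' a))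
    (hz : ∀ a, Tp w (z a) r (z' a)) : Tp w (D3 u v z) (p + (q + r)) (D3 u' v' z') :=
  (((hu 0).mul (((hv 1).mul (hz 2)).sub ((hv 2).mul (hz 1)))).sub
    ((hu 1).mul (((hv 0).mul (hz 2)).sub ((hv 2).mul (hz 0))))).add
    ((hu 2).mul (((hv 0).mul (hz 1)).sub ((hv 1).mul (hz 0))))

theorem D3_zero_left {R : Type*} [CommRing R] (v w : Fin 3 → R) : D3 0 v w = 0 := by
  simp [H658PD.D3]

/-- The gradient with respect to block `j`. -/
noncomputable def grad (j : Fin n) (f : MvPolynomial (Fin n × Fin 3) k) :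
    Fin 3 → MvPolynomial (Fin n × Fin 3) k := fun a => pderiv (j, a) f

theorem pderiv_emb_self (j : Fin n) (a : Fin 3) (F : MvPolynomial (Fin 3) k) :
    pderiv (j, a) (emb j F) = emb j (pderiv a F) :=
  pderiv_rename (f := fun a => (j, a)) (fun _ _ h => (Prod.mk.inj h).2) a F

theorem pderiv_emb_ne {j l : Fin n} (h : l ≠ j) (a : Fin 3) (F : MvPolynomial (Fin 3) k) :
    pderiv (j, a) (emb l F) = 0 := by
  induction F using MvPolynomial.induction_on with
  | C a => rw [emb_C, pderiv_C]
  | add p q hp hq => rw [map_add, map_add, hp, hq, add_zero]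
  | mul_X p s hp =>
    rw [map_mul, Derivation.leibniz, hp, emb_X, pderiv_X_of_ne, smul_zero, smul_zero, add_zero]
    intro h2; exact h (Prod.mk.inj h2).1

variable (Ω : Fin n → MvPolynomial (Fin 3) k)

/-- The contribution of block `j` to the bracket. -/
noncomputable def blk (j : Fin n) (f g : MvPolynomial (Fin n × Fin 3) k) :
    MvPolynomial (Fin n × Fin 3) k :=
  Matrix.det (Matrix.of ![grad j f, grad j g, grad j (emb j (Ω j))])

/-- The bracket: the sum of the contributions of all blocks. -/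
noncomputable def br (f g : MvPolynomial (Fin n × Fin 3) k) : MvPolynomial (Fin n × Fin 3) k :=
  ∑ j, blk Ω j f g

variable (j : Fin n)

/-- the partials of the potential, in block `j` -/
noncomputable def dΩ : Fin 3 → MvPolynomial (Fin n × Fin 3) k := fun a => emb j (pderiv a (Ω j))

theorem blk_eq (f g : MvPolynomial (Fin n × Fin 3) k) :
    blk Ω j f g = D3 (grad j f) (grad j g) (dΩ Ω j) := by
  have h : grad j (emb j (Ω j)) = dΩ Ω j := by
    ext1 a; exact pderiv_emb_self j a (Ω j)
  rw [blk, h, Matrix.det_fin_three, H658PD.D3]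
  simp only [Matrix.of_apply, Matrix.cons_val_zero, Matrix.cons_val_one, Matrix.cons_val]
  ring

theorem grad_add (f g : MvPolynomial (Fin n × Fin 3) k) :
    grad j (f + g) = fun a => grad j f a + grad j g a := by
  ext1 a; exact map_add _ _ _

theorem grad_sub (f g : MvPolynomial (Fin n × Fin 3) k) :
    grad j (f - g) = fun a => grad j f a - grad j g a := by
  ext1 a; exact map_sub _ _ _

theorem grad_mul (f g : MvPolynomial (Fin n × Fin 3) k) :
    grad j (f * g) = fun a => f * grad j g a + g * grad j f a := by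
  ext1 a; simp only [grad]; rw [Derivation.leibniz, smul_eq_mul, smul_eq_mul]

theorem blk_add_left (f f' g : MvPolynomial (Fin n × Fin 3) k) :
    blk Ω j (f + f') g = blk Ω j f g + blk Ω j f' g := by
  rw [blk_eq, blk_eq, blk_eq, grad_add]; simp only [H658PD.D3]; ring

theorem blk_sub_left (f f' g : MvPolynomial (Fin n × Fin 3) k) :
    blk Ω j (f - f') g = blk Ω j f g - blk Ω j f' g := by
  rw [blk_eq, blk_eq, blk_eq, grad_sub]; simp only [H658PD.D3]; ring

theorem blk_mul_left (f f' g : MvPolynomial (Fin n × Fin 3) k) :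
    blk Ω j (f * f') g = f * blk Ω j f' g + f' * blk Ω j f g := by
  rw [blk_eq, blk_eq, blk_eq, grad_mul]; simp only [H658PD.D3]; ring

theorem blk_swap (f g : MvPolynomial (Fin n × Fin 3) k) :
    blk Ω j f g = - blk Ω j g f := by
  rw [blk_eq, blk_eq]; simp only [H658PD.D3]; ring

theorem blk_of_grad_zero {f : MvPolynomial (Fin n × Fin 3) k} (h : ∀ a, pderiv (j, a) f = 0)
    (g : MvPolynomial (Fin n × Fin 3) k) : blk Ω j f g = 0 := by
  rw [blk_eq]
  have : grad j f = 0 := by ext1 a; exact h a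
  rw [this, D3_zero_left]

variable {Ω} (ξ : Fin n → k)

theorem blk_gen (l : Fin n) (x : k) (g : MvPolynomial (Fin n × Fin 3) k) :
    blk Ω j (emb l (Ω l - C x)) g = 0 := by
  by_cases h : l = j
  · subst h
    have h1 : grad l (emb l (Ω l - C x)) = dΩ Ω l := by
      ext1 a
      simp only [grad, dΩ]
      rw [map_sub, emb_C, map_sub, pderiv_C, sub_zero]
      exact pderiv_emb_self l a (Ω l)
    rw [blk_eq, h1]; simp only [H658PD.D3]; ring
  · exact blk_of_grad_zero Ω j (fun a => pderiv_emb_ne h a _) g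

theorem blk_mem {f : MvPolynomial (Fin n × Fin 3) k} (hf : f ∈ IS Ω ξ Finset.univ)
    (g : MvPolynomial (Fin n × Fin 3) k) : blk Ω j f g ∈ IS Ω ξ Finset.univ := by
  have hf' := hf
  rw [IS] at hf'
  refine Submodule.span_induction (p := fun f _ => blk Ω j f g ∈ IS Ω ξ Finset.univ)
    ?_ ?_ ?_ ?_ hf'
  · rintro _ ⟨l, hl, rfl⟩
    simp only
    rw [blk_gen]; exact Ideal.zero_mem _
  · rw [blk_of_grad_zero Ω j (fun a => map_zero _)]; exact Ideal.zero_mem _
  · intro x y _ _ hx hy
    rw [blk_add_left]; exact Ideal.add_mem _ hx hy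
  · intro a x hx hx2
    rw [smul_eq_mul, blk_mul_left]
    exact Ideal.add_mem _ (Ideal.mul_mem_left _ _ hx2) (Ideal.mul_mem_right _ _ hx)

theorem blk_mem_right {f : MvPolynomial (Fin n × Fin 3) k} (hf : f ∈ IS Ω ξ Finset.univ)
    (g : MvPolynomial (Fin n × Fin 3) k) : blk Ω j g f ∈ IS Ω ξ Finset.univ := by
  rw [blk_swap]; exact neg_mem (blk_mem j ξ hf g)

theorem br_sub_mem {f f' : MvPolynomial (Fin n × Fin 3) k} (hf : f - f' ∈ IS Ω ξ Finset.univ)
    (g : MvPolynomial (Fin n × Fin 3) k) : br Ω f g - br Ω f' g ∈ IS Ω ξ Finset.univ := by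
  rw [br, br, ← Finset.sum_sub_distrib]
  refine Ideal.sum_mem _ (fun j _ => ?_)
  rw [← blk_sub_left]
  exact blk_mem j ξ hf g

theorem br_swap (f g : MvPolynomial (Fin n × Fin 3) k) : br Ω f g = - br Ω g f := by
  rw [br, br, ← Finset.sum_neg_distrib]
  exact Finset.sum_congr rfl (fun j _ => blk_swap Ω j f g)

theorem br_sub_mem_right {g g' : MvPolynomial (Fin n × Fin 3) k}
    (hg : g - g' ∈ IS Ω ξ Finset.univ)
    (f : MvPolynomial (Fin n × Fin 3) k) : br Ω f g - br Ω f g' ∈ IS Ω ξ Finset.univ := by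
  have h := neg_mem (br_sub_mem ξ hg f)
  have h2 : br Ω f g - br Ω f g' = -(br Ω g f - br Ω g' f) := by
    rw [br_swap f g, br_swap f g']; ring
  rw [h2]; exact h

theorem br_mem {f : MvPolynomial (Fin n × Fin 3) k} (hf : f ∈ IS Ω ξ Finset.univ)
    (g : MvPolynomial (Fin n × Fin 3) k) : br Ω f g ∈ IS Ω ξ Finset.univ := by
  rw [br]; exact Ideal.sum_mem _ (fun j _ => blk_mem j ξ hf g)

/-- the bracket of two variables of the same block -/
theorem br_X_X (i : Fin n) (c : Fin 3) :
    br Ω (X (i, c + 1)) (X (i, c + 2)) = emb i (pderiv c (Ω i)) := by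
  classical
  rw [br, Finset.sum_eq_single i]
  · rw [blk_eq, H658PD.D3]
    fin_cases c <;>
      simp [grad, dΩ, pderiv_X]
  · intro l _ hl
    refine blk_of_grad_zero Ω l (fun a => ?_) _
    refine pderiv_X_of_ne (fun h => hl ?_)
    exact (Prod.mk.inj h).1.symm
  · intro h; exact absurd (Finset.mem_univ _) h

theorem br_X_ne {i i' : Fin n} (h : i ≠ i') (a b : Fin 3) :
    br Ω (X (i, a)) (X (i', b)) = 0 := by
  rw [br]
  refine Finset.sum_eq_zero (fun l _ => ?_)
  by_cases hl : l = i
  · subst hl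
    rw [blk_swap, blk_of_grad_zero Ω l (fun a => ?_), neg_zero]
    exact pderiv_X_of_ne (fun h2 => h (Prod.mk.inj h2).1.symm)
  · refine blk_of_grad_zero Ω l (fun a => ?_) _
    exact pderiv_X_of_ne (fun h2 => hl (Prod.mk.inj h2).1.symm)

variable {d : Fin n → ℕ}

/-- Top component of the bracket for the weight of block `j`. -/
theorem Tp.br (hΩ : ∀ l, IsPot (Ω l) (d l)) {f g c e : MvPolynomial (Fin n × Fin 3) k}
    {p q : ℕ} (hf : Tp (wt j) f (p + 1) c) (hg : Tp (wt j) g (q + 1) e) :
    Tp (wt j) (br Ω f g) (p + (q + (d j - 1))) (blk Ω j c e) := by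
  classical
  have h1 : Tp (wt j) (blk Ω j f g) (p + (q + (d j - 1))) (blk Ω j c e) := by
    rw [blk_eq, blk_eq]
    exact Tp.D3 (fun a => hf.pderiv_in _ (wt_self j a)) (fun a => hg.pderiv_in _ (wt_self j a))
      (fun a => Tp.emb_self j (homog_pderiv (hΩ j).hom a))
  have h2 : ∀ l, l ≠ j → Tp (wt j) (blk Ω l f g) (p + (q + (d j - 1))) 0 := by
    intro l hl
    have h3 : Tp (wt j) (blk Ω l f g) ((p + 1) + ((q + 1) + 0)) (blk Ω l c e) := by
      rw [blk_eq, blk_eq]
      refine Tp.D3 (fun a => hf.pderiv_out _ (wt_ne j hl a))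
        (fun a => hg.pderiv_out _ (wt_ne j hl a)) (fun a => ?_)
      refine ⟨?_, ?_⟩
      · rw [dΩ, th_emb_ne _ hl]; simp
      · rw [dΩ, th_emb_ne _ hl]; simp
    have hd := (hΩ j).two
    exact h3.lt (by omega)
  have h4 : ∀ s : Finset (Fin n), j ∉ s →
      Tp (wt j) (∑ l ∈ s, blk Ω l f g) (p + (q + (d j - 1))) 0 := by
    intro s
    induction s using Finset.induction_on with
    | empty => intro _; simpa using Tp.zero
    | insert a s ha ih =>
      intro hs
      rw [Finset.sum_insert ha]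
      have := (h2 a (fun h => hs (h ▸ Finset.mem_insert_self _ _))).add
        (ih (fun h => hs (Finset.mem_insert_of_mem h)))
      rwa [add_zero] at this
  rw [H658PD.br, ← Finset.add_sum_erase _ _ (Finset.mem_univ j)]
  have := h1.add (h4 (Finset.univ.erase j) (Finset.notMem_erase j _))
  rwa [add_zero] at this

/-- Euler's formula in block `j`. -/
theorem euler_gen (f : MvPolynomial (Fin n × Fin 3) k) :
    (Polynomial.derivative (th (wt j) f)).eval 1 = ∑ a, X (j, a) * pderiv (j, a) f := by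
  classical
  induction f using MvPolynomial.induction_on with
  | C a => rw [th_C]; simp
  | add p q hp hq =>
    rw [map_add, Polynomial.derivative_add, Polynomial.eval_add, hp, hq, ← Finset.sum_add_distrib]
    exact Finset.sum_congr rfl (fun a _ => by rw [map_add, mul_add])
  | mul_X p s hp =>
    rw [map_mul, Polynomial.derivative_mul, Polynomial.eval_add, Polynomial.eval_mul,
      Polynomial.eval_mul, hp, eval_one_th, eval_one_th, th_X, Polynomial.derivative_C_mul,
      Polynomial.derivative_X_pow, Finset.sum_mul]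
    simp only [Polynomial.eval_mul, Polynomial.eval_C, Polynomial.eval_pow, Polynomial.eval_X,
      one_pow, mul_one, Derivation.leibniz, smul_eq_mul, mul_add, Finset.sum_add_distrib]
    obtain ⟨l, b⟩ := s
    by_cases h : l = j
    · subst h
      rw [wt_self]
      simp only [pderiv_X, Pi.single_apply, Prod.mk.injEq, true_and, mul_ite, mul_one, mul_zero,
        Finset.sum_ite_eq', Finset.mem_univ, if_true, Nat.cast_one, map_one]
      rw [add_comm]
      simp [mul_comm, mul_left_comm]
    · rw [wt_ne _ h]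
      simp only [pderiv_X, Pi.single_apply, Prod.mk.injEq, h, false_and, if_false]
      simp [mul_comm, mul_left_comm]

theorem euler {c : MvPolynomial (Fin n × Fin 3) k} {m : ℕ} (h : Tp (wt j) c m c) :
    ∑ a, X (j, a) * pderiv (j, a) c = (m : MvPolynomial (Fin n × Fin 3) k) * c := by
  have h2 := th_coeff_coeff (wt j) c m
  rw [h.2] at h2
  rw [← euler_gen, h2, Polynomial.derivative_monomial, Polynomial.eval_monomial]
  simp [mul_comm]

end Bracket

end H658PD
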