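import Mathlib

set_option autoImplicit false

/-!
Definitions for tensor products of the Poisson algebras `k[x, y, z] / (Ω - ξ)` attached to
homogeneous potentials `Ω`.
-/

namespace H658PD

open MvPolynomial

universe u

variable {k : Type u} [Field k]

/-- The gradient of a polynomial in three variables. -/
noncomputable def grad3 (f : MvPolynomial (Fin 3) k) : Fin 3 → MvPolynomial (Fin 3) k :=
  fun a => pderiv a f

/-- The bracket `{f, g} = det (∇f, ∇g, ∇Ω)` on `k[x, y, z]` (rows are gradients). -/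
noncomputable def jacBr (Ω f g : MvPolynomial (Fin 3) k) : MvPolynomial (Fin 3) k :=
  Matrix.det (Matrix.of ![grad3 f, grad3 g, grad3 Ω])

/-- The ideal generated by the three partial derivatives of `Ω`. -/
noncomputable def jacIdeal (Ω : MvPolynomial (Fin 3) k) : Ideal (MvPolynomial (Fin 3) k) :=
  Ideal.span (Set.range (grad3 Ω))

/-- The potential `Ω` has an isolated singularity: the quotient of `k[x, y, z]` by the ideal
generated by the three partial derivatives of `Ω` is finite-dimensional. -/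
def IsIS (Ω : MvPolynomial (Fin 3) k) : Prop :=
  Module.Finite k (MvPolynomial (Fin 3) k ⧸ jacIdeal Ω)

/-- The ideal generated by `Ω - ξ`. -/
noncomputable def relIdeal (Ω : MvPolynomial (Fin 3) k) (ξ : k) :
    Ideal (MvPolynomial (Fin 3) k) := Ideal.span {Ω - C ξ}

/-- The algebra `k[x, y, z] / (Ω - ξ)`. -/
def PQ (Ω : MvPolynomial (Fin 3) k) (ξ : k) : Type u :=
  MvPolynomial (Fin 3) k ⧸ relIdeal Ω ξ

noncomputable instance (Ω : MvPolynomial (Fin 3) k) (ξ : k) : CommRing (PQ Ω ξ) :=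
  Ideal.Quotient.commRing (relIdeal Ω ξ)

noncomputable instance (Ω : MvPolynomial (Fin 3) k) (ξ : k) : Algebra k (PQ Ω ξ) :=
  Ideal.Quotient.algebra k

/-- The class of a polynomial in `k[x, y, z] / (Ω - ξ)`. -/
noncomputable def pcl (Ω : MvPolynomial (Fin 3) k) (ξ : k) (f : MvPolynomial (Fin 3) k) :
    PQ Ω ξ := Ideal.Quotient.mk (relIdeal Ω ξ) f

theorem jacBr_eq (Ω f g : MvPolynomial (Fin 3) k) : jacBr Ω f g =
    pderiv 0 f * (pderiv 1 g * pderiv 2 Ω - pderiv 2 g * pderiv 1 Ω) -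
    pderiv 1 f * (pderiv 0 g * pderiv 2 Ω - pderiv 2 g * pderiv 0 Ω) +
    pderiv 2 f * (pderiv 0 g * pderiv 1 Ω - pderiv 1 g * pderiv 0 Ω) := by
  rw [jacBr, Matrix.det_fin_three]
  simp only [Matrix.of_apply, grad3, Matrix.cons_val_zero, Matrix.cons_val_one, Matrix.cons_val]
  ring

theorem jacBr_swap (Ω f g : MvPolynomial (Fin 3) k) : jacBr Ω f g = - jacBr Ω g f := by
  rw [jacBr_eq, jacBr_eq]; ring

theorem jacBr_sub_mem (Ω : MvPolynomial (Fin 3) k) (ξ : k) {f f' : MvPolynomial (Fin 3) k}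
    (h : f - f' ∈ relIdeal Ω ξ) (g : MvPolynomial (Fin 3) k) :
    jacBr Ω f g - jacBr Ω f' g ∈ relIdeal Ω ξ := by
  obtain ⟨a, ha⟩ := Ideal.mem_span_singleton'.1 h
  have hf : f = f' + a * (Ω - C ξ) := by rw [ha]; ring
  have hd : ∀ b, pderiv b f = pderiv b f' + (a * pderiv b Ω + (Ω - C ξ) * pderiv b a) := by
    intro b
    rw [hf, map_add, Derivation.leibniz, map_sub, pderiv_C, sub_zero, smul_eq_mul, smul_eq_mul]
  refine Ideal.mem_span_singleton'.2 ⟨jacBr Ω a g, ?_⟩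
  rw [jacBr_eq, jacBr_eq, jacBr_eq, hd 0, hd 1, hd 2]
  ring

theorem jacBr_wd (Ω : MvPolynomial (Fin 3) k) (ξ : k) {f f' g g' : MvPolynomial (Fin 3) k}
    (h : f - f' ∈ relIdeal Ω ξ) (h' : g - g' ∈ relIdeal Ω ξ) :
    pcl Ω ξ (jacBr Ω f g) = pcl Ω ξ (jacBr Ω f' g') := by
  refine (Ideal.Quotient.mk_eq_mk_iff_sub_mem _ _).2 ?_
  have h1 := jacBr_sub_mem Ω ξ h g
  have h2 := jacBr_sub_mem Ω ξ h' f'
  have h3 : jacBr Ω f g - jacBr Ω f' g' =
      (jacBr Ω f g - jacBr Ω f' g) - (jacBr Ω g f' - jacBr Ω g' f') := by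
    rw [jacBr_swap Ω g f', jacBr_swap Ω g' f']; ring
  rw [h3]
  exact Ideal.sub_mem _ h1 h2

/-- The bracket of `k[x, y, z] / (Ω - ξ)`: the class of `f` and the class of `g` go to the class
of `det (∇f, ∇g, ∇Ω)`. -/
noncomputable def pqBr (Ω : MvPolynomial (Fin 3) k) (ξ : k) (u v : PQ Ω ξ) : PQ Ω ξ :=
  Quotient.liftOn₂' u v (fun f g => pcl Ω ξ (jacBr Ω f g))
    (fun _ _ _ _ h h' => jacBr_wd Ω ξ ((Submodule.quotientRel_def _).1 h)
      ((Submodule.quotientRel_def _).1 h'))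

theorem pqBr_mk (Ω : MvPolynomial (Fin 3) k) (ξ : k) (f g : MvPolynomial (Fin 3) k) :
    pqBr Ω ξ (pcl Ω ξ f) (pcl Ω ξ g) = pcl Ω ξ (jacBr Ω f g) := rfl

variable {n : ℕ}

/-- The tensor product over `k` of the algebras `k[x, y, z] / (Ω i - ξ i)`, for `i : Fin n`. -/
def TP (Ω : Fin n → MvPolynomial (Fin 3) k) (ξ : Fin n → k) : Type u :=
  PiTensorProduct k (fun i => PQ (Ω i) (ξ i))

noncomputable instance (Ω : Fin n → MvPolynomial (Fin 3) k) (ξ : Fin n → k) :
    CommRing (TP Ω ξ) :=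
  PiTensorProduct.instCommRing

noncomputable instance (Ω : Fin n → MvPolynomial (Fin 3) k) (ξ : Fin n → k) :
    Algebra k (TP Ω ξ) :=
  PiTensorProduct.instAlgebra

/-- The pure tensor `a_1 ⊗ ... ⊗ a_n`. -/
noncomputable def pureT (Ω : Fin n → MvPolynomial (Fin 3) k) (ξ : Fin n → k)
    (a : (i : Fin n) → PQ (Ω i) (ξ i)) : TP Ω ξ :=
  PiTensorProduct.tprod k a

/-- `B` is the Poisson bracket of the tensor product: it is bilinear over `k`, and
`{a_1 ⊗ ... ⊗ a_n, b_1 ⊗ ... ⊗ b_n}` is the sum over `i` of the pure tensors with entry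
`{a_i, b_i}` at place `i` and `a_l * b_l` at every other place `l`. -/
structure IsTensorBracket (Ω : Fin n → MvPolynomial (Fin 3) k) (ξ : Fin n → k)
    (B : TP Ω ξ → TP Ω ξ → TP Ω ξ) : Prop where
  add_left : ∀ x x' y, B (x + x') y = B x y + B x' y
  add_right : ∀ x y y', B x (y + y') = B x y + B x y'
  smul_left : ∀ (c : k) (x y), B (c • x) y = c • B x y
  smul_right : ∀ (c : k) (x y), B x (c • y) = c • B x y
  pure_pure : ∀ a b : (i : Fin n) → PQ (Ω i) (ξ i),
    B (pureT Ω ξ a) (pureT Ω ξ b) =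
      ∑ i, pureT Ω ξ (Function.update (fun l => a l * b l) i (pqBr (Ω i) (ξ i) (a i) (b i)))

/-- The map `φ` preserves the bracket `B`. -/
def PreservesBr {T : Type*} (B : T → T → T) (φ : T → T) : Prop :=
  ∀ x y : T, φ (B x y) = B (φ x) (φ y)

end H658PD
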