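import Pool.Agent.H658.PD.Alg1

namespace H658PD

open MvPolynomial

section GroupA

variable {K : Type*} [Field K]

/-- Linear substitution. -/
noncomputable def act (g : Matrix (Fin 3) (Fin 3) K) :
    MvPolynomial (Fin 3) K →ₐ[K] MvPolynomial (Fin 3) K :=
  aeval (fun a => ∑ b, C (g a b) * X b)

theorem act_X (g : Matrix (Fin 3) (Fin 3) K) (a : Fin 3) :
    act g (X a) = ∑ b, C (g a b) * X b := by rw [act, aeval_X]

theorem act_C (g : Matrix (Fin 3) (Fin 3) K) (r : K) : act g (C r) = C r := by
  rw [act, aeval_C]; rfl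

theorem act_act (h h' : Matrix (Fin 3) (Fin 3) K) (F : MvPolynomial (Fin 3) K) :
    act h' (act h F) = act (h * h') F := by
  have : (act h').comp (act h) = act (h * h') := by
    apply algHom_ext
    intro a
    rw [AlgHom.comp_apply, act_X, act_X, map_sum]
    simp only [map_mul, act_C, act_X, Matrix.mul_apply, map_sum, Finset.mul_sum, Finset.sum_mul]
    rw [Finset.sum_comm]
    exact Finset.sum_congr rfl (fun b _ => Finset.sum_congr rfl (fun c _ => by ring))
  rw [← this, AlgHom.comp_apply]

theorem act_one (F : MvPolynomial (Fin 3) K) : act (1 : Matrix (Fin 3) (Fin 3) K) F = F := by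
  have : act (1 : Matrix (Fin 3) (Fin 3) K) = AlgHom.id K _ := by
    apply algHom_ext
    intro a
    rw [act_X, AlgHom.id_apply]
    simp [Matrix.one_apply]
  rw [this, AlgHom.id_apply]

theorem eval_act (g : Matrix (Fin 3) (Fin 3) K) (v : Fin 3 → K) (F : MvPolynomial (Fin 3) K) :
    eval v (act g F) = eval (g.mulVec v) F := by
  induction F using MvPolynomial.induction_on with
  | C a => rw [act_C, eval_C, eval_C]
  | add p q hp hq => rw [map_add, map_add, hp, hq, map_add]
  | mul_X p s hp =>
    rw [map_mul, map_mul, hp, map_mul, act_X, map_sum, eval_X]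
    congr 1
    simp [Matrix.mulVec, dotProduct]

theorem pderiv_act (g : Matrix (Fin 3) (Fin 3) K) (b : Fin 3) (F : MvPolynomial (Fin 3) K) :
    pderiv b (act g F) = ∑ a, C (g a b) * act g (pderiv a F) := by
  classical
  induction F using MvPolynomial.induction_on with
  | C a => simp
  | add p q hp hq =>
    rw [map_add, map_add, hp, hq, ← Finset.sum_add_distrib]
    exact Finset.sum_congr rfl (fun a _ => by rw [map_add, map_add, mul_add])
  | mul_X p s hp =>
    have h1 : pderiv b (act g (X s)) = C (g s b) := by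
      rw [act_X, map_sum, Finset.sum_eq_single b]
      · rw [pderiv_C_mul, pderiv_X_self, mul_one]
      · intro c _ hc
        rw [pderiv_C_mul, pderiv_X_of_ne hc, mul_zero]
      · intro h; exact absurd (Finset.mem_univ _) h
    rw [map_mul, Derivation.leibniz, hp, h1, smul_eq_mul, smul_eq_mul, Finset.mul_sum]
    have h2 : ∀ a, C (g a b) * act g (pderiv a (p * X s)) =
        act g p * (C (g a b) * act g (pderiv a (X s))) +
          act g (X s) * (C (g a b) * act g (pderiv a p)) := by
      intro a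
      rw [Derivation.leibniz, map_add, smul_eq_mul, smul_eq_mul, map_mul, map_mul]
      ring
    rw [Finset.sum_congr rfl (fun a _ => h2 a), Finset.sum_add_distrib]
    congr 1
    rw [Finset.sum_eq_single s]
    · rw [pderiv_X_self, map_one, mul_one]
    · intro c _ hc
      rw [pderiv_X_of_ne (Ne.symm hc), map_zero, mul_zero, mul_zero]
    · intro h; exact absurd (Finset.mem_univ _) h

theorem euler1_gen (f : MvPolynomial (Fin 3) K) :
    (Polynomial.derivative (th (fun _ => 1) f)).eval 1 = ∑ a, X a * pderiv a f := by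
  classical
  induction f using MvPolynomial.induction_on with
  | C a => rw [th_C]; simp
  | add p q hp hq =>
    rw [map_add, Polynomial.derivative_add, Polynomial.eval_add, hp, hq, ← Finset.sum_add_distrib]
    exact Finset.sum_congr rfl (fun a _ => by rw [map_add, mul_add])
  | mul_X p s hp =>
    rw [map_mul, Polynomial.derivative_mul, Polynomial.eval_add, Polynomial.eval_mul,
      Polynomial.eval_mul, hp, eval_one_th, eval_one_th, th_X, Polynomial.derivative_C_mul,
      Polynomial.derivative_X_pow, Finset.sum_mul]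
    simp only [Polynomial.eval_mul, Polynomial.eval_C, Polynomial.eval_pow, Polynomial.eval_X,
      one_pow, mul_one, Derivation.leibniz, smul_eq_mul, mul_add, Finset.sum_add_distrib]
    simp only [pderiv_X, Pi.single_apply, mul_ite, mul_one, mul_zero,
      Finset.sum_ite_eq, Finset.mem_univ, if_true, Nat.cast_one, map_one]
    rw [add_comm]
    simp [mul_comm, mul_left_comm]

theorem euler1 {F : MvPolynomial (Fin 3) K} {n : ℕ} (h : F.IsHomogeneous n) :
    ∑ a, X a * pderiv a F = (n : MvPolynomial (Fin 3) K) * F := by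
  rw [← euler1_gen, th_homog h, Polynomial.derivative_monomial, Polynomial.eval_monomial]
  simp [mul_comm]

theorem eval_scale_gen (F : MvPolynomial (Fin 3) K) (v : Fin 3 → K) (t : K) :
    ((th (fun _ => 1) F).map (eval v)).eval t = eval (fun a => t * v a) F := by
  induction F using MvPolynomial.induction_on with
  | C a => rw [th_C, Polynomial.map_C, Polynomial.eval_C, eval_C, eval_C]
  | add p q hp hq => rw [map_add, Polynomial.map_add, Polynomial.eval_add, hp, hq, map_add]
  | mul_X p s hp =>
    rw [map_mul, Polynomial.map_mul, Polynomial.eval_mul, hp, map_mul, th_X, eval_X,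
      Polynomial.map_mul, Polynomial.map_C, Polynomial.map_pow, Polynomial.map_X,
      Polynomial.eval_mul, Polynomial.eval_C, Polynomial.eval_pow, Polynomial.eval_X, eval_X,
      pow_one, mul_comm (v s)]

theorem eval_scale {F : MvPolynomial (Fin 3) K} {n : ℕ} (h : F.IsHomogeneous n)
    (v : Fin 3 → K) (t : K) : eval (fun a => t * v a) F = t ^ n * eval v F := by
  rw [← eval_scale_gen, th_homog h, Polynomial.map_monomial, Polynomial.eval_monomial, mul_comm]

/-- The group of linear maps preserving the potential up to the determinant. -/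
def InG (Ω : MvPolynomial (Fin 3) K) (h : Matrix (Fin 3) (Fin 3) K) : Prop :=
  h.det ≠ 0 ∧ act h Ω = C h.det * Ω

theorem InG.one (Ω : MvPolynomial (Fin 3) K) : InG Ω 1 := by
  refine ⟨by simp, ?_⟩
  rw [act_one]; simp

theorem InG.mul {Ω : MvPolynomial (Fin 3) K} {h h' : Matrix (Fin 3) (Fin 3) K}
    (hh : InG Ω h) (hh' : InG Ω h') : InG Ω (h * h') := by
  refine ⟨by rw [Matrix.det_mul]; exact mul_ne_zero hh.1 hh'.1, ?_⟩
  rw [← act_act, hh.2, map_mul, act_C, hh'.2, Matrix.det_mul, C_mul, mul_assoc]

theorem InG.inv {Ω : MvPolynomial (Fin 3) K} {h : Matrix (Fin 3) (Fin 3) K}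
    (hh : InG Ω h) : InG Ω h⁻¹ := by
  have hu : IsUnit h.det := isUnit_iff_ne_zero.2 hh.1
  have h1 : h * h⁻¹ = 1 := Matrix.mul_nonsing_inv _ hu
  have hdet : h.det * (h⁻¹).det = 1 := by rw [← Matrix.det_mul, h1, Matrix.det_one]
  refine ⟨right_ne_zero_of_mul_eq_one hdet, ?_⟩
  have h2 : act h⁻¹ (act h Ω) = Ω := by rw [act_act, h1, act_one]
  rw [hh.2, map_mul, act_C] at h2
  calc act h⁻¹ Ω = C ((h⁻¹).det) * (C h.det * act h⁻¹ Ω) := by
        rw [← mul_assoc, ← C_mul, mul_comm, ← mul_comm h.det, hdet, C_1, mul_one]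
    _ = C ((h⁻¹).det) * Ω := by rw [h2]

theorem InG.pow {Ω : MvPolynomial (Fin 3) K} {h : Matrix (Fin 3) (Fin 3) K}
    (hh : InG Ω h) (m : ℕ) : InG Ω (h ^ m) := by
  induction m with
  | zero => rw [pow_zero]; exact InG.one Ω
  | succ m ih => rw [pow_succ]; exact ih.mul hh

theorem isRoot_iff (h : Matrix (Fin 3) (Fin 3) K) (t : K) :
    h.charpoly.IsRoot t ↔ ∃ v, v ≠ 0 ∧ h.mulVec v = fun a => t * v a := by
  rw [Polynomial.IsRoot, Matrix.eval_charpoly, ← Matrix.exists_mulVec_eq_zero_iff]
  constructor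
  · rintro ⟨v, hv, h0⟩
    refine ⟨v, hv, ?_⟩
    rw [Matrix.sub_mulVec, sub_eq_zero] at h0
    rw [← h0]
    ext a
    simp
  · rintro ⟨v, hv, h0⟩
    refine ⟨v, hv, ?_⟩
    rw [Matrix.sub_mulVec, sub_eq_zero, h0]
    ext a
    simp

theorem InG.root_map {Ω : MvPolynomial (Fin 3) K} {d : ℕ} (hΩ : IsPot Ω d)
    {h : Matrix (Fin 3) (Fin 3) K}
    (hh : InG Ω h) {t : K} (ht : h.charpoly.IsRoot t) :
    t ≠ 0 ∧ h.charpoly.IsRoot (h.det * (t ^ (d - 1))⁻¹) := by
  obtain ⟨v, hv, hhv⟩ := (isRoot_iff h t).1 ht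
  have ht0 : t ≠ 0 := by
    rintro rfl
    apply hh.1
    rw [← Matrix.exists_mulVec_eq_zero_iff]
    exact ⟨v, hv, by rw [hhv]; ext a; simp⟩
  refine ⟨ht0, ?_⟩
  have hg : ∀ b, ∑ a, h a b * (t ^ (d - 1) * eval v (pderiv a Ω)) =
      h.det * eval v (pderiv b Ω) := by
    intro b
    have h1 := congrArg (fun F => eval v (pderiv b F)) hh.2
    simp only [pderiv_act, map_sum, map_mul, eval_C, pderiv_C_mul, eval_act, hhv] at h1
    rw [← h1]
    refine Finset.sum_congr rfl (fun a _ => ?_)
    rw [eval_scale (homog_pderiv hΩ.hom a)]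
  rw [← Matrix.charpoly_transpose, isRoot_iff]
  refine ⟨fun a => eval v (pderiv a Ω), ?_, ?_⟩
  · intro h0
    apply hv
    ext a
    have hp : (⊥ : Ideal K).IsPrime := Ideal.isPrime_bot
    have := hΩ.pow_mem (A := K) ⊥ v (fun c => by
      rw [Ideal.mem_bot]
      have := congrFun h0 c
      rw [show aeval v (pderiv c Ω) = eval v (pderiv c Ω) from by
        rw [← coe_aeval_eq_eval]; rfl]
      exact this) a
    simpa using this
  · ext b
    have h1 := hg b
    have h2 : ∑ a, h a b * (t ^ (d - 1) * eval v (pderiv a Ω)) =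
        t ^ (d - 1) * ∑ a, h a b * eval v (pderiv a Ω) := by
      rw [Finset.mul_sum]; exact Finset.sum_congr rfl (fun a _ => by ring)
    rw [h2] at h1
    have h3 : t ^ (d - 1) ≠ 0 := pow_ne_zero _ ht0
    simp only [Matrix.mulVec, dotProduct, Matrix.transpose_apply]
    field_simp
    linear_combination h1

end GroupA

end H658PD
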