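import Pool.Agent.H658.PD.GroupA

namespace H658PD

open MvPolynomial

section GroupB

variable {K : Type*} [Field K]

theorem iter_root {Ω : MvPolynomial (Fin 3) K} {d : ℕ} (hΩ : IsPot Ω d)
    {h : Matrix (Fin 3) (Fin 3) K} (hh : InG Ω h) {t : K} (ht : h.charpoly.IsRoot t) (s : ℕ) :
    h.charpoly.IsRoot ((fun x => h.det * (x ^ (d - 1))⁻¹)^[s] t) ∧
    ((fun x => h.det * (x ^ (d - 1))⁻¹)^[s] t) ^ d * h.det⁻¹ =
      (t ^ d * h.det⁻¹) ^ ((-((d - 1 : ℕ) : ℤ)) ^ s) := by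
  have hχ := hh.1
  have hd := hΩ.two
  obtain ⟨e, rfl⟩ : ∃ e, d = e + 1 := ⟨d - 1, by omega⟩
  simp only [Nat.add_sub_cancel]
  have ht0 := (hh.root_map hΩ ht).1
  induction s with
  | zero => exact ⟨ht, by simp⟩
  | succ s ih =>
    have h1 := hh.root_map hΩ ih.1
    rw [Function.iterate_succ_apply']
    refine ⟨h1.2, ?_⟩
    set x := (fun x => h.det * (x ^ e)⁻¹)^[s] t with hx
    have hx0 : x ≠ 0 := h1.1
    rw [pow_succ (-((e : ℕ) : ℤ)) s, zpow_mul, ← ih.2, zpow_neg, zpow_natCast]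
    have hA : ((x ^ e)⁻¹) ^ (e + 1) = ((x ^ (e + 1)) ^ e)⁻¹ := by
      rw [inv_pow, ← pow_mul, ← pow_mul, mul_comm]
    rw [mul_pow, hA, mul_pow, mul_inv, inv_pow, inv_inv, pow_succ h.det e]
    have hχe : h.det ^ e ≠ 0 := pow_ne_zero _ hχ
    have : h.det * h.det⁻¹ = 1 := mul_inv_cancel₀ hχ
    linear_combination (h.det ^ e * ((x ^ (e + 1)) ^ e)⁻¹) * this

theorem exists_M (d : ℕ) (hd : 4 ≤ d) : ∃ M : ℕ, 0 < M ∧
    ∀ (Ω : MvPolynomial (Fin 3) K), IsPot Ω d → ∀ h, InG Ω h → ∀ t, h.charpoly.IsRoot t →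
      (t ^ d * h.det⁻¹) ^ M = 1 := by
  classical
  have hne : ∀ s s' : ℕ, s ≠ s' → ((-((d - 1 : ℕ) : ℤ)) ^ s - (-((d - 1 : ℕ) : ℤ)) ^ s') ≠ 0 := by
    intro s s' hss h0
    rw [sub_eq_zero] at h0
    have h1 := congrArg Int.natAbs h0
    rw [Int.natAbs_pow, Int.natAbs_pow, Int.natAbs_neg, Int.natAbs_natCast] at h1
    exact hss (Nat.pow_right_injective (by omega) h1)
  refine ⟨∏ p ∈ (Finset.range 4 ×ˢ Finset.range 4).filter (fun p => p.1 ≠ p.2),
    ((-((d - 1 : ℕ) : ℤ)) ^ p.1 - (-((d - 1 : ℕ) : ℤ)) ^ p.2).natAbs, ?_, ?_⟩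
  · refine Finset.prod_pos (fun p hp => ?_)
    exact Int.natAbs_pos.2 (hne _ _ (Finset.mem_filter.1 hp).2)
  · intro Ω hΩ h hh t ht
    have hcard : h.charpoly.roots.toFinset.card < (Finset.range 4).card := by
      rw [Finset.card_range]
      have h1 := Multiset.toFinset_card_le h.charpoly.roots
      have h2 := Polynomial.card_roots' h.charpoly
      rw [Matrix.charpoly_natDegree_eq_dim, Fintype.card_fin] at h2
      omega
    obtain ⟨s, hs, s', hs', hss, heq⟩ := Finset.exists_ne_map_eq_of_card_lt_of_maps_to hcard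
      (f := fun s => (fun x => h.det * (x ^ (d - 1))⁻¹)^[s] t) (by
        intro s _
        rw [Finset.mem_coe, Multiset.mem_toFinset,
          Polynomial.mem_roots (Matrix.charpoly_monic h).ne_zero]
        exact (iter_root hΩ hh ht s).1)
    have h1 := (iter_root hΩ hh ht s).2
    have h2 := (iter_root hΩ hh ht s').2
    rw [heq, h2] at h1
    set z := t ^ d * h.det⁻¹ with hz
    have hz0 : z ≠ 0 := mul_ne_zero (pow_ne_zero _ (hh.root_map hΩ ht).1) (inv_ne_zero hh.1)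
    have h3 : z ^ ((-((d - 1 : ℕ) : ℤ)) ^ s - (-((d - 1 : ℕ) : ℤ)) ^ s') = 1 := by
      rw [zpow_sub₀ hz0, h1, div_self (zpow_ne_zero _ hz0)]
    have h4 : z ^ ((-((d - 1 : ℕ) : ℤ)) ^ s - (-((d - 1 : ℕ) : ℤ)) ^ s').natAbs = 1 := by
      rcases Int.natAbs_eq ((-((d - 1 : ℕ) : ℤ)) ^ s - (-((d - 1 : ℕ) : ℤ)) ^ s') with h5 | h5
      · rw [h5] at h3
        rw [zpow_natCast] at h3
        exact h3
      · rw [h5] at h3
        rw [zpow_neg, zpow_natCast, inv_eq_one] at h3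
        exact h3
    have h5 : ((-((d - 1 : ℕ) : ℤ)) ^ s - (-((d - 1 : ℕ) : ℤ)) ^ s').natAbs ∣
        ∏ p ∈ (Finset.range 4 ×ˢ Finset.range 4).filter (fun p => p.1 ≠ p.2),
          ((-((d - 1 : ℕ) : ℤ)) ^ p.1 - (-((d - 1 : ℕ) : ℤ)) ^ p.2).natAbs :=
      Finset.dvd_prod_of_mem (fun p : ℕ × ℕ =>
        ((-((d - 1 : ℕ) : ℤ)) ^ p.1 - (-((d - 1 : ℕ) : ℤ)) ^ p.2).natAbs)
        (a := (s, s')) (Finset.mem_filter.2 ⟨Finset.mem_product.2 ⟨hs, hs'⟩, hss⟩)
    obtain ⟨c, hc⟩ := h5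
    rw [hc, pow_mul, h4, one_pow]

variable [IsAlgClosed K]

theorem exists_N (d : ℕ) (hd : 4 ≤ d) : ∃ N : ℕ, 0 < N ∧
    ∀ (Ω : MvPolynomial (Fin 3) K), IsPot Ω d → ∀ h, InG Ω h → ∀ t, h.charpoly.IsRoot t →
      t ^ N = 1 := by
  obtain ⟨M, hM, hM'⟩ := exists_M (K := K) d hd
  refine ⟨d * M * (d - 3), Nat.mul_pos (Nat.mul_pos (by omega) hM) (by omega), ?_⟩
  intro Ω hΩ h hh t ht
  have hχ := hh.1
  have key : ∀ t, h.charpoly.IsRoot t → t ^ (d * M) = h.det ^ M := by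
    intro t ht
    have := hM' Ω hΩ h hh t ht
    rw [mul_pow, ← pow_mul, inv_pow] at this
    field_simp at this
    exact this
  have hcard : h.charpoly.roots.card = 3 := by
    rw [Polynomial.splits_iff_card_roots.1 (IsAlgClosed.splits _),
      Matrix.charpoly_natDegree_eq_dim, Fintype.card_fin]
  have h1 : (h.charpoly.roots.map (fun x => x ^ (d * M))).prod = h.det ^ (d * M) := by
    rw [Multiset.prod_map_pow, Multiset.map_id', ← Matrix.det_eq_prod_roots_charpoly]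
  have h2 : h.charpoly.roots.map (fun x => x ^ (d * M)) =
      h.charpoly.roots.map (fun _ => h.det ^ M) :=
    Multiset.map_congr rfl (fun x hx => key x ((Polynomial.mem_roots
      (Matrix.charpoly_monic h).ne_zero).1 hx))
  rw [h2, Multiset.map_const', Multiset.prod_replicate, hcard] at h1
  obtain ⟨e, rfl⟩ : ∃ e, d = e + 3 := ⟨d - 3, by omega⟩
  rw [Nat.add_sub_cancel, pow_mul, key t ht, ← pow_mul]
  have h3 : h.det ^ (M * 3) * h.det ^ (M * e) = h.det ^ (M * 3) * 1 := by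
    rw [mul_one, ← pow_add]
    rw [← pow_mul] at h1
    rw [h1]
    congr 1
    ring
  exact mul_left_cancel₀ (pow_ne_zero _ hχ) h3

theorem finite_traces {Ω : MvPolynomial (Fin 3) K} {d : ℕ} (hΩ : IsPot Ω d) :
    {t : K | ∃ h, InG Ω h ∧ h.trace = t}.Finite := by
  classical
  obtain ⟨N, hN, hN'⟩ := exists_N (K := K) d hΩ.two
  have hfin : {t : K | t ^ N = 1}.Finite := by
    have : {t : K | t ^ N = 1} ⊆ ((Polynomial.X ^ N - 1 : Polynomial K).roots.toFinset : Set K) := by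
      intro t ht
      rw [Finset.mem_coe, Multiset.mem_toFinset, Polynomial.mem_roots
        (Polynomial.X_pow_sub_C_ne_zero hN (1 : K) |> fun h => by simpa using h)]
      simp only [Polynomial.IsRoot, Polynomial.eval_sub, Polynomial.eval_pow, Polynomial.eval_X,
        Polynomial.eval_one]
      rw [Set.mem_ofPred_eq] at ht
      rw [ht, sub_self]
    exact Set.Finite.subset (Finset.finite_toSet _) this
  refine Set.Finite.subset ((hfin.prod (hfin.prod hfin)).image (fun p => p.1 + (p.2.1 + p.2.2))) ?_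
  rintro _ ⟨h, hh, rfl⟩
  have hcard : h.charpoly.roots.card = 3 := by
    rw [Polynomial.splits_iff_card_roots.1 (IsAlgClosed.splits _),
      Matrix.charpoly_natDegree_eq_dim, Fintype.card_fin]
  obtain ⟨x, y, z, hxyz⟩ := Multiset.card_eq_three.1 hcard
  have hr : ∀ t ∈ h.charpoly.roots, t ^ N = 1 := fun t ht =>
    hN' Ω hΩ h hh t ((Polynomial.mem_roots (Matrix.charpoly_monic h).ne_zero).1 ht)
  rw [hxyz] at hr
  refine ⟨(x, y, z), ⟨hr x (by simp), hr y (by simp), hr z (by simp)⟩, ?_⟩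
  rw [Matrix.trace_eq_sum_roots_charpoly, hxyz]
  simp

end GroupB

end H658PD
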