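import Pool.Agent.H658.PD.GroupB

namespace H658PD

open MvPolynomial

section GroupC

variable {K : Type*} [Field K]

theorem rk_core (A B E r0 r1 r2 : MvPolynomial (Fin 3) K) (v0 v1 v2 : K) (hv2 : v2 ≠ 0)
    (hr : C v0 * r0 + C v1 * r1 + C v2 * r2 = 0) (h : r0 * A + r1 * B + r2 * E = 0)
    (hA : constantCoeff A = 0 ∧ ∀ b, constantCoeff (pderiv b A) = 0)
    (hB : constantCoeff B = 0 ∧ ∀ b, constantCoeff (pderiv b B) = 0)
    (hE : constantCoeff E = 0 ∧ ∀ b, constantCoeff (pderiv b E) = 0)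
    (h0 : (∀ b, constantCoeff (pderiv b r0) = 0) → r0 = 0)
    (hno : ∀ H, constantCoeff H = 0 → A ∈ Ideal.span {H, E} → B ∈ Ideal.span {H, E} → False) :
    r0 = 0 ∧ r1 = 0 ∧ r2 = 0 := by
  have hv : C v2 * C (v2⁻¹) = (1 : MvPolynomial (Fin 3) K) := by
    rw [← C_mul, mul_inv_cancel₀ hv2, C_1]
  set A' := A - C (v0 * v2⁻¹) * E with hA'
  set B' := B - C (v1 * v2⁻¹) * E with hB'
  have h1 : r0 * A' + r1 * B' = 0 := by
    rw [hA', hB', C_mul, C_mul]
    linear_combination h - E * C (v2⁻¹) * hr + r2 * E * hv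
  have hA'0 : constantCoeff A' = 0 ∧ ∀ b, constantCoeff (pderiv b A') = 0 := by
    refine ⟨by rw [hA', map_sub, map_mul, hA.1, hE.1]; simp, fun b => ?_⟩
    rw [hA', map_sub, map_sub, pderiv_C_mul, map_mul, hA.2 b, hE.2 b]; simp
  have hB'0 : constantCoeff B' = 0 ∧ ∀ b, constantCoeff (pderiv b B') = 0 := by
    refine ⟨by rw [hB', map_sub, map_mul, hB.1, hE.1]; simp, fun b => ?_⟩
    rw [hB', map_sub, map_sub, pderiv_C_mul, map_mul, hB.2 b, hE.2 b]; simp
  have hAs : A = A' + C (v0 * v2⁻¹) * E := by rw [hA']; ring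
  have hBs : B = B' + C (v1 * v2⁻¹) * E := by rw [hB']; ring
  have hr0 : r0 = 0 := by
    by_contra hne
    obtain ⟨a', b', c', hrel, hca, hcb⟩ :=
      UniqueFactorizationMonoid.exists_reduced_factors r0 hne r1
    have hc0 : c' ≠ 0 := by rintro rfl; rw [zero_mul] at hca; exact hne hca.symm
    have ha0 : a' ≠ 0 := by rintro rfl; rw [mul_zero] at hca; exact hne hca.symm
    have h2 : a' * A' + b' * B' = 0 := by
      have h3 : c' * (a' * A' + b' * B') = 0 := by
        rw [← hca, ← hcb] at h1; linear_combination h1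
      exact (mul_eq_zero.1 h3).resolve_left hc0
    have h3 : a' ∣ b' * B' := ⟨-A', by linear_combination h2⟩
    obtain ⟨H, hH⟩ := hrel.dvd_of_dvd_mul_left h3
    have hH' : A' = -(b' * H) := by
      have h4 : a' * (A' + b' * H) = 0 := by
        rw [hH] at h2; linear_combination h2
      have := (mul_eq_zero.1 h4).resolve_left ha0
      linear_combination this
    have hH0 : constantCoeff H = 0 := by
      by_contra hHne
      have e1 : constantCoeff a' = 0 := by
        have := hB'0.1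
        rw [hH, map_mul] at this
        exact (mul_eq_zero.1 this).resolve_right hHne
      have e3 : ∀ b, constantCoeff (pderiv b a') = 0 := by
        intro b
        have := hB'0.2 b
        rw [hH, Derivation.leibniz, smul_eq_mul, smul_eq_mul, map_add, map_mul, map_mul, e1,
          zero_mul, zero_add] at this
        exact (mul_eq_zero.1 this).resolve_left hHne
      apply hne
      apply h0
      intro b
      rw [← hca, Derivation.leibniz, smul_eq_mul, smul_eq_mul, map_add, map_mul, map_mul, e1,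
        e3 b]
      simp
    refine hno H hH0 ?_ ?_
    · rw [hAs, hH']
      exact Ideal.add_mem _ (neg_mem (Ideal.mul_mem_left _ _ (Ideal.subset_span (by simp))))
        (Ideal.mul_mem_left _ _ (Ideal.subset_span (by simp)))
    · rw [hBs, hH]
      exact Ideal.add_mem _ (Ideal.mul_mem_left _ _ (Ideal.subset_span (by simp)))
        (Ideal.mul_mem_left _ _ (Ideal.subset_span (by simp)))
  have hr1 : r1 = 0 := by
    by_contra hne
    rw [hr0, zero_mul, zero_add] at h1
    have h2 := (mul_eq_zero.1 h1).resolve_left hne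
    refine hno A hA.1 (Ideal.subset_span (by simp)) ?_
    rw [hBs, h2, zero_add]
    exact Ideal.mul_mem_left _ _ (Ideal.subset_span (by simp))
  refine ⟨hr0, hr1, ?_⟩
  rw [hr0, hr1, mul_zero, mul_zero, zero_add, zero_add] at hr
  exact (mul_eq_zero.1 hr).resolve_left (fun h => hv2 (C_injective _ _ (by rw [h, C_0])))

theorem rk {Ω : MvPolynomial (Fin 3) K} {d : ℕ} (hΩ : IsPot Ω d) {m : Matrix (Fin 3) (Fin 3) K}
    (hdet : m.det = 0) (h : ∑ a, (∑ b, C (m a b) * X b) * pderiv a Ω = 0) : m = 0 := by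
  have hd := hΩ.two
  obtain ⟨v, hv, hvm⟩ := Matrix.exists_vecMul_eq_zero_iff.2 hdet
  set r : Fin 3 → MvPolynomial (Fin 3) K := fun a => ∑ b, C (m a b) * X b with hr
  have hcol : ∀ b, ∑ a, v a * m a b = 0 := fun b => congrFun hvm b
  have hvr : ∑ a, C (v a) * r a = 0 := by
    simp only [hr, Finset.mul_sum]
    rw [Finset.sum_comm]
    refine Finset.sum_eq_zero (fun b _ => ?_)
    have h1 : ∑ a, C (v a) * (C (m a b) * X b) = C (∑ a, v a * m a b) *
        (X b : MvPolynomial (Fin 3) K) := by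
      rw [map_sum, Finset.sum_mul]
      exact Finset.sum_congr rfl (fun a _ => by rw [C_mul]; ring)
    rw [h1, hcol b, C_0, zero_mul]
  have hpr : ∀ a b, pderiv b (r a) = C (m a b) := by
    intro a b
    simp only [hr]
    rw [map_sum, Finset.sum_eq_single b]
    · rw [pderiv_C_mul, pderiv_X_self, mul_one]
    · intro c _ hc
      rw [pderiv_C_mul, pderiv_X_of_ne hc, mul_zero]
    · intro h; exact absurd (Finset.mem_univ _) h
  have hr0 : ∀ a, (∀ b, constantCoeff (pderiv b (r a)) = 0) → r a = 0 := by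
    intro a ha
    simp only [hpr, constantCoeff_C] at ha
    simp [hr, ha]
  have hcc : ∀ a, constantCoeff (pderiv a Ω) = 0 ∧ ∀ b, constantCoeff (pderiv b (pderiv a Ω)) = 0 := by
    intro a
    refine ⟨constantCoeff_of_pos (n := d - 1) (by omega) (th_homog (homog_pderiv hΩ.hom a)),
      fun b => ?_⟩
    exact constantCoeff_of_pos (n := d - 1 - 1) (by omega)
      (th_homog (homog_pderiv (homog_pderiv hΩ.hom a) b))
  have hno : ∀ H E, constantCoeff H = 0 → constantCoeff E = 0 →
      (∀ a, pderiv a Ω ∈ Ideal.span {H, E}) → False := by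
    intro H E hH hE hall
    refine hΩ.no_two (K := K) H E hH hE (fun c => ?_)
    simpa [MvPolynomial.map_id] using hall c
  rw [Fin.sum_univ_three] at h hvr
  have hall : ∀ a, r a = 0 := by
    obtain ⟨a0, ha0⟩ : ∃ a, v a ≠ 0 := by
      by_contra hcon; push Not at hcon; exact hv (funext hcon)
    have hfin : r 0 = 0 ∧ r 1 = 0 ∧ r 2 = 0 := by
      fin_cases a0
      · have := rk_core (pderiv 1 Ω) (pderiv 2 Ω) (pderiv 0 Ω) (r 1) (r 2) (r 0) (v 1) (v 2) (v 0)
          ha0 (by linear_combination hvr) (by linear_combination h) (hcc 1) (hcc 2) (hcc 0)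
          (hr0 1) (fun H hH h1 h2 => hno H _ hH (hcc 0).1 (fun a => by
            fin_cases a
            · exact Ideal.subset_span (by simp)
            · exact h1
            · exact h2))
        exact ⟨this.2.2, this.1, this.2.1⟩
      · have := rk_core (pderiv 0 Ω) (pderiv 2 Ω) (pderiv 1 Ω) (r 0) (r 2) (r 1) (v 0) (v 2) (v 1)
          ha0 (by linear_combination hvr) (by linear_combination h) (hcc 0) (hcc 2) (hcc 1)
          (hr0 0) (fun H hH h1 h2 => hno H _ hH (hcc 1).1 (fun a => by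
            fin_cases a
            · exact h1
            · exact Ideal.subset_span (by simp)
            · exact h2))
        exact ⟨this.1, this.2.2, this.2.1⟩
      · have := rk_core (pderiv 0 Ω) (pderiv 1 Ω) (pderiv 2 Ω) (r 0) (r 1) (r 2) (v 0) (v 1) (v 2)
          ha0 (by linear_combination hvr) (by linear_combination h) (hcc 0) (hcc 1) (hcc 2)
          (hr0 0) (fun H hH h1 h2 => hno H _ hH (hcc 2).1 (fun a => by
            fin_cases a
            · exact h1
            · exact h2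
            · exact Ideal.subset_span (by simp)))
        exact ⟨this.1, this.2.1, this.2.2⟩
    intro a
    fin_cases a
    · exact hfin.1
    · exact hfin.2.1
    · exact hfin.2.2
  ext a b
  have h1 := hpr a b
  rw [hall a, map_zero] at h1
  exact (C_injective _ _ (by rw [C_0, h1]) : (0 : K) = m a b).symm

theorem ch3 [CharZero K] {N : Matrix (Fin 3) (Fin 3) K} (h1 : N.trace = 0)
    (h2 : (N * N).trace = 0) (h3 : (N * N * N).trace = 0) :
    N * N * N = 0 ∧ (1 + N).det = 1 := by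
  simp only [Matrix.trace, Matrix.diag, Matrix.mul_apply, Fin.sum_univ_three] at h1 h2 h3
  constructor
  · ext i j
    simp only [Matrix.mul_apply, Fin.sum_univ_three, Matrix.zero_apply]
    have hdelta : ∀ i j : Fin 3, ∃ δ : K, ((N i 0 * N 0 0 + N i 1 * N 1 0 + N i 2 * N 2 0) * N 0 j +
      (N i 0 * N 0 1 + N i 1 * N 1 1 + N i 2 * N 2 1) * N 1 j +
      (N i 0 * N 0 2 + N i 1 * N 1 2 + N i 2 * N 2 2) * N 2 j) =
      (N 0 0 + N 1 1 + N 2 2) * (N i 0 * N 0 j + N i 1 * N 1 j + N i 2 * N 2 j) -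
      (N 0 0 * N 1 1 + N 0 0 * N 2 2 + N 1 1 * N 2 2 - N 0 1 * N 1 0 - N 0 2 * N 2 0 -
        N 1 2 * N 2 1) * N i j + (N 0 0 * (N 1 1 * N 2 2 - N 1 2 * N 2 1) -
        N 0 1 * (N 1 0 * N 2 2 - N 1 2 * N 2 0) + N 0 2 * (N 1 0 * N 2 1 - N 1 1 * N 2 0)) * δ := by
      intro i j
      fin_cases i <;> fin_cases j <;> simp only [Fin.zero_eta, Fin.mk_one, Fin.reduceFinMk] <;>
        first
          | exact ⟨1, by ring1⟩
          | exact ⟨0, by ring1⟩
    obtain ⟨δ, hδ⟩ := hdelta i j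
    rw [hδ]
    have e2 : N 0 0 * N 1 1 + N 0 0 * N 2 2 + N 1 1 * N 2 2 - N 0 1 * N 1 0 - N 0 2 * N 2 0 -
        N 1 2 * N 2 1 = 0 := by
      linear_combination (1 / 2 : K) * (N 0 0 + N 1 1 + N 2 2) * h1 - (1 / 2 : K) * h2
    have e3 : N 0 0 * (N 1 1 * N 2 2 - N 1 2 * N 2 1) -
        N 0 1 * (N 1 0 * N 2 2 - N 1 2 * N 2 0) + N 0 2 * (N 1 0 * N 2 1 - N 1 1 * N 2 0) = 0 := by
      linear_combination (1 / 3 : K) * h3 + ((1 / 6 : K) * (N 0 0 + N 1 1 + N 2 2) ^ 2 -
        (1 / 2 : K) * (N 0 0 * N 0 0 + N 0 1 * N 1 0 + N 0 2 * N 2 0 +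
          (N 1 0 * N 0 1 + N 1 1 * N 1 1 + N 1 2 * N 2 1) +
          (N 2 0 * N 0 2 + N 2 1 * N 1 2 + N 2 2 * N 2 2))) * h1
    rw [e2, e3, h1]
    ring
  · rw [Matrix.det_fin_three]
    simp only [Matrix.add_apply, Matrix.one_apply_eq, Matrix.one_apply_ne (show (0 : Fin 3) ≠ 1 by decide),
      Matrix.one_apply_ne (show (0 : Fin 3) ≠ 2 by decide),
      Matrix.one_apply_ne (show (1 : Fin 3) ≠ 0 by decide),
      Matrix.one_apply_ne (show (1 : Fin 3) ≠ 2 by decide),
      Matrix.one_apply_ne (show (2 : Fin 3) ≠ 0 by decide),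
      Matrix.one_apply_ne (show (2 : Fin 3) ≠ 1 by decide), zero_add]
    linear_combination h1 + (1 / 2 : K) * (N 0 0 + N 1 1 + N 2 2) * h1 - (1 / 2 : K) * h2 +
      (1 / 3 : K) * h3 + ((1 / 6 : K) * (N 0 0 + N 1 1 + N 2 2) ^ 2 -
        (1 / 2 : K) * (N 0 0 * N 0 0 + N 0 1 * N 1 0 + N 0 2 * N 2 0 +
          (N 1 0 * N 0 1 + N 1 1 * N 1 1 + N 1 2 * N 2 1) +
          (N 2 0 * N 0 2 + N 2 1 * N 1 2 + N 2 2 * N 2 2))) * h1

end GroupC

end H658PD
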