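import Pool.Agent.H658.PD.GroupC

namespace H658PD

open MvPolynomial

section GroupD

variable {K : Type*} [Field K]

theorem eval_aeval_poly (q : Fin 3 → Polynomial K) (t : K) (F : MvPolynomial (Fin 3) K) :
    (aeval q F).eval t = eval (fun a => (q a).eval t) F := by
  induction F using MvPolynomial.induction_on with
  | C a => rw [aeval_C, eval_C]; simp
  | add p r hp hr => rw [map_add, Polynomial.eval_add, hp, hr, map_add]
  | mul_X p s hp => rw [map_mul, Polynomial.eval_mul, hp, map_mul, aeval_X, eval_X]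

theorem derivative_aeval (q : Fin 3 → Polynomial K) (F : MvPolynomial (Fin 3) K) :
    Polynomial.derivative (aeval q F) = ∑ a, aeval q (pderiv a F) * Polynomial.derivative (q a) := by
  classical
  induction F using MvPolynomial.induction_on with
  | C a => rw [aeval_C]; simp
  | add p r hp hr =>
    rw [map_add, Polynomial.derivative_add, hp, hr, ← Finset.sum_add_distrib]
    exact Finset.sum_congr rfl (fun a _ => by rw [map_add, map_add, add_mul])
  | mul_X p s hp =>
    rw [map_mul, Polynomial.derivative_mul, hp, aeval_X, Finset.sum_mul]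
    have h2 : ∀ a, aeval q (pderiv a (p * X s)) * Polynomial.derivative (q a) =
        aeval q (pderiv a p) * Polynomial.derivative (q a) * q s +
          aeval q p * (aeval q (pderiv a (X s : MvPolynomial (Fin 3) K)) *
            Polynomial.derivative (q a)) := by
      intro a
      rw [Derivation.leibniz, map_add, smul_eq_mul, smul_eq_mul, map_mul, map_mul, aeval_X]
      ring
    rw [Finset.sum_congr rfl (fun a _ => h2 a), Finset.sum_add_distrib]
    congr 1
    rw [← Finset.mul_sum, Finset.sum_eq_single s]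
    · rw [pderiv_X_self, map_one, one_mul]
    · intro c _ hc
      rw [pderiv_X_of_ne (Ne.symm hc), map_zero, zero_mul]
    · intro h; exact absurd (Finset.mem_univ _) h

theorem unip_pow [CharZero K] {N : Matrix (Fin 3) (Fin 3) K} (hN : N * N * N = 0) (t : ℕ) :
    (1 + N) ^ t = 1 + (t : K) • N + ((t : K) * ((t : K) - 1) / 2) • (N * N) := by
  induction t with
  | zero => simp
  | succ t ih =>
    rw [pow_succ, ih]
    have h1 : (1 + (t : K) • N + ((t : K) * ((t : K) - 1) / 2) • (N * N)) * (1 + N) =
        1 + ((t : K) + 1) • N + ((t : K) * ((t : K) - 1) / 2 + t) • (N * N) +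
          ((t : K) * ((t : K) - 1) / 2) • (N * N * N) := by
      simp only [add_mul, mul_add, one_mul, mul_one, smul_mul_assoc, add_smul, one_smul]
      abel
    rw [h1, hN, smul_zero, add_zero]
    congr 2
    · push_cast; rfl
    · push_cast; ring

theorem unip [CharZero K] {Ω : MvPolynomial (Fin 3) K} {d : ℕ} (hΩ : IsPot Ω d)
    {h : Matrix (Fin 3) (Fin 3) K} (hh : InG Ω h) (htr : ∀ m : ℕ, (h ^ m).trace = 3) : h = 1 := by
  obtain ⟨N, hhN⟩ : ∃ N, h = 1 + N := ⟨h - 1, by abel⟩
  have hN : N = h - 1 := by rw [hhN]; abel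
  have htr1 : (1 : Matrix (Fin 3) (Fin 3) K).trace = 3 := by simp
  have t1 : N.trace = 0 := by
    have := htr 1
    rw [pow_one] at this
    rw [hN, Matrix.trace_sub, this, htr1, sub_self]
  have t2 : (N * N).trace = 0 := by
    have e : N * N = h ^ 2 - (h + h) + 1 := by rw [hN]; noncomm_ring
    have h1 := htr 1
    rw [pow_one] at h1
    rw [e, Matrix.trace_add, Matrix.trace_sub, Matrix.trace_add, htr 2, h1, htr1]
    norm_num
  have t3 : (N * N * N).trace = 0 := by
    have e : N * N * N = h ^ 3 - (h ^ 2 + h ^ 2 + h ^ 2) + (h + h + h) - 1 := by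
      rw [hN]; noncomm_ring
    have h1 := htr 1
    rw [pow_one] at h1
    rw [e, Matrix.trace_sub, Matrix.trace_add, Matrix.trace_sub, Matrix.trace_add,
      Matrix.trace_add, Matrix.trace_add, Matrix.trace_add, htr 3, htr 2, h1, htr1]
    norm_num
  obtain ⟨hN3, hdet⟩ := ch3 t1 t2 t3
  have hdeth : h.det = 1 := by rw [hhN, hdet]
  have hinv : ∀ t : ℕ, ∀ x : Fin 3 → K, eval ((h ^ t).mulVec x) Ω = eval x Ω := by
    intro t x
    have h1 := (hh.pow t).2
    rw [Matrix.det_pow, hdeth, one_pow, C_1, one_mul] at h1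
    rw [← eval_act, h1]
  have hvec : ∀ x : Fin 3 → K, ∑ a, eval x (pderiv a Ω) *
      (N.mulVec x a - (N * N).mulVec x a / 2) = 0 := by
    intro x
    obtain ⟨y, hy⟩ : ∃ y, y = N.mulVec x := ⟨_, rfl⟩
    obtain ⟨z, hz⟩ : ∃ z, z = (N * N).mulVec x := ⟨_, rfl⟩
    rw [← hy, ← hz]
    set q : Fin 3 → Polynomial K := fun a => Polynomial.C (x a) + Polynomial.C (y a) * Polynomial.X +
      Polynomial.C (z a / 2) * (Polynomial.X * Polynomial.X - Polynomial.X) with hq
    have h1 : aeval q Ω = Polynomial.C (eval x Ω) := by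
      refine Polynomial.eq_of_infinite_eval_eq _ _ ?_
      refine (Set.infinite_range_of_injective (Nat.cast_injective (R := K))).mono ?_
      rintro _ ⟨t, rfl⟩
      change (aeval q Ω).eval (t : K) = (Polynomial.C (eval x Ω)).eval (t : K)
      rw [eval_aeval_poly, Polynomial.eval_C, ← hinv t x]
      have h2 : (fun a => (q a).eval (t : K)) = (h ^ t).mulVec x := by
        rw [hhN, unip_pow hN3 t]
        ext a
        rw [Matrix.add_mulVec, Matrix.add_mulVec, Matrix.one_mulVec, Matrix.smul_mulVec,
          Matrix.smul_mulVec]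
        simp only [Pi.add_apply, Pi.smul_apply, smul_eq_mul, ← hy, ← hz, hq,
          Polynomial.eval_add, Polynomial.eval_mul, Polynomial.eval_C, Polynomial.eval_X,
          Polynomial.eval_sub]
        ring
      rw [h2]
    have h2 := congrArg (fun p => (Polynomial.derivative p).eval 0) h1
    simp only [derivative_aeval, Polynomial.derivative_C, Polynomial.eval_zero,
      Polynomial.eval_finsetSum, Polynomial.eval_mul, eval_aeval_poly] at h2
    rw [← h2]
    refine Finset.sum_congr rfl (fun a _ => ?_)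
    have h3 : (fun a => (q a).eval 0) = x := by
      ext a; simp [hq]
    have h4 : (Polynomial.derivative (q a)).eval 0 = y a - z a / 2 := by
      simp only [hq, Polynomial.derivative_add, Polynomial.derivative_mul, Polynomial.derivative_C,
        Polynomial.derivative_X, Polynomial.derivative_sub]
      simp
      ring
    rw [h3, h4]
  obtain ⟨m, hm⟩ : ∃ m, m = N - (1 / 2 : K) • (N * N) := ⟨_, rfl⟩
  have hmdet : m.det = 0 := by
    have h1 : m = N * (1 - (1 / 2 : K) • N) := by
      rw [hm, mul_sub, mul_one, mul_smul_comm]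
    have h2 : N.det = 0 := by
      have h3 := congrArg Matrix.det hN3
      rw [Matrix.det_mul, Matrix.det_mul, Matrix.det_zero] at h3
      have h4 : N.det ^ 3 = 0 := by linear_combination h3
      exact pow_eq_zero_iff (by norm_num) |>.1 h4
    rw [h1, Matrix.det_mul, h2, zero_mul]
  have hm0 : m = 0 := by
    refine rk hΩ hmdet ?_
    apply MvPolynomial.funext
    intro x
    rw [map_zero, map_sum, ← hvec x]
    refine Finset.sum_congr rfl (fun a _ => ?_)
    rw [map_mul, mul_comm, map_sum]
    congr 1
    have h1 : N.mulVec x a - (N * N).mulVec x a / 2 = m.mulVec x a := by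
      rw [hm, Matrix.sub_mulVec, Matrix.smul_mulVec]
      simp only [Pi.sub_apply, Pi.smul_apply, smul_eq_mul]
      ring
    rw [h1]
    simp [Matrix.mulVec, dotProduct]
  have hN1 : N = (1 / 2 : K) • (N * N) := by rw [hm, sub_eq_zero] at hm0; exact hm0
  have hN2 : N * N = 0 := by
    calc N * N = (1 / 2 : K) • (N * N) * N := by rw [← hN1]
      _ = (1 / 2 : K) • (N * N * N) := by rw [smul_mul_assoc]
      _ = 0 := by rw [hN3, smul_zero]
  rw [hhN, hN1, hN2, smul_zero, add_zero]

theorem finite_G [CharZero K] [IsAlgClosed K] {Ω : MvPolynomial (Fin 3) K} {d : ℕ}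
    (hΩ : IsPot Ω d) : {h : Matrix (Fin 3) (Fin 3) K | InG Ω h}.Finite := by
  classical
  obtain ⟨T, hTG, hspan⟩ := (Submodule.fg_span_iff_fg_span_finset_subset
    (R := K) {h : Matrix (Fin 3) (Fin 3) K | InG Ω h}).1 (IsNoetherian.noetherian _)
  have hR := finite_traces hΩ
  set R : Set K := {t : K | ∃ h, InG Ω h ∧ h.trace = t} with hRdef
  have hfin : (Set.pi Set.univ (fun _ : {x // x ∈ T} => R)).Finite := Set.Finite.pi (fun _ => hR)
  refine Set.Finite.of_injOn (f := fun g => fun t : {x // x ∈ T} => (g * t.1).trace)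
    (t := Set.pi Set.univ (fun _ : {x // x ∈ T} => R)) ?_ ?_ hfin
  · intro g hg t _
    exact ⟨g * t.1, InG.mul hg (hTG t.2), rfl⟩
  · intro g hg g' hg' heq
    have hu : IsUnit g'.det := isUnit_iff_ne_zero.2 hg'.1
    have h1 : ∀ s ∈ Submodule.span K {h : Matrix (Fin 3) (Fin 3) K | InG Ω h},
        (g * s).trace = (g' * s).trace := by
      rw [hspan]
      intro s hs
      refine Submodule.span_induction (p := fun s _ => (g * s).trace = (g' * s).trace)
        ?_ ?_ ?_ ?_ hs
      · intro x hx
        exact congrFun heq ⟨x, hx⟩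
      · simp
      · intro x y _ _ hx hy
        rw [mul_add, mul_add, Matrix.trace_add, Matrix.trace_add, hx, hy]
      · intro c x _ hx
        rw [mul_smul_comm, mul_smul_comm, Matrix.trace_smul, Matrix.trace_smul, hx]
    have hh : InG Ω (g'⁻¹ * g) := hg'.inv.mul hg
    have h2 : ∀ u, InG Ω u → (g'⁻¹ * g * u).trace = u.trace := by
      intro u hu2
      have h3 := h1 (u * g'⁻¹) (Submodule.subset_span (hu2.mul hg'.inv))
      calc (g'⁻¹ * g * u).trace = (g'⁻¹ * (g * u)).trace := by rw [mul_assoc]
        _ = ((g * u) * g'⁻¹).trace := Matrix.trace_mul_comm _ _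
        _ = (g * (u * g'⁻¹)).trace := by rw [mul_assoc]
        _ = (g' * (u * g'⁻¹)).trace := h3
        _ = ((u * g'⁻¹) * g').trace := Matrix.trace_mul_comm _ _
        _ = u.trace := by rw [mul_assoc, Matrix.nonsing_inv_mul _ hu, mul_one]
    have h3 : ∀ m : ℕ, ((g'⁻¹ * g) ^ m).trace = 3 := by
      intro m
      induction m with
      | zero => simp
      | succ m ih => rw [pow_succ', h2 _ (hh.pow m), ih]
    have h4 := unip hΩ hh h3
    calc g = g' * (g'⁻¹ * g) := by rw [← mul_assoc, Matrix.mul_nonsing_inv _ hu, one_mul]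
      _ = g' := by rw [h4, mul_one]

end GroupD

end H658PD
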