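import Mathlib

namespace H658PD

open MvPolynomial

section Height

variable {K : Type*} [Field K]

/-- Setting a set of variables to zero. -/
noncomputable def killH (s : Finset (Fin 3)) :
    MvPolynomial (Fin 3) K →ₐ[K] MvPolynomial (Fin 3) K :=
  aeval (fun a => if a ∈ s then 0 else X a)

theorem killH_lt {s t : Finset (Fin 3)} (h : s ⊂ t) :
    RingHom.ker (killH (K := K) s) < RingHom.ker (killH (K := K) t) := by
  obtain ⟨hst, b, hbt, hbs⟩ := Finset.ssubset_iff_of_subset h.1 |>.1 h |> fun ⟨x, hx, hx'⟩ =>
    (⟨h.1, x, hx, hx'⟩ : s ⊆ t ∧ ∃ x, x ∈ t ∧ x ∉ s)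
  refine lt_of_le_of_ne ?_ ?_
  · intro f hf
    have hcomp : (killH (K := K) t).comp (killH s) = killH t := by
      apply MvPolynomial.algHom_ext
      intro a
      simp only [killH, AlgHom.comp_apply, aeval_X]
      by_cases ha : a ∈ s
      · simp [ha, hst ha]
      · simp [ha]
    rw [RingHom.mem_ker] at hf ⊢
    rw [← hcomp, AlgHom.comp_apply, hf, map_zero]
  · intro heq
    have hb : (X b : MvPolynomial (Fin 3) K) ∈ RingHom.ker (killH (K := K) t) := by
      rw [RingHom.mem_ker]; simp [killH, hbt]
    rw [← heq, RingHom.mem_ker] at hb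
    simp only [killH, aeval_X, if_neg hbs] at hb
    exact X_ne_zero b hb

instance killH_prime (s : Finset (Fin 3)) : (RingHom.ker (killH (K := K) s)).IsPrime :=
  RingHom.ker_isPrime _

theorem killH_univ (f : MvPolynomial (Fin 3) K) :
    killH Finset.univ f = C (constantCoeff f) := by
  have : (killH (K := K) Finset.univ) =
      (Algebra.ofId K (MvPolynomial (Fin 3) K)).comp (aeval (fun _ => (0 : K))) := by
    apply MvPolynomial.algHom_ext
    intro a
    simp [killH]
  rw [this, AlgHom.comp_apply, Algebra.ofId_apply, algebraMap_eq]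
  congr 1
  rw [constantCoeff_eq, aeval_zero']
  rfl

theorem mem_ker_killH_univ (f : MvPolynomial (Fin 3) K) :
    f ∈ RingHom.ker (killH (K := K) Finset.univ) ↔ constantCoeff f = 0 := by
  rw [RingHom.mem_ker, killH_univ, ← C_0, C_inj]

theorem three_le_height :
    (3 : ℕ∞) ≤ (RingHom.ker (killH (K := K) Finset.univ)).height := by
  have h1 := Ideal.height_add_one_le_of_lt_of_isPrime
    (killH_lt (K := K) (s := ∅) (t := {0}) (by decide))
  have h2 := Ideal.height_add_one_le_of_lt_of_isPrime
    (killH_lt (K := K) (s := {0}) (t := {0, 1}) (by decide))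
  have h3 := Ideal.height_add_one_le_of_lt_of_isPrime
    (killH_lt (K := K) (s := {0, 1}) (t := Finset.univ) (by decide))
  calc (3 : ℕ∞) = 0 + 1 + 1 + 1 := by norm_num
    _ ≤ (RingHom.ker (killH (K := K) ∅)).height + 1 + 1 + 1 := by gcongr; exact zero_le
    _ ≤ (RingHom.ker (killH (K := K) {0})).height + 1 + 1 := by gcongr
    _ ≤ (RingHom.ker (killH (K := K) {0, 1})).height + 1 := by gcongr
    _ ≤ _ := h3

/-- The origin is not cut out by two equations. -/
theorem no_two (f g : MvPolynomial (Fin 3) K) (hf : constantCoeff f = 0)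
    (hg : constantCoeff g = 0) (m : ℕ)
    (h : ∀ a : Fin 3, (X a : MvPolynomial (Fin 3) K) ^ m ∈ Ideal.span {f, g}) : False := by
  classical
  have hmin : RingHom.ker (killH (K := K) Finset.univ) ∈
      (Ideal.span (({f, g} : Finset (MvPolynomial (Fin 3) K)) :
        Set (MvPolynomial (Fin 3) K))).minimalPrimes := by
    refine ⟨⟨inferInstance, ?_⟩, ?_⟩
    · rw [Ideal.span_le]
      intro x hx
      simp only [Finset.coe_insert, Finset.coe_singleton, Set.mem_insert_iff,
        Set.mem_singleton_iff] at hx
      rcases hx with rfl | rfl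
      · exact (mem_ker_killH_univ _).2 hf
      · exact (mem_ker_killH_univ _).2 hg
    · rintro p ⟨hp, hle⟩ -
      intro x hx
      have hX : ∀ a : Fin 3, (X a : MvPolynomial (Fin 3) K) ∈ p := fun a =>
        hp.mem_of_pow_mem m (hle (by
          have := h a
          simpa using this))
      rw [mem_ker_killH_univ] at hx
      -- x is in the ideal of the variables
      have hx2 : x ∈ Ideal.span (Set.range (X : Fin 3 → MvPolynomial (Fin 3) K)) := by
        rw [← Set.image_univ, mem_ideal_span_X_image]
        intro e he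
        by_contra hcon
        push Not at hcon
        have : e = 0 := by
          ext a; simpa using hcon a (Set.mem_univ a)
        rw [this, mem_support_iff, ← constantCoeff_eq] at he
        exact he hx
      refine (Ideal.span_le.2 ?_) hx2
      rintro _ ⟨a, rfl⟩
      exact hX a
  have h2 := Ideal.height_le_card_of_mem_minimalPrimes_span_finset hmin
  have h3 := (three_le_height (K := K)).trans h2
  have h4 : (({f, g} : Finset (MvPolynomial (Fin 3) K)).card : ℕ∞) ≤ 2 := by
    exact_mod_cast Finset.card_le_two
  have := h3.trans h4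
  exact absurd this (by decide)

end Height

end H658PD
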