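import Pool.Agent.H658.PD.StepsB

namespace H658PD

open MvPolynomial

section Inter

variable {k : Type*} [Field k] {n : ℕ}
variable {Ω : Fin n → MvPolynomial (Fin 3) k} {ξ : Fin n → k} {d : Fin n → ℕ}
variable {D : Type*} [CommRing D] [Algebra k D]

/-- Substituting a point of `D` in the blocks of `S`. -/
noncomputable def rho (c : MvPolynomial (Fin n × Fin 3) k →ₐ[k] D) (S : Finset (Fin n)) :
    MvPolynomial (Fin n × Fin 3) k →ₐ[k] MvPolynomial (Fin n × Fin 3) D :=
  aeval (fun p => if p.1 ∈ S then C (c (X p)) else X p)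

/-- Setting block `j` to zero. -/
noncomputable def kap (j : Fin n) :
    MvPolynomial (Fin n × Fin 3) k →ₐ[k] MvPolynomial (Fin n × Fin 3) k :=
  aeval (fun p => if p.1 = j then 0 else X p)

theorem eval_zero_th_wt (j : Fin n) (f : MvPolynomial (Fin n × Fin 3) k) :
    (th (wt j) f).eval 0 = kap j f := by
  induction f using MvPolynomial.induction_on with
  | C a => rw [th_C, Polynomial.eval_C, kap, aeval_C]; rfl
  | add p q hp hq => rw [map_add, Polynomial.eval_add, hp, hq, map_add]
  | mul_X p s hp =>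
    rw [map_mul, Polynomial.eval_mul, hp, map_mul]
    congr 1
    obtain ⟨l, a⟩ := s
    rw [th_X, kap, aeval_X]
    by_cases h : l = j
    · subst h; simp [wt_self]
    · simp [wt_ne _ h, h]

theorem kap_eq_self {j : Fin n} {f : MvPolynomial (Fin n × Fin 3) k}
    (h : (th (wt j) f).natDegree ≤ 0) : kap j f = f := by
  have h1 := eval_zero_th_wt j f
  have h2 := eval_one_th (wt j) f
  rw [Polynomial.eq_C_of_natDegree_le_zero h, Polynomial.eval_C] at h1 h2
  rw [← h1, h2]

variable (c : MvPolynomial (Fin n × Fin 3) k →ₐ[k] D)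

theorem rho_empty (f : MvPolynomial (Fin n × Fin 3) k) :
    rho c ∅ f = map (algebraMap k D) f := by
  induction f using MvPolynomial.induction_on with
  | C a => rw [rho, aeval_C, map_C]; rfl
  | add p q hp hq => rw [map_add, hp, hq, map_add]
  | mul_X p s hp =>
    rw [map_mul, hp, map_mul, map_X, rho, aeval_X, if_neg (Finset.notMem_empty _)]

theorem rho_emb_mem {S : Finset (Fin n)} {l : Fin n} (h : l ∈ S) (F : MvPolynomial (Fin 3) k) :
    rho c S (emb l F) = C (c (emb l F)) := by
  induction F using MvPolynomial.induction_on with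
  | C a =>
    rw [emb_C, rho, aeval_C, show (C a : MvPolynomial (Fin n × Fin 3) k) = algebraMap k _ a from rfl,
      AlgHom.commutes]; rfl
  | add p q hp hq => rw [map_add, map_add, hp, hq, map_add, map_add]
  | mul_X p s hp =>
    rw [map_mul, map_mul, hp, map_mul, map_mul]
    congr 1
    rw [emb_X, rho, aeval_X, if_pos h]

theorem rho_emb_notMem {S : Finset (Fin n)} {l : Fin n} (h : l ∉ S)
    (F : MvPolynomial (Fin 3) k) :
    rho c S (emb l F) = map (algebraMap k D) (emb l F) := by
  induction F using MvPolynomial.induction_on with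
  | C a => rw [emb_C, rho, aeval_C, map_C]; rfl
  | add p q hp hq => rw [map_add, map_add, hp, hq, map_add]
  | mul_X p s hp =>
    rw [map_mul, map_mul, hp, map_mul]
    congr 1
    rw [emb_X, rho, aeval_X, if_neg h, map_X]

/-- The extended ideal. -/
noncomputable def ID (D : Type*) [CommRing D] [Algebra k D] (Ω : Fin n → MvPolynomial (Fin 3) k)
    (ξ : Fin n → k) :
    Ideal (MvPolynomial (Fin n × Fin 3) D) :=
  Ideal.span (Set.range fun l => map (algebraMap k D) (emb l (Ω l - C (ξ l))))

variable {c} (hc : ∀ f ∈ IS Ω ξ Finset.univ, c f = 0)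
include hc

theorem rho_mem (S : Finset (Fin n)) {f : MvPolynomial (Fin n × Fin 3) k}
    (hf : f ∈ IS Ω ξ Finset.univ) : rho c S f ∈ ID D Ω ξ := by
  have h : IS Ω ξ Finset.univ ≤ (ID D Ω ξ).comap (rho c S) := by
    conv_lhs => rw [IS]
    rw [Ideal.span_le]
    rintro _ ⟨l, hl, rfl⟩
    change rho c S (emb l (Ω l - C (ξ l))) ∈ ID D Ω ξ
    by_cases h : l ∈ S
    · rw [rho_emb_mem c h, hc _ (Ideal.subset_span ⟨l, hl, rfl⟩), C_0]
      exact Ideal.zero_mem _
    · rw [rho_emb_notMem c h]
      exact Ideal.subset_span ⟨l, rfl⟩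
  exact h hf

theorem rho_insert {S : Finset (Fin n)} {l : Fin n} {f f' : MvPolynomial (Fin n × Fin 3) k}
    (h : f - f' ∈ IS Ω ξ Finset.univ) (hf' : (th (wt l) f').natDegree ≤ 0) :
    rho c (insert l S) f - rho c S f ∈ ID D Ω ξ := by
  have h1 : (rho c (insert l S)).comp (kap l) = (rho c S).comp (kap l) := by
    apply algHom_ext
    rintro ⟨l', a⟩
    rw [AlgHom.comp_apply, AlgHom.comp_apply, kap, aeval_X]
    by_cases h2 : l' = l
    · simp [h2]
    · simp [h2, rho]
  have h2 : rho c (insert l S) f' = rho c S f' := by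
    have := congrArg (fun g => g f') h1
    simp only [AlgHom.comp_apply, kap_eq_self hf'] at this
    exact this
  have h3 := rho_mem hc (insert l S) h
  have h4 := rho_mem hc S h
  rw [map_sub] at h3 h4
  have h5 := Ideal.sub_mem _ h3 h4
  rw [h2] at h5
  rwa [sub_sub_sub_cancel_right] at h5

omit hc in
theorem lam_ID {l : D →ₗ[k] k} {x : MvPolynomial (Fin n × Fin 3) D}
    (hx : x ∈ ID D Ω ξ) : lam l x ∈ IS Ω ξ Finset.univ := by
  obtain ⟨c, rfl⟩ := Ideal.mem_span_range_iff_exists_fun.1 hx
  have hsum : ∀ s : Finset (Fin n), lam l (∑ i ∈ s, c i *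
      map (algebraMap k D) (emb i (Ω i - C (ξ i)))) ∈ IS Ω ξ Finset.univ := by
    intro s
    induction s using Finset.induction_on with
    | empty => rw [Finset.sum_empty, lam_zero]; exact Ideal.zero_mem _
    | insert a s ha ih =>
      rw [Finset.sum_insert ha, lam_add, mul_comm, lam_mul_map]
      exact Ideal.add_mem _ (Ideal.mul_mem_right _ _ (Ideal.subset_span ⟨a, by simp, rfl⟩)) ih
  exact hsum _

theorem inter [Nontrivial D] (j : Fin n) (f : MvPolynomial (Fin n × Fin 3) k)
    (h0 : ∀ l, l ≠ j → ∃ f', f - f' ∈ IS Ω ξ Finset.univ ∧ (th (wt l) f').natDegree ≤ 0)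
    (h1 : ∃ f', f - f' ∈ IS Ω ξ Finset.univ ∧ (th (wt j) f').natDegree ≤ 1) :
    ∃ (c0 : k) (c : Fin 3 → k),
      f - (C c0 + ∑ b, C (c b) * X (j, b)) ∈ IS Ω ξ Finset.univ := by
  obtain ⟨l, hl⟩ := exists_fun_one (k := k) (D := D)
  obtain ⟨f', hf', hd'⟩ := h1
  -- structure of the linear representative
  set e := (th (wt j) f').coeff 1 with he
  have hT : Tp (wt j) f' 1 e := Tp.self _ _ _ hd'
  have hg0 : (th (wt j) (f' - e)).natDegree ≤ 0 := Tp.sub_top (m := 0) hT
  have hga : ∀ a, (th (wt j) (pderiv (j, a) e)).natDegree ≤ 0 := fun a =>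
    (Tp.pderiv_in (m := 0) (j, a) (wt_self j a) hT.idem).1
  have heul := euler j hT.idem
  rw [Nat.cast_one, one_mul] at heul
  have hf'2 : f' = (f' - e) + ∑ a, X (j, a) * pderiv (j, a) e := by rw [heul]; ring
  have hconst : ∀ g : MvPolynomial (Fin n × Fin 3) k, (th (wt j) g).natDegree ≤ 0 →
      rho c (Finset.univ.erase j) g = C (c g) := by
    intro g hg
    have h2 : (rho c (Finset.univ.erase j)).comp (kap j) =
        ((Algebra.ofId D (MvPolynomial (Fin n × Fin 3) D)).restrictScalars k).comp
          (c.comp (kap j)) := by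
      apply algHom_ext
      rintro ⟨l', a⟩
      rw [AlgHom.comp_apply, AlgHom.comp_apply, AlgHom.comp_apply, kap, aeval_X]
      by_cases h2 : l' = j
      · simp [h2]
      · simp only [h2, if_false]
        rw [rho, aeval_X, if_pos (by simp [h2])]
        rfl
    have h3 := congrArg (fun F => F g) h2
    simp only [AlgHom.comp_apply, kap_eq_self hg] at h3
    exact h3
  have hrho : rho c (Finset.univ.erase j) f' = C (c (f' - e)) +
      ∑ a, X (j, a) * C (c (pderiv (j, a) e)) := by
    conv_lhs => rw [hf'2]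
    rw [map_add, hconst _ hg0, map_sum]
    congr 1
    refine Finset.sum_congr rfl (fun a _ => ?_)
    rw [map_mul, hconst _ (hga a)]
    congr 1
    rw [rho, aeval_X, if_neg (by simp)]
  -- comparing all substitutions
  have hS : ∀ S : Finset (Fin n), j ∉ S → rho c S f - rho c ∅ f ∈ ID D Ω ξ := by
    intro S
    induction S using Finset.induction_on with
    | empty => intro _; rw [sub_self]; exact Ideal.zero_mem _
    | insert a S ha ih =>
      intro hj
      have haj : a ≠ j := by rintro rfl; exact hj (Finset.mem_insert_self _ _)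
      obtain ⟨f'', hf'', hd''⟩ := h0 a haj
      have h2 := rho_insert (S := S) hc hf'' hd''
      have h3 := Ideal.add_mem _ h2 (ih (fun h => hj (Finset.mem_insert_of_mem h)))
      rwa [sub_add_sub_cancel] at h3
  have h2 := hS (Finset.univ.erase j) (Finset.notMem_erase _ _)
  have h3 := rho_mem hc (Finset.univ.erase j) hf'
  rw [map_sub] at h3
  have h4 := Ideal.sub_mem _ h3 h2
  rw [sub_sub_sub_cancel_left, hrho, rho_empty] at h4
  have h5 := lam_ID (l := l) h4
  refine ⟨l (c (f' - e)), fun a => l (c (pderiv (j, a) e)), ?_⟩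
  have h6 : lam l (∑ a, X (j, a) * C (c (pderiv (j, a) e)) :
      MvPolynomial (Fin n × Fin 3) D) =
      ∑ a, C (l (c (pderiv (j, a) e))) * X (j, a) := by
    rw [Fin.sum_univ_three, Fin.sum_univ_three, lam_add, lam_add]
    have h7 : ∀ a, lam l (X (j, a) * C (c (pderiv (j, a) e)) :
        MvPolynomial (Fin n × Fin 3) D) =
        C (l (c (pderiv (j, a) e))) * X (j, a) := by
      intro a
      have h8 := lam_mul_map l (X (j, a)) (C (c (pderiv (j, a) e)) :
        MvPolynomial (Fin n × Fin 3) D)
      rw [map_X, lam_C] at h8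
      rw [h8, mul_comm]
    rw [h7, h7, h7]
  rw [lam_sub, lam_add, lam_C, lam_map l hl, h6] at h5
  have h9 := neg_mem h5
  rwa [neg_sub] at h9

end Inter

end H658PD
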