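import Pool.Agent.H658.PD.Inter

namespace H658PD

open MvPolynomial

section MainA

variable {k : Type*} [Field k] {n : ℕ}
variable {Ω : Fin n → MvPolynomial (Fin 3) k} {ξ : Fin n → k} {d : Fin n → ℕ}
variable {φ : PA Ω ξ →ₐ[k] PA Ω ξ}

/-- An affine-linear form in the variables of block `j`. -/
noncomputable def lin (j : Fin n) (c0 : k) (c : Fin 3 → k) : MvPolynomial (Fin n × Fin 3) k :=
  C c0 + ∑ b, C (c b) * X (j, b)

/-- The homomorphism sends the variables of block `i` to linear forms in block `j`. -/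
def Lin (φ : PA Ω ξ →ₐ[k] PA Ω ξ) (i j : Fin n) (g : Matrix (Fin 3) (Fin 3) k)
    (c : Fin 3 → k) : Prop :=
  ∀ a, φ (cl Ω ξ (X (i, a))) = cl Ω ξ (lin j (c a) (g a))

/-- block `j` is in the image of a block of the same degree -/
def Good (d : Fin n → ℕ) (φ : PA Ω ξ →ₐ[k] PA Ω ξ) (j : Fin n) : Prop :=
  ∃ i, d i = d j ∧ ∀ b, ∃ W : MvPolynomial (Fin 3) k, φ (cl Ω ξ (emb i W)) = cl Ω ξ (X (j, b))

theorem Good.surj (h : ∀ j, Good d φ j) : Function.Surjective φ := by
  have h1 : (cl Ω ξ).range ≤ φ.range := by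
    have h2 : (cl Ω ξ).range = (Algebra.adjoin k (Set.range
        (X : Fin n × Fin 3 → MvPolynomial (Fin n × Fin 3) k))).map (cl Ω ξ) := by
      rw [adjoin_range_X, Algebra.map_top]
    rw [h2, AlgHom.map_adjoin, Algebra.adjoin_le_iff]
    rintro _ ⟨_, ⟨⟨j, b⟩, rfl⟩, rfl⟩
    obtain ⟨i, -, hi⟩ := h j
    obtain ⟨W, hW⟩ := hi b
    exact ⟨_, hW⟩
  intro x
  obtain ⟨f, rfl⟩ := cl_surj x
  exact h1 ⟨f, rfl⟩

/-- a linear relation among `1` and the variables of block `i` is trivial -/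
theorem lin_indep (hΩ : ∀ l, IsPot (Ω l) (d l)) (i : Fin n) {c0 : k} {c : Fin 3 → k}
    (h : lin i c0 c ∈ IS Ω ξ Finset.univ) : c = 0 := by
  have := prime_IS ξ hΩ (Finset.univ.erase i)
  have hdom : IsDomain (MvPolynomial (Fin n × Fin 3) k ⧸ IS Ω ξ (Finset.univ.erase i)) :=
    Ideal.Quotient.isDomain _
  have hd := (hΩ i).two
  have hlin : lin i c0 c = emb i (C c0 + ∑ b, C (c b) * X b) := by
    rw [lin, map_add, emb_C, map_sum]
    congr 1
    exact Finset.sum_congr rfl (fun b _ => by rw [map_mul, emb_C, emb_X])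
  have h1 : (th (wt i) (lin i c0 c)).natDegree ≤ 1 := by
    rw [lin, map_add]
    refine Polynomial.natDegree_add_le_of_degree_le ?_ ?_
    · rw [th_C]; simp
    · rw [map_sum]
      refine Polynomial.natDegree_sum_le_of_forall_le _ _ (fun b _ => ?_)
      rw [map_mul, th_C]
      refine (Polynomial.natDegree_C_mul_le _ _).trans ?_
      have := (Tp.var (R := k) (w := wt i) (i, b)).1
      rwa [wt_self] at this
  rw [← IJ_self Ω ξ i] at h
  have h2 := low_IJ ξ i hΩ h h1 (by omega)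
  have h3 := (tau_ker Ω ξ i (Finset.notMem_erase _ _) _).2 h2
  rw [hlin, tau_emb_self] at h3
  have h4 : (C c0 + ∑ b, C (c b) * X b : MvPolynomial (Fin 3) k) = 0 :=
    map_injective _ (algebraMap k _).injective (by rw [h3, map_zero])
  ext b
  have h5 := congrArg (pderiv b) h4
  rw [map_zero, map_add, pderiv_C, zero_add, map_sum] at h5
  simp only [pderiv_C_mul, pderiv_X, Pi.single_apply] at h5
  have h6 := congrArg constantCoeff h5
  simpa using h6

theorem Lin.det_ne (hΩ : ∀ l, IsPot (Ω l) (d l)) (hinj : Function.Injective φ) {i j : Fin n}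
    {g : Matrix (Fin 3) (Fin 3) k} {c : Fin 3 → k} (h : Lin φ i j g c) : g.det ≠ 0 := by
  intro hdet
  obtain ⟨v, hv, hvg⟩ := Matrix.exists_vecMul_eq_zero_iff.2 hdet
  apply hv
  refine lin_indep (ξ := ξ) (c0 := -∑ a, v a * c a) hΩ i (c := v) ?_
  rw [← cl_zero]
  apply hinj
  rw [map_zero, lin, map_add, map_add, map_sum, map_sum]
  have h1 : ∀ a, φ (cl Ω ξ (C (v a) * X (i, a))) = cl Ω ξ (C (v a) * lin j (c a) (g a)) := by
    intro a
    rw [map_mul, map_mul, h a, map_mul]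
    congr 1
    exact φ.commutes (v a)
  have h2 : φ (cl Ω ξ (C (-∑ a, v a * c a))) = cl Ω ξ (C (-∑ a, v a * c a)) :=
    φ.commutes _
  rw [Finset.sum_congr rfl (fun a _ => h1 a), h2, ← map_sum, ← map_add]
  have h3 : (C (-∑ a, v a * c a) + ∑ a, C (v a) * lin j (c a) (g a) :
      MvPolynomial (Fin n × Fin 3) k) = 0 := by
    have h4 : ∀ b, ∑ a, v a * g a b = 0 := fun b => congrFun hvg b
    simp only [lin, mul_add, Finset.sum_add_distrib, Finset.mul_sum]
    rw [Finset.sum_comm]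
    have h5 : ∀ b, ∑ a, (C (v a) * (C (g a b) * X (j, b)) : MvPolynomial (Fin n × Fin 3) k) = 0 := by
      intro b
      rw [Finset.sum_congr rfl (fun a _ => (mul_assoc _ _ _).symm), ← Finset.sum_mul]
      have : ∑ a, (C (v a) * C (g a b) : MvPolynomial (Fin n × Fin 3) k) =
          C (∑ a, v a * g a b) := by
        rw [map_sum]; exact Finset.sum_congr rfl (fun a _ => by rw [C_mul])
      rw [this, h4, C_0, zero_mul]
    rw [Finset.sum_congr rfl (fun b _ => h5 b), Finset.sum_const_zero, add_zero, map_neg, map_sum]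
    simp [C_mul]
  rw [h3, map_zero]

theorem Lin.good (hΩ : ∀ l, IsPot (Ω l) (d l)) (hinj : Function.Injective φ) {i j : Fin n}
    (hij : d i = d j)
    {g : Matrix (Fin 3) (Fin 3) k} {c : Fin 3 → k} (h : Lin φ i j g c) : Good d φ j := by
  have hdet := h.det_ne hΩ hinj
  refine ⟨i, hij, fun b => ⟨∑ a, C (g⁻¹ b a) * (X a - C (c a)), ?_⟩⟩
  have hgi : g⁻¹ * g = 1 := Matrix.nonsing_inv_mul _ (isUnit_iff_ne_zero.2 hdet)
  have h1 : ∀ a, φ (cl Ω ξ (emb i (C (g⁻¹ b a) * (X a - C (c a))))) =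
      cl Ω ξ (C (g⁻¹ b a) * (lin j (c a) (g a) - C (c a))) := by
    intro a
    rw [map_mul, map_sub, emb_C, emb_C, emb_X, map_mul, map_mul, map_sub, map_sub, h a, map_mul,
      map_sub]
    congr 1
    · exact φ.commutes _
    · congr 1; exact φ.commutes _
  rw [map_sum, map_sum, map_sum, Finset.sum_congr rfl (fun a _ => h1 a), ← map_sum]
  congr 1
  have h2 : ∀ a, (C (g⁻¹ b a) * (lin j (c a) (g a) - C (c a)) : MvPolynomial (Fin n × Fin 3) k) =
      ∑ b', C (g⁻¹ b a * g a b') * X (j, b') := by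
    intro a
    rw [lin, add_sub_cancel_left, Finset.mul_sum]
    exact Finset.sum_congr rfl (fun b' _ => by rw [C_mul]; ring)
  rw [Finset.sum_congr rfl (fun a _ => h2 a), Finset.sum_comm]
  have h3 : ∀ b', ∑ a, (C (g⁻¹ b a * g a b') * X (j, b') : MvPolynomial (Fin n × Fin 3) k) =
      if b = b' then X (j, b') else 0 := by
    intro b'
    rw [← Finset.sum_mul, ← map_sum]
    have : ∑ a, g⁻¹ b a * g a b' = (g⁻¹ * g) b b' := rfl
    rw [this, hgi, Matrix.one_apply]
    split_ifs <;> simp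
  rw [Finset.sum_congr rfl (fun b' _ => h3 b')]
  simp

theorem Qd_of_comm [CharZero k] (hΩ : ∀ l, IsPot (Ω l) (d l)) {i j : Fin n}
    {Y : Fin 3 → MvPolynomial (Fin n × Fin 3) k} (hY : Rep φ i Y)
    (h : ∀ a b, br Ω (Y a) (X (j, b)) ∈ IS Ω ξ Finset.univ) : Qd φ i j 0 := by
  have h1 : ∀ a, ∃ p', Y a - p' ∈ IS Ω ξ Finset.univ ∧ (th (wt j) p').natDegree ≤ 0 :=
    fun a => lemZ hΩ j _ (Y a) le_rfl (h a)
  choose Y' hY' using h1
  exact ⟨Y', hY.congr (fun a => (hY' a).1), fun a => (hY' a).2⟩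

theorem comm_of_good (hφ : IsPH φ) {i i' j : Fin n} (hne : i' ≠ i)
    {Y : Fin 3 → MvPolynomial (Fin n × Fin 3) k} (hY : Rep φ i Y) {b : Fin 3}
    {W : MvPolynomial (Fin 3) k} (hW : φ (cl Ω ξ (emb i' W)) = cl Ω ξ (X (j, b))) (a : Fin 3) :
    br Ω (Y a) (X (j, b)) ∈ IS Ω ξ Finset.univ := by
  have h1 := hφ _ _ _ _ (hY a) hW
  have h2 : br Ω (X (i, a)) (emb i' W) = 0 := by
    rw [br]
    refine Finset.sum_eq_zero (fun l _ => ?_)
    by_cases hl : l = i
    · subst hl
      rw [blk_swap, blk_of_grad_zero Ω l (fun a => pderiv_emb_ne hne a W), neg_zero]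
    · refine blk_of_grad_zero Ω l (fun a => ?_) _
      exact pderiv_X_of_ne (fun h2 => hl (Prod.mk.inj h2).1.symm)
  rw [h2, map_zero, map_zero] at h1
  exact cl_zero.1 h1.symm

theorem main_step [CharZero k] (hΩ : ∀ l, IsPot (Ω l) (d l)) (hφ : IsPH φ)
    (hinj : Function.Injective φ) (D : ℕ) (H : ∀ j, D < d j → Good d φ j) :
    (∀ i, d i = D → ∃ j, d j = D ∧ ∃ g c, Lin φ i j g c) ∧ (∀ j, d j = D → Good d φ j) := by
  classical
  have hlow : ∀ i l, d i = D → d l ≠ D → Qd φ i l 0 := by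
    intro i l hi hl
    rcases lt_or_gt_of_ne hl with h1 | h1
    · exact stepA_zero hΩ hφ (by rw [hi]; exact h1)
    · obtain ⟨i', hi', hW⟩ := H l h1
      have hne : i' ≠ i := by rintro rfl; omega
      obtain ⟨Y, hY⟩ := rep_exists φ i
      refine Qd_of_comm hΩ hY (fun a b => ?_)
      obtain ⟨W, hW'⟩ := hW b
      exact comm_of_good hφ hne hY hW' a
  have hex : ∀ i, ∃ j, ¬ Qd φ i j 0 := fun i => exists_pos hΩ hφ hinj i
  choose s hs using hex
  have hsD : ∀ i, d i = D → d (s i) = D := by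
    intro i hi
    by_contra hcon
    exact hs i (hlow i _ hi hcon)
  have hsinj : ∀ i i', d i = D → d i' = D → s i = s i' → i = i' := by
    intro i i' hi hi' heq
    by_contra hne
    exact stepB hΩ hφ hne (j := s i) (by rw [hi, hsD i hi]) (by rw [hi', hsD i hi])
      (hs i) (by rw [heq]; exact hs i')
  have hsurj : ∀ j, d j = D → ∃ i, d i = D ∧ s i = j := by
    have h1 : Function.Injective (fun i : {i : Fin n // d i = D} =>
        (⟨s i.1, hsD i.1 i.2⟩ : {i : Fin n // d i = D})) := by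
      intro x y hxy
      exact Subtype.ext (hsinj x.1 y.1 x.2 y.2 (Subtype.mk.inj hxy))
    have h2 := Finite.surjective_of_injective h1
    intro j hj
    obtain ⟨i, hi⟩ := h2 ⟨j, hj⟩
    exact ⟨i.1, i.2, Subtype.mk.inj hi⟩
  have hzero : ∀ i l, d i = D → l ≠ s i → Qd φ i l 0 := by
    intro i l hi hl
    by_cases hlD : d l = D
    · obtain ⟨i', hi', rfl⟩ := hsurj l hlD
      by_contra hcon
      have hne : i ≠ i' := by rintro rfl; exact hl rfl
      exact stepB hΩ hφ hne (j := s i') (by rw [hi, hlD]) (by rw [hi', hlD]) hcon (hs i')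
    · exact hlow i l hi hlD
  have hLin : ∀ i, d i = D → ∃ g c, Lin φ i (s i) g c := by
    intro i hi
    obtain ⟨Y, hY⟩ := rep_exists φ i
    have hpr := prime_IS ξ hΩ Finset.univ
    have hdom : IsDomain (PA Ω ξ) := Ideal.Quotient.isDomain _
    have h1 : ∀ a, ∃ (c0 : k) (c : Fin 3 → k), Y a - lin (s i) c0 c ∈ IS Ω ξ Finset.univ := by
      intro a
      refine inter (D := PA Ω ξ) (c := cl Ω ξ) (fun f hf => cl_zero.2 hf) (s i) (Y a) ?_ ?_
      · intro l hl
        obtain ⟨Y', hY', hd'⟩ := hzero i l hi hl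
        exact ⟨Y' a, cl_eq.1 (by rw [← hY a, ← hY' a]), hd' a⟩
      · obtain ⟨Y', hY', hd'⟩ := stepA_one hΩ hφ (i := i) (j := s i) (by rw [hi, hsD i hi])
        exact ⟨Y' a, cl_eq.1 (by rw [← hY a, ← hY' a]), hd' a⟩
    choose c g hgc using h1
    exact ⟨g, c, fun a => by rw [hY a]; exact cl_eq.2 (hgc a)⟩
  refine ⟨fun i hi => ⟨s i, hsD i hi, hLin i hi⟩, fun j hj => ?_⟩
  obtain ⟨i, hi, rfl⟩ := hsurj j hj
  obtain ⟨g, c, hgc⟩ := hLin i hi
  exact hgc.good hΩ hinj (by rw [hi, hsD i hi])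

theorem good_all [CharZero k] (hΩ : ∀ l, IsPot (Ω l) (d l)) (hφ : IsPH φ)
    (hinj : Function.Injective φ) (j : Fin n) : Good d φ j := by
  classical
  set B := ∑ l, d l with hB
  have hle : ∀ l, d l ≤ B := fun l => Finset.single_le_sum (fun _ _ => Nat.zero_le _)
    (Finset.mem_univ l)
  have key : ∀ m : ℕ, ∀ j, B - d j < m → Good d φ j := by
    intro m
    induction m with
    | zero => intro j hj; omega
    | succ m ih =>
      intro j hj
      refine (main_step hΩ hφ hinj (d j) (fun l hl => ?_)).2 j rfl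
      refine ih l ?_
      have := hle l
      omega
  exact key (B - d j + 1) j (Nat.lt_succ_self _)

theorem main_surj [CharZero k] (hΩ : ∀ l, IsPot (Ω l) (d l)) (hφ : IsPH φ)
    (hinj : Function.Injective φ) : Function.Surjective φ :=
  Good.surj (fun j => good_all hΩ hφ hinj j)

theorem main_lin [CharZero k] (hΩ : ∀ l, IsPot (Ω l) (d l)) (hφ : IsPH φ)
    (hinj : Function.Injective φ) (i : Fin n) : ∃ j, d j = d i ∧ ∃ g c, Lin φ i j g c :=
  (main_step hΩ hφ hinj (d i) (fun j _ => good_all hΩ hφ hinj j)).1 i rfl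

end MainA

end H658PD
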