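import Pool.Agent.H658.PD.MainA
import Pool.Agent.H658.PD.GroupD

namespace H658PD

open MvPolynomial

section Transfer

variable {k : Type*} [Field k]

theorem IsPot.mapK {Ω : MvPolynomial (Fin 3) k} {d : ℕ} (h : IsPot Ω d)
    (K : Type*) [Field K] [Algebra k K] : IsPot (map (algebraMap k K) Ω) d := by
  refine ⟨homog_map h.hom, h.two, ?_⟩
  obtain ⟨m, hm⟩ := h.pow
  refine ⟨m, fun a => ?_⟩
  have h1 : jac Ω ≤ (jac (map (algebraMap k K) Ω)).comap (map (algebraMap k K)) := by
    conv_lhs => rw [jac]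
    rw [Ideal.span_le]
    rintro _ ⟨c, rfl⟩
    change map (algebraMap k K) (pderiv c Ω) ∈ jac (map (algebraMap k K) Ω)
    rw [← pderiv_map]
    exact Ideal.subset_span ⟨c, rfl⟩
  have h2 := h1 (hm a)
  rwa [Ideal.mem_comap, map_pow, map_X] at h2

theorem map_act {K : Type*} [Field K] [Algebra k K] (g : Matrix (Fin 3) (Fin 3) k)
    (F : MvPolynomial (Fin 3) k) :
    map (algebraMap k K) (act g F) = act (g.map (algebraMap k K)) (map (algebraMap k K) F) := by
  induction F using MvPolynomial.induction_on with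
  | C a => rw [act_C, map_C, act_C]
  | add p q hp hq => rw [map_add, map_add, hp, hq, map_add, map_add]
  | mul_X p s hp =>
    rw [map_mul, map_mul, hp, map_mul, map_mul, map_X, act_X, act_X, map_sum]
    congr 1
    exact Finset.sum_congr rfl (fun b _ => by rw [map_mul, map_C, map_X, Matrix.map_apply])

theorem finite_G' [CharZero k] {Ω : MvPolynomial (Fin 3) k} {d : ℕ}
    (hΩ : IsPot Ω d) : {h : Matrix (Fin 3) (Fin 3) k | InG Ω h}.Finite := by
  have hK : CharZero (AlgebraicClosure k) :=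
    charZero_of_injective_algebraMap (algebraMap k (AlgebraicClosure k)).injective
  have h1 := finite_G (hΩ.mapK (AlgebraicClosure k))
  refine Set.Finite.of_injOn (f := fun g : Matrix (Fin 3) (Fin 3) k =>
    g.map (algebraMap k (AlgebraicClosure k))) ?_ ?_ h1
  · intro g hg
    have hdet : (g.map (algebraMap k (AlgebraicClosure k))).det =
        algebraMap k (AlgebraicClosure k) g.det := by
      rw [RingHom.map_det]; rfl
    refine ⟨?_, ?_⟩
    · rw [hdet]
      exact (map_ne_zero _).2 hg.1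
    · rw [← map_act, hg.2, map_mul, map_C, hdet]
  · intro g _ g' _ heq
    ext a b
    have := congrFun (congrFun heq a) b
    exact (algebraMap k (AlgebraicClosure k)).injective this

theorem finite_F [CharZero k] {Ω Ω' : MvPolynomial (Fin 3) k} {d : ℕ}
    (hΩ' : IsPot Ω' d) :
    {g : Matrix (Fin 3) (Fin 3) k | g.det ≠ 0 ∧ act g Ω = C g.det * Ω'}.Finite := by
  by_cases hne : ∃ g0 : Matrix (Fin 3) (Fin 3) k, g0.det ≠ 0 ∧ act g0 Ω = C g0.det * Ω'
  · obtain ⟨g0, hg0, hg0'⟩ := hne
    refine ((finite_G' hΩ').image (fun h => g0 * h)).subset ?_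
    rintro g ⟨hg, hg'⟩
    have hu : IsUnit g0.det := isUnit_iff_ne_zero.2 hg0
    refine ⟨g0⁻¹ * g, ⟨?_, ?_⟩, by simp only [← mul_assoc, Matrix.mul_nonsing_inv _ hu, one_mul]⟩
    · rw [Matrix.det_mul]
      refine mul_ne_zero ?_ hg
      rw [Matrix.det_nonsing_inv]
      exact (IsUnit.ringInverse hu).ne_zero
    · have hdet : g0.det * (g0⁻¹ * g).det = g.det := by
        rw [← Matrix.det_mul, ← mul_assoc, Matrix.mul_nonsing_inv _ hu, one_mul]
      have h1 : act (g0⁻¹ * g) (act g0 Ω) = act g Ω := by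
        rw [act_act, ← mul_assoc, Matrix.mul_nonsing_inv _ hu, one_mul]
      rw [hg0', hg', map_mul, act_C, ← hdet, C_mul, mul_assoc] at h1
      exact mul_left_cancel₀ (fun h0 => hg0 (C_injective _ _ (by rw [h0, C_0]))) h1
  · have : {g : Matrix (Fin 3) (Fin 3) k | g.det ≠ 0 ∧ act g Ω = C g.det * Ω'} = ∅ := by
      ext g
      simp only [Set.mem_empty_iff_false, iff_false]
      exact fun h => hne ⟨g, h⟩
    rw [this]; exact Set.finite_empty

end Transfer

section MainB

variable {k : Type*} [Field k] {n : ℕ}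
variable {Ω : Fin n → MvPolynomial (Fin 3) k} {ξ : Fin n → k} {d : Fin n → ℕ}
variable {φ : PA Ω ξ →ₐ[k] PA Ω ξ}

/-- affine-linear substitution -/
noncomputable def sb (g : Matrix (Fin 3) (Fin 3) k) (c : Fin 3 → k) :
    Fin 3 → MvPolynomial (Fin 3) k := fun a => C (c a) + ∑ b, C (g a b) * X b

theorem emb_sb (j : Fin n) (g : Matrix (Fin 3) (Fin 3) k) (c : Fin 3 → k) (a : Fin 3) :
    emb j (sb g c a) = lin j (c a) (g a) := by
  rw [sb, lin, map_add, emb_C, map_sum]
  congr 1
  exact Finset.sum_congr rfl (fun b _ => by rw [map_mul, emb_C, emb_X])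

theorem pderiv_sb (g : Matrix (Fin 3) (Fin 3) k) (c : Fin 3 → k) (a b : Fin 3) :
    pderiv b (sb g c a) = C (g a b) := by
  rw [sb, map_add, pderiv_C, zero_add, map_sum, Finset.sum_eq_single b]
  · rw [pderiv_C_mul, pderiv_X_self, mul_one]
  · intro c _ hc
    rw [pderiv_C_mul, pderiv_X_of_ne hc, mul_zero]
  · intro h; exact absurd (Finset.mem_univ _) h

theorem aeval_lin (j : Fin n) (g : Matrix (Fin 3) (Fin 3) k) (c : Fin 3 → k)
    (P : MvPolynomial (Fin 3) k) :
    aeval (fun a => lin j (c a) (g a)) P = emb j (aeval (sb g c) P) := by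
  induction P using MvPolynomial.induction_on with
  | C a => rw [aeval_C, aeval_C, algebraMap_eq, algebraMap_eq, emb_C]
  | add p q hp hq => rw [map_add, map_add, hp, hq, map_add]
  | mul_X p s hp => rw [map_mul, map_mul, hp, map_mul, aeval_X, aeval_X, emb_sb]

theorem br_emb (j : Fin n) (F G : MvPolynomial (Fin 3) k) :
    br Ω (emb j F) (emb j G) =
      emb j (D3 (fun a => pderiv a F) (fun a => pderiv a G) (fun a => pderiv a (Ω j))) := by
  classical
  rw [br, Finset.sum_eq_single j]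
  · rw [blk_eq]
    simp only [D3, grad, dΩ, pderiv_emb_self, map_add, map_sub, map_mul]
  · intro l _ hl
    exact blk_of_grad_zero Ω l (fun a => pderiv_emb_ne (Ne.symm hl) a F) _
  · intro h; exact absurd (Finset.mem_univ _) h

theorem th_emb (j : Fin n) (F : MvPolynomial (Fin 3) k) :
    th (wt j) (emb j F) = Polynomial.map
      ((emb j : _ →ₐ[k] _) : MvPolynomial (Fin 3) k →+* MvPolynomial (Fin n × Fin 3) k)
      (th (fun _ => 1) F) := by
  refine th_comp_hom (fun _ => 1) (wt j) (emb j) ?_ ?_ F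
  · intro r; rw [emb_C, th_C]
  · intro a; rw [emb_X, th_X, wt_self]

theorem pure_low (hΩ : ∀ l, IsPot (Ω l) (d l)) {j : Fin n} {P : MvPolynomial (Fin 3) k}
    (h : emb j P ∈ IS Ω ξ Finset.univ) {m : ℕ} (hP : (th (fun _ => 1) P).natDegree ≤ m)
    (hm : m < d j) : P = 0 := by
  have := prime_IS ξ hΩ (Finset.univ.erase j)
  have hdom : IsDomain (MvPolynomial (Fin n × Fin 3) k ⧸ IS Ω ξ (Finset.univ.erase j)) :=
    Ideal.Quotient.isDomain _
  rw [← IJ_self Ω ξ j] at h
  have h1 : (th (wt j) (emb j P)).natDegree ≤ m := by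
    rw [th_emb]; exact Polynomial.natDegree_map_le.trans hP
  have h2 := low_IJ ξ j hΩ h h1 hm
  have h3 := (tau_ker Ω ξ j (Finset.notMem_erase _ _) _).2 h2
  rw [tau_emb_self] at h3
  exact map_injective _ (algebraMap k _).injective (by rw [h3, map_zero])

theorem Tp.sb (g : Matrix (Fin 3) (Fin 3) k) (c : Fin 3 → k) (a : Fin 3) :
    Tp (fun _ => 1) (sb g c a) 1 (∑ b, C (g a b) * X b) := by
  have h1 : Tp (fun _ => 1) (C (c a) : MvPolynomial (Fin 3) k) 1 0 := (Tp.const (c a)).lt (by norm_num)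
  have h2 : ∀ b, Tp (fun _ => 1) (C (g a b) * X b : MvPolynomial (Fin 3) k) 1 (C (g a b) * X b) :=
    fun b => ((Tp.const (w := fun _ => 1) (g a b)).mul (Tp.var b)).congr (by norm_num) rfl
  rw [H658PD.sb, Fin.sum_univ_three]
  exact (h1.add (((h2 0).add (h2 1)).add (h2 2))).congr rfl (by rw [zero_add])

theorem constantCoeff_sb (g : Matrix (Fin 3) (Fin 3) k) (c : Fin 3 → k)
    (P : MvPolynomial (Fin 3) k) : constantCoeff (aeval (sb g c) P) = aeval c P := by
  induction P using MvPolynomial.induction_on with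
  | C a => rw [aeval_C, aeval_C, algebraMap_eq, constantCoeff_C]; rfl
  | add p q hp hq => rw [map_add, map_add, hp, hq, map_add]
  | mul_X p s hp =>
    rw [map_mul, map_mul, hp, map_mul, aeval_X, aeval_X]
    congr 1
    simp [H658PD.sb]

theorem Lin.props [CharZero k] (hΩ : ∀ l, IsPot (Ω l) (d l)) (hφ : IsPH φ) {i j : Fin n}
    (hij : d j = d i) {g : Matrix (Fin 3) (Fin 3) k} {c : Fin 3 → k} (h : Lin φ i j g c) :
    c = 0 ∧ act g (Ω i) = C g.det * Ω j := by
  have hdi := (hΩ i).two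
  have hRep : Rep φ i (fun a => lin j (c a) (g a)) := h
  have hE : ∀ e, D3 (fun b => C (g (e + 1) b)) (fun b => C (g (e + 2) b))
      (fun b => pderiv b (Ω j)) = aeval (sb g c) (pderiv e (Ω i)) := by
    intro e
    have h1 := hRep.br hφ e
    rw [← emb_sb, ← emb_sb, br_emb, aeval_lin, ← map_sub] at h1
    have h2 : Tp (fun _ => 1) (D3 (fun a => pderiv a (sb g c (e + 1)))
        (fun a => pderiv a (sb g c (e + 2))) (fun a => pderiv a (Ω j))) (0 + (0 + (d j - 1)))
        (D3 (fun a => C (g (e + 1) a)) (fun a => C (g (e + 2) a)) (fun a => pderiv a (Ω j))) := by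
      refine Tp.D3 (fun a => ?_) (fun a => ?_) (fun a => ?_)
      · rw [pderiv_sb]; exact Tp.const _
      · rw [pderiv_sb]; exact Tp.const _
      · have h3 := th_homog (homog_pderiv (hΩ j).hom a)
        refine ⟨?_, ?_⟩
        · rw [h3]; exact Polynomial.natDegree_monomial_le _
        · rw [h3, Polynomial.coeff_monomial, if_pos rfl]
    have h3 := Tp.aeval (fun a => Tp.sb g c a) (homog_pderiv (hΩ i).hom e)
    have h4 := h2.sub (h3.congr (n := 0 + (0 + (d j - 1))) (by omega) rfl)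
    have h5 := pure_low hΩ h1 h4.1 (by omega)
    simp only [pderiv_sb] at h5
    exact sub_eq_zero.1 h5
  have hc : c = 0 := by
    ext a
    have hp : (⊥ : Ideal k).IsPrime := Ideal.isPrime_bot
    have := (hΩ i).pow_mem (A := k) ⊥ c (fun e => by
      rw [Ideal.mem_bot, ← constantCoeff_sb g c, ← hE e]
      have h0 : ∀ b, constantCoeff (pderiv b (Ω j)) = 0 := fun b =>
        constantCoeff_of_pos (n := d j - 1) (by omega) (th_homog (homog_pderiv (hΩ j).hom b))
      simp only [D3, map_add, map_sub, map_mul, h0, mul_zero, sub_zero, add_zero]) a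
    simpa using this
  refine ⟨hc, ?_⟩
  have hact : ∀ P, aeval (sb g c) P = act g P := by
    intro P
    rw [act, hc]
    congr 2
    ext1 a
    rw [sb]
    simp
  simp only [hact] at hE
  have hgrad : ∀ b, pderiv b (act g (Ω i) - C g.det * Ω j) = 0 := by
    intro b
    rw [map_sub, pderiv_act, pderiv_C_mul, Fin.sum_univ_three, ← hE 0, ← hE 1, ← hE 2,
      Matrix.det_fin_three]
    simp only [D3, map_add, map_sub, map_mul, Fin.reduceAdd, zero_add]
    fin_cases b <;> simp only [Fin.zero_eta, Fin.mk_one, Fin.reduceFinMk] <;> ring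
  have hhom : (act g (Ω i) - C g.det * Ω j).IsHomogeneous (d i) := by
    refine IsHomogeneous.sub ?_ ?_
    · rw [act]
      have h1 : ∀ a, (∑ b, C (g a b) * X b : MvPolynomial (Fin 3) k).IsHomogeneous 1 := by
        intro a
        refine IsHomogeneous.sum _ _ _ (fun b _ => ?_)
        exact (isHomogeneous_X k b).C_mul _
      have h2 := (hΩ i).hom.aeval _ h1
      rwa [one_mul] at h2
    · rw [← hij]; exact (hΩ j).hom.C_mul _
  have h1 := euler1 hhom
  simp only [hgrad, mul_zero, Finset.sum_const_zero] at h1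
  have h2 := (mul_eq_zero.1 h1.symm).resolve_left (by
    intro h0
    have h3 : ((d i : ℕ) : MvPolynomial (Fin 3) k) = C ((d i : ℕ) : k) := by rw [map_natCast]
    rw [h3] at h0
    have h4 : ((d i : ℕ) : k) = 0 := C_injective _ _ (by rw [h0, C_0])
    have h5 : d i = 0 := by exact_mod_cast h4
    omega)
  exact sub_eq_zero.1 h2

theorem finite_endo [CharZero k] (hΩ : ∀ l, IsPot (Ω l) (d l)) :
    {φ : PA Ω ξ →ₐ[k] PA Ω ξ | IsPH φ ∧ Function.Injective φ}.Finite := by
  classical
  set Fs : Fin n → Set (Fin n × Matrix (Fin 3) (Fin 3) k) := fun i =>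
    ⋃ j : Fin n, (fun g => (j, g)) '' {g : Matrix (Fin 3) (Fin 3) k | g.det ≠ 0 ∧
      act g (Ω i) = C g.det * Ω j} with hFs
  have hfin : (Set.pi Set.univ Fs).Finite :=
    Set.Finite.pi (fun i => Set.finite_iUnion (fun j => (finite_F (hΩ j)).image _))
  refine (hfin.biUnion (t := fun D => {φ : PA Ω ξ →ₐ[k] PA Ω ξ | ∀ i a,
    φ (cl Ω ξ (X (i, a))) = cl Ω ξ (lin (D i).1 0 ((D i).2 a))}) (fun D _ => ?_)).subset ?_
  · refine Set.Subsingleton.finite ?_
    intro φ hφ ψ hψ
    have h1 : φ.comp (cl Ω ξ) = ψ.comp (cl Ω ξ) := by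
      apply algHom_ext
      rintro ⟨i, a⟩
      rw [AlgHom.comp_apply, AlgHom.comp_apply, hφ i a, hψ i a]
    ext x
    obtain ⟨f, rfl⟩ := cl_surj x
    exact congrArg (fun F => F f) h1
  · rintro φ ⟨hφ, hinj⟩
    have h1 : ∀ i, ∃ p : Fin n × Matrix (Fin 3) (Fin 3) k, p ∈ Fs i ∧
        Lin φ i p.1 p.2 0 := by
      intro i
      obtain ⟨j, hj, g, c, hL⟩ := main_lin hΩ hφ hinj i
      obtain ⟨hc, hact⟩ := hL.props hΩ hφ hj
      subst hc
      exact ⟨(j, g), Set.mem_iUnion.2 ⟨j, g, ⟨hL.det_ne hΩ hinj, hact⟩, rfl⟩, hL⟩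
    choose D hD using h1
    refine Set.mem_biUnion (x := D) (fun i _ => (hD i).1) ?_
    intro i a
    exact (hD i).2 a

end MainB

end H658PD
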