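import Pool.Agent.H658.PD.Bracket

namespace H658PD

open MvPolynomial

section Steps

variable {k : Type*} [Field k] {n : ℕ}

/-- The Poisson algebra, as a commutative algebra. -/
abbrev PA (Ω : Fin n → MvPolynomial (Fin 3) k) (ξ : Fin n → k) : Type _ :=
  MvPolynomial (Fin n × Fin 3) k ⧸ IS Ω ξ Finset.univ

/-- The class of a polynomial. -/
noncomputable abbrev cl (Ω : Fin n → MvPolynomial (Fin 3) k) (ξ : Fin n → k) :
    MvPolynomial (Fin n × Fin 3) k →ₐ[k] PA Ω ξ := Ideal.Quotient.mkₐ k (IS Ω ξ Finset.univ)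

variable {Ω : Fin n → MvPolynomial (Fin 3) k} {ξ : Fin n → k} {d : Fin n → ℕ}

theorem cl_eq {f g : MvPolynomial (Fin n × Fin 3) k} :
    cl Ω ξ f = cl Ω ξ g ↔ f - g ∈ IS Ω ξ Finset.univ :=
  Ideal.Quotient.mk_eq_mk_iff_sub_mem f g

theorem cl_zero {f : MvPolynomial (Fin n × Fin 3) k} :
    cl Ω ξ f = 0 ↔ f ∈ IS Ω ξ Finset.univ :=
  Ideal.Quotient.eq_zero_iff_mem

theorem cl_surj (x : PA Ω ξ) : ∃ f, cl Ω ξ f = x := Ideal.Quotient.mk_surjective x

/-- Compatibility with the bracket, in terms of representatives. -/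
def IsPH (φ : PA Ω ξ →ₐ[k] PA Ω ξ) : Prop :=
  ∀ f g f' g', φ (cl Ω ξ f) = cl Ω ξ f' → φ (cl Ω ξ g) = cl Ω ξ g' →
    φ (cl Ω ξ (br Ω f g)) = cl Ω ξ (br Ω f' g')

/-- `Y` represents the images of the variables of block `i`. -/
def Rep (φ : PA Ω ξ →ₐ[k] PA Ω ξ) (i : Fin n)
    (Y : Fin 3 → MvPolynomial (Fin n × Fin 3) k) : Prop :=
  ∀ a, φ (cl Ω ξ (X (i, a))) = cl Ω ξ (Y a)

/-- the images of block `i` have representatives of weight at most `q` in block `j` -/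
def Qd (φ : PA Ω ξ →ₐ[k] PA Ω ξ) (i j : Fin n) (q : ℕ) : Prop :=
  ∃ Y, Rep φ i Y ∧ ∀ a, (th (wt j) (Y a)).natDegree ≤ q

variable {φ : PA Ω ξ →ₐ[k] PA Ω ξ}

theorem rep_exists (φ : PA Ω ξ →ₐ[k] PA Ω ξ) (i : Fin n) : ∃ Y, Rep φ i Y := by
  choose Y hY using fun a => cl_surj (φ (cl Ω ξ (X (i, a))))
  exact ⟨Y, fun a => (hY a).symm⟩

theorem Rep.congr {i : Fin n} {Y Y' : Fin 3 → MvPolynomial (Fin n × Fin 3) k}
    (h : Rep φ i Y) (h' : ∀ a, Y a - Y' a ∈ IS Ω ξ Finset.univ) : Rep φ i Y' := by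
  intro a; rw [h a]; exact cl_eq.2 (h' a)

theorem Rep.aeval {i : Fin n} {Y : Fin 3 → MvPolynomial (Fin n × Fin 3) k} (h : Rep φ i Y)
    (F : MvPolynomial (Fin 3) k) : φ (cl Ω ξ (emb i F)) = cl Ω ξ (aeval Y F) := by
  have : (φ.comp (cl Ω ξ)).comp (emb i) = (cl Ω ξ).comp (MvPolynomial.aeval Y) := by
    apply algHom_ext
    intro a
    rw [AlgHom.comp_apply, AlgHom.comp_apply, AlgHom.comp_apply, emb_X, aeval_X, h a]
  exact congrArg (fun f => f F) this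

theorem Rep.br {i : Fin n} {Y : Fin 3 → MvPolynomial (Fin n × Fin 3) k} (h : Rep φ i Y)
    (hφ : IsPH φ) (c : Fin 3) :
    br Ω (Y (c + 1)) (Y (c + 2)) - MvPolynomial.aeval Y (pderiv c (Ω i)) ∈
      IS Ω ξ Finset.univ := by
  have h1 := hφ _ _ _ _ (h (c + 1)) (h (c + 2))
  rw [br_X_X, h.aeval] at h1
  exact cl_eq.1 h1.symm

theorem Rep.br_ne {i i' : Fin n} (hii : i ≠ i')
    {Y Y' : Fin 3 → MvPolynomial (Fin n × Fin 3) k} (h : Rep φ i Y) (h' : Rep φ i' Y')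
    (hφ : IsPH φ) (a b : Fin 3) : H658PD.br Ω (Y a) (Y' b) ∈ IS Ω ξ Finset.univ := by
  have h1 := hφ _ _ _ _ (h a) (h' b)
  rw [br_X_ne hii, map_zero, map_zero] at h1
  exact cl_zero.1 h1.symm

theorem exists_Qd (φ : PA Ω ξ →ₐ[k] PA Ω ξ) (i j : Fin n) : ∃ q, Qd φ i j q := by
  obtain ⟨Y, hY⟩ := rep_exists φ i
  refine ⟨Finset.univ.sup (fun a => (th (wt j) (Y a)).natDegree), Y, hY, fun a => ?_⟩
  exact Finset.le_sup (f := fun a => (th (wt j) (Y a)).natDegree) (Finset.mem_univ a)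

theorem X_notMem_IJ (hΩ : ∀ l, IsPot (Ω l) (d l)) (j : Fin n) (x : k) (a : Fin 3) :
    (X (j, a) : MvPolynomial (Fin n × Fin 3) k) ∉ IJ Ω ξ j x := by
  intro h
  have := prime_IS ξ hΩ (Finset.univ.erase j)
  have hdom : IsDomain (MvPolynomial (Fin n × Fin 3) k ⧸ IS Ω ξ (Finset.univ.erase j)) :=
    Ideal.Quotient.isDomain _
  have hd := (hΩ j).two
  have h1 : (th (wt j) (X (j, a) : MvPolynomial (Fin n × Fin 3) k)).natDegree ≤ 1 := by
    have := (Tp.var (R := k) (w := wt j) (j, a)).1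
    rwa [wt_self] at this
  have h2 := low_IJ ξ j hΩ h h1 (by omega)
  have h3 := (tau_ker Ω ξ j (Finset.notMem_erase _ _) _).2 h2
  rw [tau_X_self] at h3
  exact X_ne_zero a h3

theorem X_notMem (hΩ : ∀ l, IsPot (Ω l) (d l)) (j : Fin n) (a : Fin 3) :
    (X (j, a) : MvPolynomial (Fin n × Fin 3) k) ∉ IS Ω ξ Finset.univ := by
  rw [← IJ_self Ω ξ j]; exact X_notMem_IJ hΩ j _ a

theorem exists_top (hΩ : ∀ l, IsPot (Ω l) (d l)) {i j : Fin n} {q : ℕ}
    (hq : ¬ Qd φ i j q) {Y : Fin 3 → MvPolynomial (Fin n × Fin 3) k} (hY : Rep φ i Y)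
    (hd : ∀ a, (th (wt j) (Y a)).natDegree ≤ q + 1) :
    ∃ a, (th (wt j) (Y a)).coeff (q + 1) ∉ IJ Ω ξ j 0 := by
  by_contra hcon
  push Not at hcon
  have h1 : ∀ a, ∃ f', Y a - f' ∈ IS Ω ξ Finset.univ ∧ (th (wt j) f').natDegree ≤ q :=
    fun a => reduce_IJ ξ j hΩ (Tp.self _ _ _ (hd a)) (hcon a)
  choose Y' hY' using h1
  exact hq ⟨Y', hY.congr (fun a => (hY' a).1), fun a => (hY' a).2⟩

theorem stepA (hΩ : ∀ l, IsPot (Ω l) (d l)) (hφ : IsPH φ) {i j : Fin n} {q : ℕ}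
    (hq : ¬ Qd φ i j q) (hq' : Qd φ i j (q + 1)) :
    (q + 1) * (d i - 1) ≤ q + (q + (d j - 1)) := by
  obtain ⟨Y, hY, hdeg⟩ := hq'
  obtain ⟨a, ha⟩ := exists_top hΩ hq hY hdeg
  by_contra hcon
  push Not at hcon
  have hp := prime_IJ ξ j hΩ 0
  set Z : Fin 3 → MvPolynomial (Fin n × Fin 3) k := fun a => (th (wt j) (Y a)).coeff (q + 1) with hZ
  have hT : ∀ a, Tp (wt j) (Y a) (q + 1) (Z a) := fun a => Tp.self _ _ _ (hdeg a)
  have h1 : ∀ c, MvPolynomial.aeval Z (pderiv c (Ω i)) ∈ IJ Ω ξ j 0 := by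
    intro c
    have h2 := hY.br hφ c
    rw [← IJ_self Ω ξ j] at h2
    have h3 := (Tp.br j hΩ (hT (c + 1)) (hT (c + 2))).lt hcon
    have h4 := Tp.aeval hT (homog_pderiv (hΩ i).hom c)
    have h5 := top_IJ ξ j hΩ h2 (h3.sub h4)
    rw [zero_sub] at h5
    have := neg_mem h5
    rwa [neg_neg] at this
  exact ha ((hΩ i).pow_mem (IJ Ω ξ j 0) Z h1 a)

theorem stepA_zero (hΩ : ∀ l, IsPot (Ω l) (d l)) (hφ : IsPH φ) {i j : Fin n}
    (hij : d j < d i) : Qd φ i j 0 := by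
  classical
  have hex := exists_Qd φ i j
  rcases Nat.eq_zero_or_pos (Nat.find hex) with h0 | hpos
  · have := Nat.find_spec hex; rwa [h0] at this
  · obtain ⟨q, hq⟩ := Nat.exists_eq_succ_of_ne_zero hpos.ne'
    have h1 : ¬ Qd φ i j q := Nat.find_min hex (by omega)
    have h2 : Qd φ i j (q + 1) := by have := Nat.find_spec hex; rwa [hq] at this
    have h3 := stepA hΩ hφ h1 h2
    have h4 := (hΩ i).two
    have h5 := (hΩ j).two
    exfalso
    obtain ⟨e, he⟩ : ∃ e, d i - 1 = 3 + e := ⟨d i - 4, by omega⟩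
    have h6 : d j - 1 < 3 + e := by omega
    rw [he] at h3
    nlinarith

theorem stepA_one (hΩ : ∀ l, IsPot (Ω l) (d l)) (hφ : IsPH φ) {i j : Fin n}
    (hij : d j = d i) : Qd φ i j 1 := by
  classical
  have hex := exists_Qd φ i j
  have hmono : ∀ p q, p ≤ q → Qd φ i j p → Qd φ i j q := by
    rintro p q hpq ⟨Y, hY, h⟩; exact ⟨Y, hY, fun a => (h a).trans hpq⟩
  by_contra hcon
  have hlt : 1 < Nat.find hex := by
    by_contra h
    exact hcon (hmono _ _ (by omega) (Nat.find_spec hex))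
  obtain ⟨q, hq⟩ : ∃ q, Nat.find hex = q + 2 := ⟨Nat.find hex - 2, by omega⟩
  have h1 : ¬ Qd φ i j (q + 1) := Nat.find_min hex (by omega)
  have h2 : Qd φ i j (q + 1 + 1) := by have := Nat.find_spec hex; rwa [hq] at this
  have h3 := stepA hΩ hφ h1 h2
  have h4 := (hΩ i).two
  obtain ⟨e, he⟩ : ∃ e, d i - 1 = 3 + e := ⟨d i - 4, by omega⟩
  rw [hij, he] at h3
  nlinarith

theorem Qd.mono {i j : Fin n} {p q : ℕ} (h : Qd φ i j p) (hpq : p ≤ q) : Qd φ i j q := by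
  obtain ⟨Y, hY, h⟩ := h; exact ⟨Y, hY, fun a => (h a).trans hpq⟩

/-- The block-`j` weight-`(d-1)` identity for two linear top components. -/
theorem cross_of_D3 (hΩ : ∀ l, IsPot (Ω l) (d l)) (j : Fin n)
    {u v : Fin 3 → MvPolynomial (Fin n × Fin 3) k}
    (hu : ∀ a, Tp (wt j) (u a) 0 (u a)) (hv : ∀ a, Tp (wt j) (v a) 0 (v a))
    (h : D3 u v (dΩ Ω j) ∈ IJ Ω ξ j 0) :
    u 1 * v 2 - u 2 * v 1 ∈ IS Ω ξ (Finset.univ.erase j) ∧
    u 2 * v 0 - u 0 * v 2 ∈ IS Ω ξ (Finset.univ.erase j) ∧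
    u 0 * v 1 - u 1 * v 0 ∈ IS Ω ξ (Finset.univ.erase j) := by
  have := prime_IS ξ hΩ (Finset.univ.erase j)
  have hdom : IsDomain (MvPolynomial (Fin n × Fin 3) k ⧸ IS Ω ξ (Finset.univ.erase j)) :=
    Ideal.Quotient.isDomain _
  have hd := (hΩ j).two
  have hdeg : Tp (wt j) (D3 u v (dΩ Ω j)) (0 + (0 + (d j - 1))) (D3 u v (dΩ Ω j)) :=
    Tp.D3 hu hv (fun a => Tp.emb_self j (homog_pderiv (hΩ j).hom a))
  have h1 := low_IJ ξ j hΩ h hdeg.1 (by omega)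
  have h2 := (tau_ker Ω ξ j (Finset.notMem_erase _ _) _).2 h1
  set q := IS Ω ξ (Finset.univ.erase j) with hq
  have hfree : ∀ g : MvPolynomial (Fin n × Fin 3) k, Tp (wt j) g 0 g →
      tau q j g = C (Ideal.Quotient.mk q g) := by
    intro g hg
    have h3 := hg.tau q
    have h4 := th_tau q j g
    have h5 : th (wt j) g = Polynomial.C g := by
      rw [Polynomial.eq_C_of_natDegree_le_zero hg.1, hg.2]
    rw [h5, Polynomial.map_C] at h4
    have h6 := eval_zero_th (tau q j g)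
    rw [h4, Polynomial.eval_C] at h6
    have h7 : tau q j g = C (constantCoeff (tau q j g)) := h6
    have h8 := ev_tau q j g
    rw [h7, eval_C] at h8
    rw [h7, h8]
  have h3 : D3 (fun a => (C (Ideal.Quotient.mk q (u a)) : MvPolynomial (Fin 3) _))
      (fun a => C (Ideal.Quotient.mk q (v a)))
      (fun a => map (algebraMap k _) (pderiv a (Ω j))) = 0 := by
    rw [← h2]
    simp only [H658PD.D3, map_add, map_sub, map_mul, hfree _ (hu _), hfree _ (hv _), dΩ,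
      tau_emb_self]
  have h4 := (hΩ j).indep (D := MvPolynomial (Fin n × Fin 3) k ⧸ q)
    (fun c => if c = 0 then Ideal.Quotient.mk q (u 1 * v 2 - u 2 * v 1) else
      if c = 1 then Ideal.Quotient.mk q (u 2 * v 0 - u 0 * v 2) else
      Ideal.Quotient.mk q (u 0 * v 1 - u 1 * v 0)) (by
      rw [← h3, Fin.sum_univ_three]
      simp only [H658PD.D3, map_sub, map_mul]
      simp
      ring)
  refine ⟨?_, ?_, ?_⟩
  · have := congrFun h4 0; simpa [Ideal.Quotient.eq_zero_iff_mem, ← map_mul, ← map_sub] using this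
  · have := congrFun h4 1; simpa [Ideal.Quotient.eq_zero_iff_mem, ← map_mul, ← map_sub] using this
  · have := congrFun h4 2; simpa [Ideal.Quotient.eq_zero_iff_mem, ← map_mul, ← map_sub] using this

end Steps

end H658PD
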