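import Pool.Agent.H658.PD.Steps

namespace H658PD

open MvPolynomial

section StepB

variable {k : Type*} [Field k] {n : ℕ}
variable {Ω : Fin n → MvPolynomial (Fin 3) k} {ξ : Fin n → k} {d : Fin n → ℕ}
variable {φ : PA Ω ξ →ₐ[k] PA Ω ξ}

theorem IS_le_IJ (j : Fin n) (x : k) : IS Ω ξ (Finset.univ.erase j) ≤ IJ Ω ξ j x := le_sup_left

/-- Three cross components determine all two by two minors. -/
theorem minors_of_cross {A : Type*} [CommRing A] (q : Ideal A) (u v : Fin 3 → A)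
    (h : u 1 * v 2 - u 2 * v 1 ∈ q ∧ u 2 * v 0 - u 0 * v 2 ∈ q ∧ u 0 * v 1 - u 1 * v 0 ∈ q)
    (c c' : Fin 3) : u c * v c' - u c' * v c ∈ q := by
  obtain ⟨h0, h1, h2⟩ := h
  have e0 : u 2 * v 1 - u 1 * v 2 ∈ q := by have := neg_mem h0; rwa [neg_sub] at this
  have e1 : u 0 * v 2 - u 2 * v 0 ∈ q := by have := neg_mem h1; rwa [neg_sub] at this
  have e2 : u 1 * v 0 - u 0 * v 1 ∈ q := by have := neg_mem h2; rwa [neg_sub] at this
  fin_cases c <;> fin_cases c' <;> simp only [Fin.zero_eta, Fin.mk_one, Fin.reduceFinMk, sub_self,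
    Ideal.zero_mem] <;> assumption

theorem parallel {A : Type*} [CommRing A] (q : Ideal A) [hq : q.IsPrime] (u u' v : Fin 3 → A)
    (hu : ∀ c c', u c * v c' - u c' * v c ∈ q) (hu' : ∀ c c', u' c * v c' - u' c' * v c ∈ q)
    {c1 : Fin 3} (hv : v c1 ∉ q) (c c' : Fin 3) : u c * u' c' - u c' * u' c ∈ q := by
  have h1 : (v c1 * v c1) * (u c * u' c' - u c' * u' c) ∈ q := by
    have : (v c1 * v c1) * (u c * u' c' - u c' * u' c) =
        (u c * v c1 - u c1 * v c) * (u' c' * v c1) + u c1 * v c * (u' c' * v c1 - u' c1 * v c')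
        - (u c' * v c1 - u c1 * v c') * (u' c * v c1) -
          u c1 * v c' * (u' c * v c1 - u' c1 * v c) := by ring
    rw [this]
    exact Ideal.sub_mem _ (Ideal.sub_mem _ (Ideal.add_mem _ (Ideal.mul_mem_right _ _ (hu _ _))
      (Ideal.mul_mem_left _ _ (hu' _ _))) (Ideal.mul_mem_right _ _ (hu _ _)))
      (Ideal.mul_mem_left _ _ (hu' _ _))
  rcases hq.mem_or_mem h1 with h2 | h2
  · rcases hq.mem_or_mem h2 with h3 | h3 <;> exact absurd h3 hv
  · exact h2

theorem D3_mem {A : Type*} [CommRing A] (q : Ideal A) (u v w : Fin 3 → A)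
    (h : ∀ c c', u c * v c' - u c' * v c ∈ q) : D3 u v w ∈ q := by
  have : D3 u v w = (u 1 * v 2 - u 2 * v 1) * w 0 + (u 2 * v 0 - u 0 * v 2) * w 1 +
      (u 0 * v 1 - u 1 * v 0) * w 2 := by simp only [D3]; ring
  rw [this]
  exact Ideal.add_mem _ (Ideal.add_mem _ (Ideal.mul_mem_right _ _ (h _ _))
    (Ideal.mul_mem_right _ _ (h _ _))) (Ideal.mul_mem_right _ _ (h _ _))

theorem stepB (hΩ : ∀ l, IsPot (Ω l) (d l)) (hφ : IsPH φ) {i i' j : Fin n} (hne : i ≠ i')
    (hi : d i = d j) (hi' : d i' = d j) (h1 : ¬ Qd φ i j 0) (h2 : ¬ Qd φ i' j 0) : False := by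
  obtain ⟨Y, hY, hdeg⟩ := stepA_one hΩ hφ (i := i) (j := j) hi.symm
  obtain ⟨Y', hY', hdeg'⟩ := stepA_one hΩ hφ (i := i') (j := j) hi'.symm
  obtain ⟨a1, ha1⟩ := exists_top hΩ h1 hY hdeg
  obtain ⟨b1, hb1⟩ := exists_top hΩ h2 hY' hdeg'
  rw [zero_add] at ha1 hb1
  have hp := prime_IJ ξ j hΩ 0
  have hpq := prime_IS ξ hΩ (Finset.univ.erase j)
  set Z : Fin 3 → MvPolynomial (Fin n × Fin 3) k := fun a => (th (wt j) (Y a)).coeff 1 with hZ
  set Z' : Fin 3 → MvPolynomial (Fin n × Fin 3) k := fun a => (th (wt j) (Y' a)).coeff 1 with hZ'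
  have hT : ∀ a, Tp (wt j) (Y a) 1 (Z a) := fun a => Tp.self _ _ _ (hdeg a)
  have hT' : ∀ a, Tp (wt j) (Y' a) 1 (Z' a) := fun a => Tp.self _ _ _ (hdeg' a)
  have hu : ∀ a c, Tp (wt j) (grad j (Z a) c) 0 (grad j (Z a) c) :=
    fun a c => ((hT a).idem).pderiv_in _ (wt_self j c)
  have hu' : ∀ a c, Tp (wt j) (grad j (Z' a) c) 0 (grad j (Z' a) c) :=
    fun a c => ((hT' a).idem).pderiv_in _ (wt_self j c)
  -- a nonzero coefficient of the second family
  obtain ⟨c1, hc1⟩ : ∃ c1, grad j (Z' b1) c1 ∉ IS Ω ξ (Finset.univ.erase j) := by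
    by_contra hcon
    push Not at hcon
    apply hb1
    have h3 := euler j ((hT' b1).idem)
    rw [Nat.cast_one, one_mul] at h3
    change Z' b1 ∈ _
    rw [← h3]
    exact Ideal.sum_mem _ (fun c _ => Ideal.mul_mem_left _ _ (IS_le_IJ j 0 (hcon c)))
  have hcross : ∀ a c c', grad j (Z a) c * grad j (Z' b1) c' - grad j (Z a) c' * grad j (Z' b1) c
      ∈ IS Ω ξ (Finset.univ.erase j) := by
    intro a
    have h3 := hY.br_ne hne hY' hφ a b1
    rw [← IJ_self Ω ξ j] at h3
    have h4 := Tp.br j hΩ (p := 0) (q := 0) (hT a) (hT' b1)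
    have h5 := top_IJ ξ j hΩ h3 h4
    rw [blk_eq] at h5
    exact minors_of_cross _ _ _ (cross_of_D3 hΩ j (hu a) (hu' b1) h5)
  have hD3 : ∀ a a', D3 (grad j (Z a)) (grad j (Z a')) (dΩ Ω j) ∈ IJ Ω ξ j 0 := by
    intro a a'
    exact IS_le_IJ j 0 (D3_mem _ _ _ _ (parallel _ _ _ _ (hcross a) (hcross a') hc1))
  have h3 : ∀ c, MvPolynomial.aeval Z (pderiv c (Ω i)) ∈ IJ Ω ξ j 0 := by
    intro c
    have h4 := hY.br hφ c
    rw [← IJ_self Ω ξ j] at h4
    have h5 := Tp.br j hΩ (p := 0) (q := 0) (hT (c + 1)) (hT (c + 2))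
    have h6 := Tp.aeval hT (homog_pderiv (hΩ i).hom c)
    have h7 := top_IJ ξ j hΩ h4 (h5.sub (h6.congr (by omega) rfl))
    rw [blk_eq] at h7
    have h8 := Ideal.sub_mem _ (hD3 (c + 1) (c + 2)) h7
    rwa [sub_sub_cancel] at h8
  exact ha1 ((hΩ i).pow_mem (IJ Ω ξ j 0) Z h3 a1)

/-- Lemma Z: an element commuting with block `j` has a representative free of block `j`. -/
theorem lemZ [CharZero k] (hΩ : ∀ l, IsPot (Ω l) (d l)) (j : Fin n) :
    ∀ m : ℕ, ∀ p : MvPolynomial (Fin n × Fin 3) k, (th (wt j) p).natDegree ≤ m →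
    (∀ b, H658PD.br Ω p (X (j, b)) ∈ IS Ω ξ Finset.univ) →
    ∃ p', p - p' ∈ IS Ω ξ Finset.univ ∧ (th (wt j) p').natDegree ≤ 0 := by
  intro m
  induction m with
  | zero =>
    intro p hp _
    exact ⟨p, by rw [sub_self]; exact Ideal.zero_mem _, hp⟩
  | succ m ih =>
    intro p hp hb
    have hpr := prime_IJ ξ j hΩ 0
    have hdj := (hΩ j).two
    set c := (th (wt j) p).coeff (m + 1) with hc
    have hT : Tp (wt j) p (m + 1) c := Tp.self _ _ _ hp
    have hcmem : c ∈ IJ Ω ξ j 0 := by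
      by_contra hcn
      have h1 : ∀ b, blk Ω j c (X (j, b)) ∈ IJ Ω ξ j 0 := by
        intro b
        have h2 := hb b
        rw [← IJ_self Ω ξ j] at h2
        have h3 : Tp (wt j) (X (j, b) : MvPolynomial (Fin n × Fin 3) k) (0 + 1) (X (j, b)) :=
          (Tp.var (j, b)).congr (wt_self j b) rfl
        exact top_IJ ξ j hΩ h2 (Tp.br j hΩ hT h3)
      have hgX : ∀ b a, grad j (X (j, b) : MvPolynomial (Fin n × Fin 3) k) a =
          if a = b then 1 else 0 := by
        intro b a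
        simp only [grad, pderiv_X, Pi.single_apply, Prod.mk.injEq, true_and]
        by_cases hab : a = b
        · simp [hab]
        · simp [hab, Ne.symm hab]
      set f := grad j c with hf
      set w := dΩ Ω j with hw
      have hb0 : f 2 * w 1 - f 1 * w 2 ∈ IJ Ω ξ j 0 := by
        have := h1 0
        rw [blk_eq, D3, hgX, hgX, hgX] at this
        convert this using 1
        simp
        ring
      have hb1 : f 0 * w 2 - f 2 * w 0 ∈ IJ Ω ξ j 0 := by
        have := h1 1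
        rw [blk_eq, D3, hgX, hgX, hgX] at this
        convert this using 1
        simp
        ring
      have hb2 : f 1 * w 0 - f 0 * w 1 ∈ IJ Ω ξ j 0 := by
        have := h1 2
        rw [blk_eq, D3, hgX, hgX, hgX] at this
        convert this using 1
        simp
        ring
      have hmin : ∀ a b, f a * w b - f b * w a ∈ IJ Ω ξ j 0 := by
        refine minors_of_cross _ f w ⟨?_, ?_, ?_⟩
        · have := neg_mem hb0; rwa [neg_sub] at this
        · have := neg_mem hb1; rwa [neg_sub] at this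
        · have := neg_mem hb2; rwa [neg_sub] at this
      have he1 := euler j hT.idem
      have he2 := euler j (Tp.emb_self j (hΩ j).hom)
      have hωmem : emb j (Ω j) ∈ IJ Ω ξ j 0 := by
        have : emb j (Ω j - C (0 : k)) ∈ IJ Ω ξ j 0 :=
          Ideal.mem_sup_right (Ideal.mem_span_singleton_self _)
        rwa [C_0, sub_zero] at this
      have hww : ∀ a, pderiv (j, a) (emb j (Ω j)) = w a := fun a => pderiv_emb_self j a (Ω j)
      have hcw : ∀ a, c * w a ∈ IJ Ω ξ j 0 := by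
        intro a
        have h2 : ((m + 1 : ℕ) : MvPolynomial (Fin n × Fin 3) k) * c * w a -
            (d j : MvPolynomial (Fin n × Fin 3) k) * emb j (Ω j) * f a =
            ∑ b, X (j, b) * (f b * w a - f a * w b) := by
          rw [← he1, ← he2, Finset.sum_mul, Finset.sum_mul, ← Finset.sum_sub_distrib]
          refine Finset.sum_congr rfl (fun b _ => ?_)
          rw [hww b]
          change X (j, b) * f b * w a - X (j, b) * w b * f a = _
          ring
        have h3 : ((m + 1 : ℕ) : MvPolynomial (Fin n × Fin 3) k) * c * w a -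
            (d j : MvPolynomial (Fin n × Fin 3) k) * emb j (Ω j) * f a ∈ IJ Ω ξ j 0 := by
          rw [h2]
          exact Ideal.sum_mem _ (fun b _ => Ideal.mul_mem_left _ _ (hmin b a))
        have h4 : ((m + 1 : ℕ) : MvPolynomial (Fin n × Fin 3) k) * c * w a ∈ IJ Ω ξ j 0 := by
          have h5 := Ideal.add_mem _ h3 (Ideal.mul_mem_right (f a) _ (Ideal.mul_mem_left _
            (d j : MvPolynomial (Fin n × Fin 3) k) hωmem))
          rwa [sub_add_cancel] at h5
        have h6 : c * w a = C ((m + 1 : ℕ) : k)⁻¹ *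
            (((m + 1 : ℕ) : MvPolynomial (Fin n × Fin 3) k) * c * w a) := by
          have h7 : ((m + 1 : ℕ) : MvPolynomial (Fin n × Fin 3) k) = C ((m + 1 : ℕ) : k) := by
            rw [map_natCast]
          rw [h7, ← mul_assoc, ← mul_assoc, ← C_mul, inv_mul_cancel₀, C_1, one_mul]
          exact_mod_cast Nat.succ_ne_zero m
        rw [h6]
        exact Ideal.mul_mem_left _ _ h4
      have hwm : ∀ a, w a ∈ IJ Ω ξ j 0 := fun a =>
        (hpr.mem_or_mem (hcw a)).resolve_left hcn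
      have hX := (hΩ j).pow_mem (IJ Ω ξ j 0) (fun a => X (j, a)) (fun a => by
        have := hwm a
        rw [hw] at this
        simp only [dΩ] at this
        rwa [emb_eq_aeval] at this) 0
      exact X_notMem_IJ hΩ j 0 0 hX
    obtain ⟨p1, hp1, hp1d⟩ := reduce_IJ ξ j hΩ hT hcmem
    obtain ⟨p', hp', hp'd⟩ := ih p1 hp1d (fun b => by
      have h2 := br_sub_mem ξ hp1 (X (j, b))
      have h3 := Ideal.sub_mem _ (hb b) h2
      rwa [sub_sub_cancel] at h3)
    refine ⟨p', ?_, hp'd⟩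
    have := Ideal.add_mem _ hp1 hp'
    rwa [sub_add_sub_cancel] at this

/-- Not all weights vanish. -/
theorem exists_pos (hΩ : ∀ l, IsPot (Ω l) (d l)) (hφ : IsPH φ) (hinj : Function.Injective φ)
    (i : Fin n) : ∃ j, ¬ Qd φ i j 0 := by
  by_contra hcon
  push Not at hcon
  obtain ⟨Y, hY⟩ := rep_exists φ i
  have hpr := prime_IS ξ hΩ Finset.univ
  have h1 : ∀ a g, H658PD.br Ω (Y a) g ∈ IS Ω ξ Finset.univ := by
    intro a g
    rw [H658PD.br]
    refine Ideal.sum_mem _ (fun j _ => ?_)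
    obtain ⟨Y', hY', hd'⟩ := hcon j
    have h2 : Y a - Y' a ∈ IS Ω ξ Finset.univ := cl_eq.1 (by rw [← hY a, ← hY' a])
    have h3 := blk_mem j ξ h2 g
    rw [blk_sub_left] at h3
    have h4 : blk Ω j (Y' a) g = 0 :=
      blk_of_grad_zero Ω j (fun b => Tp.pderiv_zero (j, b) (wt_self j b)
        (Tp.self _ _ _ (hd' a))) g
    rwa [h4, sub_zero] at h3
  have h2 : ∀ c, MvPolynomial.aeval Y (pderiv c (Ω i)) ∈ IS Ω ξ Finset.univ := by
    intro c
    have h3 := Ideal.sub_mem _ (h1 (c + 1) (Y (c + 2))) (hY.br hφ c)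
    rwa [sub_sub_cancel] at h3
  have h3 := (hΩ i).pow_mem _ Y h2 0
  have h4 : φ (cl Ω ξ (X (i, 0))) = 0 := by rw [hY 0]; exact cl_zero.2 h3
  have h5 : cl Ω ξ (X (i, 0)) = 0 := hinj (by rw [h4, map_zero])
  exact X_notMem hΩ i 0 (cl_zero.1 h5)

end StepB

end H658PD
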