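import Pool.Agent.H658.PD.Defs
import Pool.Agent.H658.PD.MainB

set_option autoImplicit false

namespace H658PD

open MvPolynomial

section PiLift

variable {ι k S : Type*} [Fintype ι] [CommRing k] {A : ι → Type*} [∀ i, CommRing (A i)]
  [∀ i, Algebra k (A i)] [CommRing S] [Algebra k S]

/-- the multilinear map behind `piLift` -/
noncomputable def piMul (f : ∀ i, A i →ₐ[k] S) : MultilinearMap k A S :=
  (MultilinearMap.mkPiAlgebra k ι S).compLinearMap (fun i => (f i).toLinearMap)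

theorem piMul_apply (f : ∀ i, A i →ₐ[k] S) (a : ∀ i, A i) : piMul f a = ∏ i, f i (a i) := by
  simp [piMul]

/-- The algebra map on a tensor product given by algebra maps on the factors. -/
noncomputable def piLift (f : ∀ i, A i →ₐ[k] S) : PiTensorProduct k A →ₐ[k] S :=
  PiTensorProduct.liftAlgHom (piMul f)
    (by rw [piMul_apply]; exact Finset.prod_eq_one (fun i _ => map_one (f i)))
    (fun x y => by
      rw [piMul_apply, piMul_apply, piMul_apply, ← Finset.prod_mul_distrib]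
      exact Finset.prod_congr rfl (fun i _ => map_mul (f i) (x i) (y i)))

theorem piLift_tprod (f : ∀ i, A i →ₐ[k] S) (a : ∀ i, A i) :
    piLift f (PiTensorProduct.tprod k a) = ∏ i, f i (a i) := by
  rw [piLift, PiTensorProduct.liftAlgHom_apply, PiTensorProduct.lift.tprod, piMul_apply]

end PiLift

section BP

universe u

variable {k : Type u} [Field k] {n : ℕ} (Ω : Fin n → MvPolynomial (Fin 3) k) (ξ : Fin n → k)

theorem br_add_left (f f' g : MvPolynomial (Fin n × Fin 3) k) :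
    br Ω (f + f') g = br Ω f g + br Ω f' g := by
  rw [br, br, br, ← Finset.sum_add_distrib]
  exact Finset.sum_congr rfl (fun j _ => blk_add_left Ω j f f' g)

theorem br_smul_left (c : k) (f g : MvPolynomial (Fin n × Fin 3) k) :
    br Ω (c • f) g = c • br Ω f g := by
  rw [br, br, Finset.smul_sum]
  refine Finset.sum_congr rfl (fun j _ => ?_)
  rw [smul_eq_C_mul, smul_eq_C_mul, blk_mul_left,
    blk_of_grad_zero Ω j (f := C c) (fun a => pderiv_C), mul_zero, add_zero]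

/-- the bracket on the presentation -/
noncomputable def BPf (x y : PA Ω ξ) : PA Ω ξ :=
  cl Ω ξ (br Ω (Function.surjInv (cl_surj (Ω := Ω) (ξ := ξ)) x)
    (Function.surjInv (cl_surj (Ω := Ω) (ξ := ξ)) y))

theorem BPf_cl (f g : MvPolynomial (Fin n × Fin 3) k) :
    BPf Ω ξ (cl Ω ξ f) (cl Ω ξ g) = cl Ω ξ (br Ω f g) := by
  rw [BPf, cl_eq]
  have h1 : Function.surjInv (cl_surj (Ω := Ω) (ξ := ξ)) (cl Ω ξ f) - f ∈ IS Ω ξ Finset.univ :=
    cl_eq.1 (Function.surjInv_eq (cl_surj (Ω := Ω) (ξ := ξ)) (cl Ω ξ f))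
  have h2 : Function.surjInv (cl_surj (Ω := Ω) (ξ := ξ)) (cl Ω ξ g) - g ∈ IS Ω ξ Finset.univ :=
    cl_eq.1 (Function.surjInv_eq (cl_surj (Ω := Ω) (ξ := ξ)) (cl Ω ξ g))
  have h3 := br_sub_mem ξ h1 (Function.surjInv (cl_surj (Ω := Ω) (ξ := ξ)) (cl Ω ξ g))
  have h4 := br_sub_mem_right ξ h2 f
  have h5 := Ideal.add_mem _ h3 h4
  rwa [sub_add_sub_cancel] at h5

theorem BPf_swap (x y : PA Ω ξ) : BPf Ω ξ x y = - BPf Ω ξ y x := by
  obtain ⟨f, rfl⟩ := cl_surj x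
  obtain ⟨g, rfl⟩ := cl_surj y
  rw [BPf_cl, BPf_cl, br_swap, map_neg]

theorem BPf_add (x x' y : PA Ω ξ) : BPf Ω ξ (x + x') y = BPf Ω ξ x y + BPf Ω ξ x' y := by
  obtain ⟨f, rfl⟩ := cl_surj x
  obtain ⟨f', rfl⟩ := cl_surj x'
  obtain ⟨g, rfl⟩ := cl_surj y
  rw [← map_add, BPf_cl, BPf_cl, BPf_cl, ← map_add, br_add_left]

theorem BPf_smul (c : k) (x y : PA Ω ξ) : BPf Ω ξ (c • x) y = c • BPf Ω ξ x y := by
  obtain ⟨f, rfl⟩ := cl_surj x
  obtain ⟨g, rfl⟩ := cl_surj y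
  rw [← map_smul, BPf_cl, BPf_cl, ← map_smul, br_smul_left]

/-- the bilinear bracket on the presentation -/
noncomputable def BP : PA Ω ξ →ₗ[k] PA Ω ξ →ₗ[k] PA Ω ξ :=
  LinearMap.mk₂ k (BPf Ω ξ) (BPf_add Ω ξ) (BPf_smul Ω ξ)
    (fun x y y' => by
      rw [BPf_swap, BPf_add, BPf_swap Ω ξ x y, BPf_swap Ω ξ x y']; abel)
    (fun c x y => by rw [BPf_swap, BPf_smul, BPf_swap Ω ξ x y, smul_neg])

theorem BP_cl (f g : MvPolynomial (Fin n × Fin 3) k) :
    BP Ω ξ (cl Ω ξ f) (cl Ω ξ g) = cl Ω ξ (br Ω f g) := by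
  rw [BP, LinearMap.mk₂_apply, BPf_cl]

/-- The bracket of two products of one-block polynomials. -/
theorem br_prod (f g : Fin n → MvPolynomial (Fin 3) k) :
    br Ω (∏ i, emb i (f i)) (∏ i, emb i (g i)) =
      ∑ j, emb j (jacBr (Ω j) (f j) (g j)) *
        ∏ i ∈ Finset.univ.erase j, emb i (f i * g i) := by
  classical
  rw [br]
  refine Finset.sum_congr rfl (fun j _ => ?_)
  rw [← Finset.mul_prod_erase _ _ (Finset.mem_univ j),
    ← Finset.mul_prod_erase _ (fun i => emb i (g i)) (Finset.mem_univ j)]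
  have hz : ∀ (h : Fin n → MvPolynomial (Fin 3) k) (s : Finset (Fin n)), j ∉ s →
      ∀ a, pderiv (j, a) (∏ i ∈ s, emb i (h i)) = 0 := by
    intro h s
    induction s using Finset.induction_on with
    | empty => intro _ a; rw [Finset.prod_empty]; exact pderiv_one
    | insert b s hb ih =>
      intro hj a
      rw [Finset.prod_insert hb, Derivation.leibniz,
        ih (fun h => hj (Finset.mem_insert_of_mem h)) a,
        pderiv_emb_ne (by rintro rfl; exact hj (Finset.mem_insert_self _ _)) a, smul_zero,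
        smul_zero, add_zero]
  have hf := hz f (Finset.univ.erase j) (Finset.notMem_erase _ _)
  have hg := hz g (Finset.univ.erase j) (Finset.notMem_erase _ _)
  rw [blk_mul_left, blk_of_grad_zero Ω j hf, mul_zero, zero_add, blk_swap, blk_mul_left,
    blk_of_grad_zero Ω j hg, mul_zero, zero_add, blk_swap Ω j (emb j (g j))]
  have h1 : blk Ω j (emb j (f j)) (emb j (g j)) = emb j (jacBr (Ω j) (f j) (g j)) := by
    rw [blk_eq, jacBr_eq]
    simp only [D3, grad, dΩ, pderiv_emb_self, map_add, map_sub, map_mul]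
  rw [h1]
  simp only [map_mul, Finset.prod_mul_distrib]
  ring

end BP

section Tensor

universe u

variable {k : Type u} [Field k] {n : ℕ} (Ω : Fin n → MvPolynomial (Fin 3) k) (ξ : Fin n → k)

theorem pcl_surj (Ω : MvPolynomial (Fin 3) k) (ξ : k) (x : PQ Ω ξ) : ∃ f, pcl Ω ξ f = x :=
  Ideal.Quotient.mk_surjective x

/-- the class map as an algebra homomorphism -/
noncomputable def pclA (Ω : MvPolynomial (Fin 3) k) (ξ : k) :
    MvPolynomial (Fin 3) k →ₐ[k] PQ Ω ξ := Ideal.Quotient.mkₐ k (relIdeal Ω ξ)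

theorem pclA_apply (Ω : MvPolynomial (Fin 3) k) (ξ : k) (f : MvPolynomial (Fin 3) k) :
    pclA Ω ξ f = pcl Ω ξ f := rfl

theorem pcl_mul (Ω : MvPolynomial (Fin 3) k) (ξ : k) (f g : MvPolynomial (Fin 3) k) :
    pcl Ω ξ f * pcl Ω ξ g = pcl Ω ξ (f * g) := (map_mul (pclA Ω ξ) f g).symm

/-- lifting from `k[x, y, z] / (Ω - ξ)` -/
noncomputable def pqLift {S : Type*} [CommRing S] [Algebra k S] (Ω : MvPolynomial (Fin 3) k) (ξ : k)
    (F : MvPolynomial (Fin 3) k →ₐ[k] S) (h : F (Ω - C ξ) = 0) : PQ Ω ξ →ₐ[k] S :=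
  Ideal.Quotient.liftₐ (relIdeal Ω ξ) F (fun a ha => by
    obtain ⟨g, rfl⟩ := Ideal.mem_span_singleton'.1 ha
    rw [map_mul, h, mul_zero])

theorem pqLift_pcl {S : Type*} [CommRing S] [Algebra k S] (Ω : MvPolynomial (Fin 3) k) (ξ : k)
    (F : MvPolynomial (Fin 3) k →ₐ[k] S) (h : F (Ω - C ξ) = 0) (f : MvPolynomial (Fin 3) k) :
    pqLift Ω ξ F h (pcl Ω ξ f) = F f := rfl

theorem gen_mem (i : Fin n) : ((cl Ω ξ).comp (emb i)) (Ω i - C (ξ i)) = 0 :=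
  cl_zero.2 (Ideal.subset_span ⟨i, by simp, rfl⟩)

/-- the inclusion of a factor in the presentation -/
noncomputable def iot (i : Fin n) : PQ (Ω i) (ξ i) →ₐ[k] PA Ω ξ :=
  pqLift (Ω i) (ξ i) ((cl Ω ξ).comp (emb i)) (gen_mem Ω ξ i)

theorem iot_pcl (i : Fin n) (f : MvPolynomial (Fin 3) k) :
    iot Ω ξ i (pcl _ _ f) = cl Ω ξ (emb i f) := rfl

/-- from the tensor product to the presentation -/
noncomputable def toPA : TP Ω ξ →ₐ[k] PA Ω ξ :=
  piLift (A := fun i => PQ (Ω i) (ξ i)) (iot Ω ξ)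

theorem toPA_pureT (a : (i : Fin n) → PQ (Ω i) (ξ i)) :
    toPA Ω ξ (pureT Ω ξ a) = ∏ i, iot Ω ξ i (a i) :=
  piLift_tprod (A := fun i => PQ (Ω i) (ξ i)) _ _

/-- the inclusion of a factor in the tensor product -/
noncomputable def sgl (i : Fin n) : PQ (Ω i) (ξ i) →ₐ[k] TP Ω ξ :=
  PiTensorProduct.singleAlgHom (R := k) (A := fun i => PQ (Ω i) (ξ i)) i

theorem sgl_apply (i : Fin n) (x : PQ (Ω i) (ξ i)) :
    sgl Ω ξ i x = pureT Ω ξ (MonoidHom.mulSingle _ i x) := rfl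

/-- the variables in the tensor product -/
noncomputable def varT : MvPolynomial (Fin n × Fin 3) k →ₐ[k] TP Ω ξ :=
  aeval (fun p : Fin n × Fin 3 => sgl Ω ξ p.1 (pcl _ _ (X p.2)))

theorem varT_emb (l : Fin n) (F : MvPolynomial (Fin 3) k) :
    varT Ω ξ (emb l F) = sgl Ω ξ l (pcl _ _ F) := by
  have h : (varT Ω ξ).comp (emb l) = (sgl Ω ξ l).comp (pclA (Ω l) (ξ l)) := by
    apply algHom_ext
    intro a
    rw [AlgHom.comp_apply, AlgHom.comp_apply, emb_X, varT, aeval_X, pclA_apply]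
  exact congrArg (fun G => G F) h

theorem varT_ker (a : MvPolynomial (Fin n × Fin 3) k) (ha : a ∈ IS Ω ξ Finset.univ) :
    varT Ω ξ a = 0 := by
  have h : IS Ω ξ Finset.univ ≤ RingHom.ker (varT Ω ξ) := by
    rw [IS, Ideal.span_le]
    rintro _ ⟨l, -, rfl⟩
    rw [SetLike.mem_coe, RingHom.mem_ker]
    refine (varT_emb Ω ξ l _).trans ?_
    have h1 : pcl (Ω l) (ξ l) (Ω l - C (ξ l)) = 0 :=
      Ideal.Quotient.eq_zero_iff_mem.2 (Ideal.mem_span_singleton_self _)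
    rw [h1, map_zero]
  exact h ha

/-- from the presentation to the tensor product -/
noncomputable def ofPA : PA Ω ξ →ₐ[k] TP Ω ξ :=
  Ideal.Quotient.liftₐ (IS Ω ξ Finset.univ) (varT Ω ξ) (varT_ker Ω ξ)

theorem ofPA_cl (f : MvPolynomial (Fin n × Fin 3) k) : ofPA Ω ξ (cl Ω ξ f) = varT Ω ξ f := rfl

theorem toPA_sgl (i : Fin n) (x : PQ (Ω i) (ξ i)) :
    toPA Ω ξ (sgl Ω ξ i x) = iot Ω ξ i x := by
  rw [sgl_apply, toPA_pureT, Finset.prod_eq_single i]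
  · simp
  · intro j _ hj
    simp [hj]
  · intro h; exact absurd (Finset.mem_univ _) h

theorem toPA_comp_ofPA : (toPA Ω ξ).comp (ofPA Ω ξ) = AlgHom.id k _ := by
  have h1 : ((toPA Ω ξ).comp (ofPA Ω ξ)).comp (cl Ω ξ) = cl Ω ξ := by
    apply algHom_ext
    rintro ⟨i, a⟩
    rw [AlgHom.comp_apply, AlgHom.comp_apply, ofPA_cl, varT, aeval_X, toPA_sgl, iot_pcl, emb_X]
  ext x
  obtain ⟨f, rfl⟩ := cl_surj x
  exact congrArg (fun F => F f) h1

theorem ofPA_comp_toPA : (ofPA Ω ξ).comp (toPA Ω ξ) = AlgHom.id k _ := by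
  apply PiTensorProduct.algHom_ext (A := fun i => PQ (Ω i) (ξ i))
  intro i
  ext x
  obtain ⟨f, rfl⟩ := pcl_surj _ _ x
  change ofPA Ω ξ (toPA Ω ξ (sgl Ω ξ i (pcl _ _ f))) = sgl Ω ξ i (pcl _ _ f)
  rw [toPA_sgl, iot_pcl, ofPA_cl, varT_emb]

/-- The tensor product and its presentation are isomorphic. -/
noncomputable def eqv : TP Ω ξ ≃ₐ[k] PA Ω ξ :=
  AlgEquiv.ofAlgHom (toPA Ω ξ) (ofPA Ω ξ) (toPA_comp_ofPA Ω ξ) (ofPA_comp_toPA Ω ξ)

theorem eqv_pureT (a : (i : Fin n) → PQ (Ω i) (ξ i)) :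
    eqv Ω ξ (pureT Ω ξ a) = ∏ i, iot Ω ξ i (a i) := toPA_pureT Ω ξ a

/-- the bracket of the tensor product -/
noncomputable def B0 (x y : TP Ω ξ) : TP Ω ξ :=
  (eqv Ω ξ).symm (BPf Ω ξ (eqv Ω ξ x) (eqv Ω ξ y))

theorem eqv_B0 (x y : TP Ω ξ) : eqv Ω ξ (B0 Ω ξ x y) = BPf Ω ξ (eqv Ω ξ x) (eqv Ω ξ y) := by
  rw [B0, AlgEquiv.apply_symm_apply]

theorem B0_swap (x y : TP Ω ξ) : B0 Ω ξ x y = - B0 Ω ξ y x := by
  rw [B0, B0, BPf_swap, map_neg]

theorem B0_add (x x' y : TP Ω ξ) : B0 Ω ξ (x + x') y = B0 Ω ξ x y + B0 Ω ξ x' y := by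
  rw [B0, B0, B0, map_add, BPf_add, map_add]

theorem B0_smul (c : k) (x y : TP Ω ξ) : B0 Ω ξ (c • x) y = c • B0 Ω ξ x y := by
  rw [B0, B0, map_smul, BPf_smul, map_smul]

theorem B0_spec : IsTensorBracket Ω ξ (B0 Ω ξ) := by
  classical
  refine ⟨B0_add Ω ξ, ?_, B0_smul Ω ξ, ?_, ?_⟩
  · intro x y y'
    rw [B0_swap, B0_add, B0_swap Ω ξ x y, B0_swap Ω ξ x y']; abel
  · intro c x y
    rw [B0_swap, B0_smul, B0_swap Ω ξ x y, smul_neg]
  · intro a b
    apply (eqv Ω ξ).injective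
    rw [eqv_B0, eqv_pureT, eqv_pureT, map_sum]
    choose f hf using fun i => pcl_surj _ _ (a i)
    choose g hg using fun i => pcl_surj _ _ (b i)
    have h1 : ∏ i, iot Ω ξ i (a i) = cl Ω ξ (∏ i, emb i (f i)) := by
      rw [map_prod]
      exact Finset.prod_congr rfl (fun i _ => by rw [← hf i, iot_pcl])
    have h2 : ∏ i, iot Ω ξ i (b i) = cl Ω ξ (∏ i, emb i (g i)) := by
      rw [map_prod]
      exact Finset.prod_congr rfl (fun i _ => by rw [← hg i, iot_pcl])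
    rw [h1, h2, BPf_cl, br_prod, map_sum]
    refine Finset.sum_congr rfl (fun j _ => ?_)
    rw [eqv_pureT, ← Finset.mul_prod_erase _ _ (Finset.mem_univ j), map_mul, map_prod]
    congr 1
    · rw [Function.update_self, ← hf j, ← hg j, pqBr_mk, iot_pcl]
    · refine Finset.prod_congr rfl (fun i hi => ?_)
      rw [Function.update_of_ne (Finset.ne_of_mem_erase hi), ← hf i, ← hg i, pcl_mul, iot_pcl]

/-- A bracket as a bilinear map. -/
noncomputable def IsTensorBracket.bil {B : TP Ω ξ → TP Ω ξ → TP Ω ξ}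
    (h : IsTensorBracket Ω ξ B) : TP Ω ξ →ₗ[k] TP Ω ξ →ₗ[k] TP Ω ξ :=
  LinearMap.mk₂ k B h.add_left h.smul_left h.add_right h.smul_right

theorem IsTensorBracket.unique {B B' : TP Ω ξ → TP Ω ξ → TP Ω ξ}
    (h : IsTensorBracket Ω ξ B) (h' : IsTensorBracket Ω ξ B') : B = B' := by
  have h1 : IsTensorBracket.bil Ω ξ h = IsTensorBracket.bil Ω ξ h' := by
    apply PiTensorProduct.ext (s := fun i => PQ (Ω i) (ξ i))
    ext1 a
    apply PiTensorProduct.ext (s := fun i => PQ (Ω i) (ξ i))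
    ext1 b
    exact (h.pure_pure a b).trans (h'.pure_pure a b).symm
  funext x y
  exact congrArg (fun F => F x y) h1

variable {Ω ξ}

/-- transport of a homomorphism -/
noncomputable def trans (φ : TP Ω ξ →ₐ[k] TP Ω ξ) : PA Ω ξ →ₐ[k] PA Ω ξ :=
  ((eqv Ω ξ).toAlgHom.comp φ).comp (eqv Ω ξ).symm.toAlgHom

theorem trans_apply (φ : TP Ω ξ →ₐ[k] TP Ω ξ) (x : TP Ω ξ) :
    trans φ (eqv Ω ξ x) = eqv Ω ξ (φ x) := by
  change eqv Ω ξ (φ ((eqv Ω ξ).symm (eqv Ω ξ x))) = _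
  rw [AlgEquiv.symm_apply_apply]

theorem trans_isPH {φ : TP Ω ξ →ₐ[k] TP Ω ξ} (h : ∀ x y, φ (B0 Ω ξ x y) = B0 Ω ξ (φ x) (φ y)) :
    IsPH (trans φ) := by
  intro f g f' g' hf hg
  obtain ⟨x, hx⟩ := (eqv Ω ξ).surjective (cl Ω ξ f)
  obtain ⟨y, hy⟩ := (eqv Ω ξ).surjective (cl Ω ξ g)
  rw [← BPf_cl, ← hx, ← hy, ← eqv_B0, trans_apply, h, eqv_B0, ← trans_apply, ← trans_apply, hx, hy,
    hf, hg, BPf_cl]

theorem trans_inj {φ : TP Ω ξ →ₐ[k] TP Ω ξ} (h : Function.Injective φ) :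
    Function.Injective (trans φ) := by
  intro x y hxy
  obtain ⟨x, rfl⟩ := (eqv Ω ξ).surjective x
  obtain ⟨y, rfl⟩ := (eqv Ω ξ).surjective y
  rw [trans_apply, trans_apply] at hxy
  rw [h ((eqv Ω ξ).injective hxy)]

theorem trans_surj {φ : TP Ω ξ →ₐ[k] TP Ω ξ} (h : Function.Surjective (trans φ)) :
    Function.Surjective φ := by
  intro y
  obtain ⟨x, hx⟩ := h (eqv Ω ξ y)
  obtain ⟨x, rfl⟩ := (eqv Ω ξ).surjective x
  rw [trans_apply] at hx
  exact ⟨x, (eqv Ω ξ).injective hx⟩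

theorem isPot_of {Ω : MvPolynomial (Fin 3) k} {d : ℕ} (h1 : Ω.IsHomogeneous d) (h2 : 4 ≤ d)
    (h3 : IsIS Ω) : IsPot Ω d := ⟨h1, h2, jac_pow h1 h3⟩

theorem tensor_dixmier [CharZero k] {d : Fin n → ℕ} (h1 : ∀ i, (Ω i).IsHomogeneous (d i))
    (h2 : ∀ i, 4 ≤ d i) (h3 : ∀ i, IsIS (Ω i)) {B : TP Ω ξ → TP Ω ξ → TP Ω ξ}
    (hB : IsTensorBracket Ω ξ B) (φ : TP Ω ξ →ₐ[k] TP Ω ξ) (hφ : PreservesBr B φ)
    (hinj : Function.Injective φ) : Function.Bijective φ := by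
  have hBB : B = B0 Ω ξ := IsTensorBracket.unique Ω ξ hB (B0_spec Ω ξ)
  subst hBB
  exact ⟨hinj, trans_surj (main_surj (fun l => isPot_of (h1 l) (h2 l) (h3 l)) (trans_isPH hφ)
    (trans_inj hinj))⟩

theorem tensor_finite [CharZero k] {d : Fin n → ℕ} (h1 : ∀ i, (Ω i).IsHomogeneous (d i))
    (h2 : ∀ i, 4 ≤ d i) (h3 : ∀ i, IsIS (Ω i)) {B : TP Ω ξ → TP Ω ξ → TP Ω ξ}
    (hB : IsTensorBracket Ω ξ B) :
    {φ : TP Ω ξ ≃ₐ[k] TP Ω ξ | PreservesBr B φ}.Finite := by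
  have hBB : B = B0 Ω ξ := IsTensorBracket.unique Ω ξ hB (B0_spec Ω ξ)
  subst hBB
  refine Set.Finite.of_injOn (f := fun φ : TP Ω ξ ≃ₐ[k] TP Ω ξ => trans φ.toAlgHom)
    (t := {ψ : PA Ω ξ →ₐ[k] PA Ω ξ | IsPH ψ ∧ Function.Injective ψ}) ?_ ?_
    (finite_endo (fun l => isPot_of (h1 l) (h2 l) (h3 l)))
  · intro φ hφ
    exact ⟨trans_isPH (φ := φ.toAlgHom) hφ, trans_inj (φ := φ.toAlgHom) φ.injective⟩
  · intro φ _ ψ _ heq
    ext x
    have h4 := congrArg (fun F => F (eqv Ω ξ x)) heq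
    simp only [trans_apply] at h4
    exact (eqv Ω ξ).injective h4

end Tensor

end H658PD
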